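import Mathlib

/-!
# The coefficient truncation operator `S_n` and the quantities `N^real_{n,p}`, `N^comp_{n,p}`
(definitions for problem MP_7d00fe_an)
-/

open Real

namespace Pool.Agent.Lib_helper21.CoeffTrunc

/-- The coefficient `a`, pulled radially into the closed unit disc. -/
noncomputable def clip (a : ℂ) : ℂ := if ‖a‖ < 1 then a else a / (‖a‖ : ℂ)

/-- The map `S_n`: every coefficient `a_j`, `0 ≤ j ≤ n`, is replaced by `clip a_j`. -/
noncomputable def trunc (n : ℕ) (P : Polynomial ℂ) : Polynomial ℂ :=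
  ∑ j ∈ Finset.range (n + 1), Polynomial.monomial j (clip (P.coeff j))

/-- `‖P‖_p = (∫_{∂D} |P|^p |dz|)^{1/p}` with arc length measure. -/
noncomputable def circleNorm (p : ℝ) (P : Polynomial ℂ) : ℝ :=
  (∫ θ in (0:ℝ)..(2 * π), ‖P.eval (Complex.exp (θ * Complex.I))‖ ^ p) ^ (1 / p)

/-- `N^real_{n,p}`, as an element of `[0, ∞]`. -/
noncomputable def NReal (n : ℕ) (p : ℝ) : ENNReal :=
  ⨆ (P : Polynomial ℝ) (_ : P.natDegree ≤ n) (_ : P ≠ 0),
    ENNReal.ofReal (circleNorm p (trunc n (P.map (algebraMap ℝ ℂ))) /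
      circleNorm p (P.map (algebraMap ℝ ℂ)))

/-- `N^comp_{n,p}`, as an element of `[0, ∞]`. -/
noncomputable def NComp (n : ℕ) (p : ℝ) : ENNReal :=
  ⨆ (P : Polynomial ℂ) (_ : P.natDegree ≤ n) (_ : P ≠ 0),
    ENNReal.ofReal (circleNorm p (trunc n P) / circleNorm p P)

end Pool.Agent.Lib_helper21.CoeffTrunc
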