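import Pool.Agent.Lib_helper21.CoeffTruncDefs

/-!
# Proof that the coefficient truncation operator is unbounded on `L_p`, `0 < p < 2`

Outline: for `b < 1` close to `1` the polynomial `1 + z + b z^2` has smaller `L_p` norm than
`1 + z - b z^2`.  Lacunary tensor powers of these two polynomials have exponentially different
`p`-norms, the coefficients of the first one are all of the form `0, ± b^k` with `k ≤ d`, and the
second one is obtained from the first by the sign changes `(-1)^k`, which can be performed by `O(d)`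
truncations at the heights `b^e`.
-/

open MeasureTheory Filter Topology Real

namespace Pool.Agent.Lib_helper21.CoeffTrunc

theorem fejer {F G : ℝ → ℝ} (hF : Continuous F) (hG : Continuous G)
    (pF : Function.Periodic F (2 * π)) (pG : Function.Periodic G (2 * π)) :
    Tendsto (fun M : ℕ => ∫ θ in (0:ℝ)..(2 * π), F θ * G (M * θ)) atTop
      (𝓝 ((∫ θ in (0:ℝ)..(2 * π), F θ) * (∫ θ in (0:ℝ)..(2 * π), G θ) / (2 * π))) := by
  have hpi : (0:ℝ) < 2 * π := by positivity
  -- bound of G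
  obtain ⟨B, hB⟩ : ∃ B : ℝ, ∀ x, |G x| ≤ B := by
    obtain ⟨B, hB⟩ := (isCompact_Icc (a := (0:ℝ)) (b := 2 * π)).exists_bound_of_continuousOn hG.continuousOn
    refine ⟨B, fun x => ?_⟩
    obtain ⟨y, hy, hxy⟩ := pG.exists_mem_Ico₀ hpi x
    rw [hxy]
    exact hB y ⟨hy.1, hy.2.le⟩
  have hB0 : 0 ≤ B := le_trans (abs_nonneg _) (hB 0)
  -- uniform continuity of F
  have hUC : UniformContinuousOn F (Set.Icc 0 (4 * π)) :=
    isCompact_Icc.uniformContinuousOn_of_continuous hF.continuousOn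
  rw [Metric.uniformContinuousOn_iff] at hUC
  -- the key identity
  have key : ∀ M : ℕ, 1 ≤ M →
      (2 * π) * (∫ θ in (0:ℝ)..(2 * π), F θ * G (M * θ)) -
        (∫ θ in (0:ℝ)..(2 * π), F θ) * (∫ θ in (0:ℝ)..(2 * π), G θ) =
      ∫ s in (0:ℝ)..(2 * π), ∫ θ in (0:ℝ)..(2 * π), (F (θ + s / M) - F θ) * G (M * θ + s) := by
    intro M hM
    have hM0 : (M:ℝ) ≠ 0 := by positivity
    have h1 : ∀ s : ℝ, (∫ θ in (0:ℝ)..(2 * π), F (θ + s / M) * G (M * θ + s)) =
        ∫ θ in (0:ℝ)..(2 * π), F θ * G (M * θ) := by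
      intro s
      have e1 : (∫ θ in (0:ℝ)..(2 * π), F (θ + s / M) * G (M * θ + s)) =
          ∫ θ in (0:ℝ)..(2 * π), (fun x => F x * G (M * x)) (θ + s / M) := by
        congr 1
        ext θ
        simp only
        congr 2
        field_simp
      rw [e1, intervalIntegral.integral_comp_add_right (fun x => F x * G (M * x))]
      have hper : Function.Periodic (fun x => F x * G (M * x)) (2 * π) := by
        intro x
        simp only
        rw [pF x]
        congr 1
        have : (M:ℝ) * (x + 2 * π) = M * x + M * (2 * π) := by ring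
        rw [this]
        exact (pG.nat_mul M) _
      have := hper.intervalIntegral_add_eq (s / M) 0
      rw [zero_add] at this
      rw [zero_add, add_comm (2 * π)]
      exact this
    have h2 : (∫ s in (0:ℝ)..(2 * π), ∫ θ in (0:ℝ)..(2 * π), F θ * G (M * θ + s)) =
        (∫ θ in (0:ℝ)..(2 * π), F θ) * (∫ θ in (0:ℝ)..(2 * π), G θ) := by
      rw [MeasureTheory.intervalIntegral_intervalIntegral_swap]
      · have : ∀ θ : ℝ, (∫ s in (0:ℝ)..(2 * π), F θ * G (M * θ + s)) =
            F θ * ∫ s in (0:ℝ)..(2 * π), G s := by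
          intro θ
          rw [intervalIntegral.integral_const_mul]
          congr 1
          have e1 : (∫ s in (0:ℝ)..(2 * π), G (M * θ + s)) =
              ∫ s in (0:ℝ)..(2 * π), G (s + M * θ) := by
            congr 1; ext s; rw [add_comm]
          rw [e1, intervalIntegral.integral_comp_add_right]
          have := pG.intervalIntegral_add_eq (M * θ) 0
          rw [zero_add] at this
          rw [zero_add, add_comm (2 * π)]
          exact this
        simp_rw [this]
        rw [intervalIntegral.integral_mul_const]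
      · have hc : Continuous (Function.uncurry fun (s θ : ℝ) => F θ * G (M * θ + s)) := by
          unfold Function.uncurry
          fun_prop
        have h5 : IntegrableOn (Function.uncurry fun (s θ : ℝ) => F θ * G (M * θ + s))
            (Set.uIcc 0 (2 * π) ×ˢ Set.uIcc 0 (2 * π)) :=
          hc.continuousOn.integrableOn_compact (isCompact_uIcc.prod isCompact_uIcc)
        exact h5.mono_set (Set.prod_mono Set.uIoc_subset_uIcc Set.uIoc_subset_uIcc)
    have h3 : (2 * π) * (∫ θ in (0:ℝ)..(2 * π), F θ * G (M * θ)) =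
        ∫ s in (0:ℝ)..(2 * π), ∫ θ in (0:ℝ)..(2 * π), F (θ + s / M) * G (M * θ + s) := by
      simp_rw [h1]
      rw [intervalIntegral.integral_const]
      simp
    rw [h3, ← h2, ← intervalIntegral.integral_sub]
    · congr 1
      ext s
      rw [← intervalIntegral.integral_sub]
      · congr 1
        ext θ
        ring
      · apply Continuous.intervalIntegrable
        fun_prop
      · apply Continuous.intervalIntegrable
        fun_prop
    · simp_rw [h1]
      exact intervalIntegrable_const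
    · apply Continuous.intervalIntegrable
      apply intervalIntegral.continuous_parametric_intervalIntegral_of_continuous _ continuous_const
      unfold Function.uncurry
      fun_prop
  rw [Metric.tendsto_atTop]
  intro ε hε
  obtain ⟨δ, hδ, hUC⟩ := hUC (ε / (2 * π * (B + 1))) (by positivity)
  obtain ⟨N, hN⟩ := exists_nat_gt (2 * π / δ)
  refine ⟨N + 1, fun M hM => ?_⟩
  have hM1 : 1 ≤ M := by omega
  have hMpos : (0:ℝ) < M := by exact_mod_cast hM1
  have hMδ : 2 * π / M < δ := by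
    rw [div_lt_iff₀ hMpos]
    have : 2 * π / δ < M := lt_of_lt_of_le hN (by exact_mod_cast (by omega : N ≤ M))
    rw [div_lt_iff₀ hδ] at this
    linarith [mul_comm (M:ℝ) δ]
  have hM2 : 2 * π / M ≤ 2 * π := by
    apply div_le_self hpi.le
    exact_mod_cast hM1
  have hk := key M hM1
  have hbound : ‖∫ s in (0:ℝ)..(2 * π), ∫ θ in (0:ℝ)..(2 * π), (F (θ + s / M) - F θ) * G (M * θ + s)‖
      ≤ (ε / (2 * π * (B + 1)) * B * |2 * π - 0|) * |2 * π - 0| := by
    apply intervalIntegral.norm_integral_le_of_norm_le_const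
    intro s hs
    rw [Set.uIoc_of_le hpi.le] at hs
    apply intervalIntegral.norm_integral_le_of_norm_le_const
    intro θ hθ
    rw [Set.uIoc_of_le hpi.le] at hθ
    rw [norm_mul]
    have hs1 : s / M ≤ 2 * π / M := by
      apply div_le_div_of_nonneg_right hs.2 hMpos.le
    have hs0 : 0 < s / M := div_pos hs.1 hMpos
    apply mul_le_mul _ (hB _) (abs_nonneg _) (by positivity)
    have := hUC (θ + s / M) ⟨by linarith [hθ.1], by linarith [hθ.2]⟩ θ ⟨hθ.1.le, by linarith [hθ.2]⟩ (by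
      rw [Real.dist_eq]
      have : θ + s / M - θ = s / M := by ring
      rw [this, abs_of_pos hs0]
      linarith)
    rw [Real.dist_eq] at this
    exact this.le
  rw [← hk] at hbound
  rw [Real.dist_eq]
  have e1 : (∫ θ in (0:ℝ)..(2 * π), F θ * G (M * θ)) -
      (∫ θ in (0:ℝ)..(2 * π), F θ) * (∫ θ in (0:ℝ)..(2 * π), G θ) / (2 * π) =
      ((2 * π) * (∫ θ in (0:ℝ)..(2 * π), F θ * G (M * θ)) -
        (∫ θ in (0:ℝ)..(2 * π), F θ) * (∫ θ in (0:ℝ)..(2 * π), G θ)) / (2 * π) := by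
    field_simp
  rw [e1, abs_div, abs_of_pos hpi, div_lt_iff₀ hpi]
  refine lt_of_le_of_lt hbound ?_
  rw [sub_zero, abs_of_pos hpi]
  have : ε / (2 * π * (B + 1)) * B * (2 * π) * (2 * π) = ε * (2 * π) * (B / (B + 1)) := by
    field_simp
  rw [this]
  have h4 : B / (B + 1) < 1 := by
    rw [div_lt_one (by positivity)]
    linarith
  have h5 : 0 < ε * (2 * π) := by positivity
  calc ε * (2 * π) * (B / (B + 1)) < ε * (2 * π) * 1 := by
        apply mul_lt_mul_of_pos_left h4 h5
    _ = ε * (2 * π) := by ring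

/-- modulus of 1+z+b z^2 at z = exp(it) -/
noncomputable def seed (b t : ℝ) : ℝ :=
  ‖(1 : ℂ) + Complex.exp (t * Complex.I) + (b : ℂ) * Complex.exp (t * Complex.I) ^ 2‖

theorem seed_cont : Continuous (Function.uncurry seed) := by
  unfold seed Function.uncurry
  fun_prop

theorem seed_nonneg (b t : ℝ) : 0 ≤ seed b t := norm_nonneg _

theorem exp_periodic_aux (t : ℝ) :
    Complex.exp (((t + 2 * π : ℝ) : ℂ) * Complex.I) = Complex.exp (t * Complex.I) := by
  have : (((t + 2 * π : ℝ) : ℂ) * Complex.I) = t * Complex.I + 2 * π * Complex.I := by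
    push_cast; ring
  rw [this]
  exact Complex.exp_periodic _

theorem seed_periodic (b : ℝ) : Function.Periodic (seed b) (2 * π) := by
  intro t
  unfold seed
  rw [exp_periodic_aux]

theorem exp_eq_mk (t : ℝ) : Complex.exp (t * Complex.I) = ⟨cos t, sin t⟩ := by
  apply Complex.ext
  · rw [Complex.exp_ofReal_mul_I_re]
  · rw [Complex.exp_ofReal_mul_I_im]

theorem seed_sq (b t : ℝ) : seed b t ^ 2 =
    (1 + cos t + b * (cos t ^ 2 - sin t ^ 2)) ^ 2 + (sin t + b * (2 * cos t * sin t)) ^ 2 := by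
  unfold seed
  rw [← Complex.normSq_eq_norm_sq, exp_eq_mk, Complex.normSq_apply, pow_two (Complex.mk _ _)]
  simp only [Complex.add_re, Complex.one_re, Complex.mul_re, Complex.ofReal_re, Complex.ofReal_im,
    Complex.add_im, Complex.one_im, Complex.mul_im]
  ring

theorem seed_one (t : ℝ) : seed 1 t ^ 2 = (1 + 2 * cos t) ^ 2 := by
  rw [seed_sq]
  have h := sin_sq_add_cos_sq t
  have h2 : sin t ^ 2 = 1 - cos t ^ 2 := by linarith
  have h3 : (sin t + 1 * (2 * cos t * sin t)) ^ 2 = sin t ^ 2 * (1 + 2 * cos t) ^ 2 := by ring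
  rw [h3, h2]
  ring

theorem seed_neg_one (t : ℝ) : seed (-1) t ^ 2 = 1 + 4 * sin t ^ 2 := by
  rw [seed_sq]
  have h := sin_sq_add_cos_sq t
  have h2 : cos t ^ 2 = 1 - sin t ^ 2 := by linarith
  have h3 : (sin t + -1 * (2 * cos t * sin t)) ^ 2 =
    sin t ^ 2 * (1 - 4 * cos t + 4 * cos t ^ 2) := by ring
  have h4 : (1 + cos t + -1 * (cos t ^ 2 - sin t ^ 2)) ^ 2 =
    (1 - cos t ^ 2 + sin t ^ 2) ^ 2 + 2 * cos t * (1 - cos t ^ 2 + sin t ^ 2) + cos t ^ 2 := by ring
  rw [h3, h4, h2]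
  ring

theorem seed_rpow (b t p : ℝ) : seed b t ^ p = (seed b t ^ 2) ^ (p / 2) := by
  rw [← Real.rpow_natCast, ← Real.rpow_mul (seed_nonneg b t)]
  congr 1
  push_cast
  ring

/-- strict inequality at b = 1 -/
theorem seed_strict {p : ℝ} (hp : 0 < p) (hp2 : p < 2) :
    (∫ t in (0:ℝ)..(2 * π), seed 1 t ^ p) < ∫ t in (0:ℝ)..(2 * π), seed (-1) t ^ p := by
  have hpi : (0:ℝ) < 2 * π := by positivity
  have hq0 : 0 < p / 2 := by linarith
  have hq1 : p / 2 < 1 := by linarith
  simp_rw [seed_rpow _ _ p, seed_one, seed_neg_one]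
  -- shift sin to cos
  have e1 : (∫ t in (0:ℝ)..(2 * π), (1 + 4 * sin t ^ 2) ^ (p / 2)) =
      ∫ t in (0:ℝ)..(2 * π), (1 + 4 * cos t ^ 2) ^ (p / 2) := by
    have h1 : (∫ t in (0:ℝ)..(2 * π), (1 + 4 * cos t ^ 2) ^ (p / 2)) =
        ∫ t in (0:ℝ)..(2 * π), (fun x => (1 + 4 * sin x ^ 2) ^ (p / 2)) (t + π / 2) := by
      congr 1; ext t; simp only [sin_add_pi_div_two]
    rw [h1, intervalIntegral.integral_comp_add_right (fun x => (1 + 4 * sin x ^ 2) ^ (p / 2))]
    have hper : Function.Periodic (fun x => (1 + 4 * sin x ^ 2) ^ (p / 2)) (2 * π) := by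
      intro x; simp only [sin_add_two_pi]
    have := hper.intervalIntegral_add_eq (π / 2) 0
    rw [zero_add] at this
    rw [zero_add, add_comm (2 * π)]
    exact this.symm
  have e2 : (∫ t in (0:ℝ)..(2 * π), ((1 + 2 * cos t) ^ 2) ^ (p / 2)) =
      ∫ t in (0:ℝ)..(2 * π), ((1 - 2 * cos t) ^ 2) ^ (p / 2) := by
    have h1 : (∫ t in (0:ℝ)..(2 * π), ((1 - 2 * cos t) ^ 2) ^ (p / 2)) =
        ∫ t in (0:ℝ)..(2 * π), (fun x => ((1 + 2 * cos x) ^ 2) ^ (p / 2)) (t + π) := by
      congr 1; ext t; simp only [cos_add_pi]; ring_nf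
    rw [h1, intervalIntegral.integral_comp_add_right (fun x => ((1 + 2 * cos x) ^ 2) ^ (p / 2))]
    have hper : Function.Periodic (fun x => ((1 + 2 * cos x) ^ 2) ^ (p / 2)) (2 * π) := by
      intro x; simp only [cos_add_two_pi]
    have := hper.intervalIntegral_add_eq π 0
    rw [zero_add] at this
    rw [zero_add, add_comm (2 * π)]
    exact this.symm
  have c1 : Continuous fun t => ((1 + 2 * cos t) ^ 2) ^ (p / 2) :=
    Continuous.rpow_const (by fun_prop) (fun _ => Or.inr hq0.le)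
  have c2 : Continuous fun t => ((1 - 2 * cos t) ^ 2) ^ (p / 2) :=
    Continuous.rpow_const (by fun_prop) (fun _ => Or.inr hq0.le)
  have c3 : Continuous fun t => (1 + 4 * cos t ^ 2) ^ (p / 2) :=
    Continuous.rpow_const (by fun_prop) (fun _ => Or.inr hq0.le)
  have hlt : (∫ t in (0:ℝ)..(2 * π), (((1 + 2 * cos t) ^ 2) ^ (p / 2) +
      ((1 - 2 * cos t) ^ 2) ^ (p / 2))) <
      ∫ t in (0:ℝ)..(2 * π), 2 * (1 + 4 * cos t ^ 2) ^ (p / 2) := by
    apply intervalIntegral.integral_lt_integral_of_continuousOn_of_le_of_exists_lt hpi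
      (c1.add c2).continuousOn (continuous_const.mul c3).continuousOn
    · intro t _
      have hcc := (Real.strictConcaveOn_rpow hq0 hq1).concaveOn.2
      have m1 : (1 + 2 * cos t) ^ 2 ∈ Set.Ici (0:ℝ) := Set.mem_Ici.2 (by positivity)
      have m2 : (1 - 2 * cos t) ^ 2 ∈ Set.Ici (0:ℝ) := Set.mem_Ici.2 (by positivity)
      have hh1 : (0:ℝ) ≤ 1 / 2 := by norm_num
      have hh2 : (1:ℝ) / 2 + 1 / 2 = 1 := by norm_num
      have := hcc m1 m2 hh1 hh1 hh2
      simp only [smul_eq_mul] at this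
      have e : (1 / 2 * (1 + 2 * cos t) ^ 2 + 1 / 2 * (1 - 2 * cos t) ^ 2) = 1 + 4 * cos t ^ 2 := by
        ring
      rw [e] at this
      simp only [Pi.add_apply, Pi.mul_apply]
      linarith
    · refine ⟨0, ⟨le_refl _, hpi.le⟩, ?_⟩
      have hcc := (Real.strictConcaveOn_rpow hq0 hq1).2
      have m1 : (1 + 2 * cos 0) ^ 2 ∈ Set.Ici (0:ℝ) := Set.mem_Ici.2 (by positivity)
      have m2 : (1 - 2 * cos 0) ^ 2 ∈ Set.Ici (0:ℝ) := Set.mem_Ici.2 (by positivity)
      have hne : (1 + 2 * cos 0) ^ 2 ≠ (1 - 2 * cos 0) ^ 2 := by rw [cos_zero]; norm_num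
      have hh1 : (0:ℝ) < 1 / 2 := by norm_num
      have hh2 : (1:ℝ) / 2 + 1 / 2 = 1 := by norm_num
      have := hcc m1 m2 hne hh1 hh1 hh2
      simp only [smul_eq_mul] at this
      have e : (1 / 2 * (1 + 2 * cos 0) ^ 2 + 1 / 2 * (1 - 2 * cos 0) ^ 2) = 1 + 4 * cos 0 ^ 2 := by
        ring
      rw [e] at this
      simp only [Pi.add_apply, Pi.mul_apply]
      linarith
  rw [intervalIntegral.integral_add (c1.intervalIntegrable _ _) (c2.intervalIntegrable _ _),
    ← e2, intervalIntegral.integral_const_mul] at hlt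
  rw [e1]
  linarith

theorem seed_exists {p : ℝ} (hp : 0 < p) (hp2 : p < 2) :
    ∃ b : ℝ, 0 < b ∧ b < 1 ∧
      (∫ t in (0:ℝ)..(2 * π), seed b t ^ p) < ∫ t in (0:ℝ)..(2 * π), seed (-b) t ^ p := by
  have hc : Continuous fun b : ℝ => ∫ t in (0:ℝ)..(2 * π), seed b t ^ p := by
    apply intervalIntegral.continuous_parametric_intervalIntegral_of_continuous _ continuous_const
    have : (Function.uncurry fun (b t : ℝ) => seed b t ^ p) =
      fun x : ℝ × ℝ => (Function.uncurry seed x) ^ p := by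
      ext x; rfl
    rw [this]
    exact Continuous.rpow_const seed_cont (fun _ => Or.inr hp.le)
  have hc' : Continuous fun b : ℝ => ∫ t in (0:ℝ)..(2 * π), seed (-b) t ^ p :=
    hc.comp continuous_neg
  have hopen : IsOpen {b : ℝ | (∫ t in (0:ℝ)..(2 * π), seed b t ^ p) <
      ∫ t in (0:ℝ)..(2 * π), seed (-b) t ^ p} := isOpen_lt hc hc'
  have hmem : (1:ℝ) ∈ {b : ℝ | (∫ t in (0:ℝ)..(2 * π), seed b t ^ p) <
      ∫ t in (0:ℝ)..(2 * π), seed (-b) t ^ p} := seed_strict hp hp2
  obtain ⟨δ, hδ, hball⟩ := Metric.isOpen_iff.1 hopen 1 hmem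
  refine ⟨1 - min (δ / 2) (1 / 2), ?_, ?_, ?_⟩
  · have : min (δ / 2) (1 / 2) ≤ 1 / 2 := min_le_right _ _
    linarith
  · have : 0 < min (δ / 2) (1 / 2) := lt_min (by linarith) (by norm_num)
    linarith
  · have h1 : 0 < min (δ / 2) (1 / 2) := lt_min (by linarith) (by norm_num)
    have h2 : min (δ / 2) (1 / 2) ≤ δ / 2 := min_le_left _ _
    apply hball
    rw [Metric.mem_ball, Real.dist_eq]
    rw [abs_lt]
    constructor <;> linarith

/-! ### The tensor power construction -/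

/-- The integral of `|P|^p` over the unit circle, for a real polynomial `P`. -/
noncomputable def J (p : ℝ) (P : Polynomial ℝ) : ℝ :=
  ∫ θ in (0:ℝ)..(2 * π), ‖Polynomial.aeval (Complex.exp (θ * Complex.I)) P‖ ^ p

theorem ev_cont (P : Polynomial ℝ) :
    Continuous fun θ : ℝ => ‖Polynomial.aeval (Complex.exp (θ * Complex.I)) P‖ := by
  have h : Continuous fun z : ℂ => Polynomial.aeval z P := Polynomial.continuous_aeval P
  have h2 : Continuous fun θ : ℝ => Complex.exp (θ * Complex.I) := by fun_prop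
  exact (h.comp h2).norm

theorem ev_periodic (P : Polynomial ℝ) :
    Function.Periodic (fun θ : ℝ => ‖Polynomial.aeval (Complex.exp (θ * Complex.I)) P‖) (2 * π) := by
  intro t
  simp only
  rw [exp_periodic_aux]

theorem ev_mul (P : Polynomial ℝ) (b : ℝ) (M : ℕ) (θ : ℝ) :
    ‖Polynomial.aeval (Complex.exp (θ * Complex.I))
      (P * (1 + Polynomial.X ^ M + Polynomial.C b * Polynomial.X ^ (2 * M)))‖ =
    ‖Polynomial.aeval (Complex.exp (θ * Complex.I)) P‖ * seed b (M * θ) := by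
  rw [map_mul, norm_mul]
  congr 1
  unfold seed
  congr 1
  simp only [map_add, map_mul, map_one, map_pow, Polynomial.aeval_X, Polynomial.aeval_C]
  have e : Complex.exp (((M * θ : ℝ) : ℂ) * Complex.I) = Complex.exp (θ * Complex.I) ^ M := by
    rw [← Complex.exp_nat_mul]
    congr 1
    push_cast
    ring
  rw [e, ← pow_mul, mul_comm M 2]
  rfl

theorem J_mul_tendsto {p : ℝ} (hp : 0 < p) (P : Polynomial ℝ) (b : ℝ) :
    Tendsto (fun M : ℕ => J p (P * (1 + Polynomial.X ^ M + Polynomial.C b * Polynomial.X ^ (2 * M))))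
      atTop (𝓝 (J p P * (∫ t in (0:ℝ)..(2 * π), seed b t ^ p) / (2 * π))) := by
  have hF : Continuous fun θ : ℝ => ‖Polynomial.aeval (Complex.exp (θ * Complex.I)) P‖ ^ p :=
    (ev_cont P).rpow_const (fun _ => Or.inr hp.le)
  have hG : Continuous fun t : ℝ => seed b t ^ p := by
    have : Continuous fun t : ℝ => seed b t := by
      unfold seed
      fun_prop
    exact this.rpow_const (fun _ => Or.inr hp.le)
  have pF : Function.Periodic
      (fun θ : ℝ => ‖Polynomial.aeval (Complex.exp (θ * Complex.I)) P‖ ^ p) (2 * π) := by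
    intro t
    have := ev_periodic P t
    simp only at this ⊢
    rw [this]
  have pG : Function.Periodic (fun t : ℝ => seed b t ^ p) (2 * π) := by
    intro t
    simp only
    rw [seed_periodic b t]
  have := fejer hF hG pF pG
  refine this.congr (fun M => ?_)
  unfold J
  congr 1
  ext θ
  rw [ev_mul, Real.mul_rpow (norm_nonneg _) (seed_nonneg _ _)]

/-- All coefficients of `P` are `0` or `± b^k` with `k ≤ E`, and `Q` is obtained from `P` by
multiplying a coefficient of modulus `b^k` by `(-1)^k`. -/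
def Lev (b : ℝ) (E : ℕ) (P Q : Polynomial ℝ) : Prop :=
  ∀ j : ℕ, ∃ k : ℕ, k ≤ E ∧ ∃ s : ℝ, (s = 0 ∨ s = 1 ∨ s = -1) ∧
    P.coeff j = s * b ^ k ∧ Q.coeff j = s * ((-1) ^ k * b ^ k)

theorem coeff_new (P : Polynomial ℝ) (b : ℝ) (M n : ℕ) :
    (P * (1 + Polynomial.X ^ M + Polynomial.C b * Polynomial.X ^ (2 * M))).coeff n =
      P.coeff n + (if M ≤ n then P.coeff (n - M) else 0) +
        b * (if 2 * M ≤ n then P.coeff (n - 2 * M) else 0) := by
  have e : P * (1 + Polynomial.X ^ M + Polynomial.C b * Polynomial.X ^ (2 * M)) =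
    P + P * Polynomial.X ^ M + Polynomial.C b * (P * Polynomial.X ^ (2 * M)) := by ring
  rw [e, Polynomial.coeff_add, Polynomial.coeff_add, Polynomial.coeff_C_mul,
    Polynomial.coeff_mul_X_pow', Polynomial.coeff_mul_X_pow']

theorem lev_new {b : ℝ} {E : ℕ} {P Q : Polynomial ℝ} (h : Lev b E P Q) {M : ℕ}
    (hP : P.natDegree < M) (hQ : Q.natDegree < M) :
    Lev b (E + 1) (P * (1 + Polynomial.X ^ M + Polynomial.C b * Polynomial.X ^ (2 * M)))
      (Q * (1 + Polynomial.X ^ M + Polynomial.C (-b) * Polynomial.X ^ (2 * M))) := by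
  intro n
  rw [coeff_new, coeff_new]
  by_cases h1 : n < M
  · obtain ⟨k, hk, s, hs, e1, e2⟩ := h n
    refine ⟨k, by omega, s, hs, ?_, ?_⟩
    · rw [if_neg (by omega), if_neg (by omega), e1]; ring
    · rw [if_neg (by omega), if_neg (by omega), e2]; ring
  · have z1 : P.coeff n = 0 := Polynomial.coeff_eq_zero_of_natDegree_lt (by omega)
    have z2 : Q.coeff n = 0 := Polynomial.coeff_eq_zero_of_natDegree_lt (by omega)
    by_cases h2 : n < 2 * M
    · obtain ⟨k, hk, s, hs, e1, e2⟩ := h (n - M)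
      refine ⟨k, by omega, s, hs, ?_, ?_⟩
      · rw [if_pos (by omega), if_neg (by omega), e1, z1]; ring
      · rw [if_pos (by omega), if_neg (by omega), e2, z2]; ring
    · have z3 : P.coeff (n - M) = 0 := Polynomial.coeff_eq_zero_of_natDegree_lt (by omega)
      have z4 : Q.coeff (n - M) = 0 := Polynomial.coeff_eq_zero_of_natDegree_lt (by omega)
      obtain ⟨k, hk, s, hs, e1, e2⟩ := h (n - 2 * M)
      refine ⟨k + 1, by omega, s, hs, ?_, ?_⟩
      · rw [if_pos (by omega), if_pos (by omega), e1, z1, z3]; ring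
      · rw [if_pos (by omega), if_pos (by omega), e2, z2, z4]; ring

/-- The exponential gap: for each `d` a pair of polynomials with few levels and large gap. -/
theorem exists_gap {p : ℝ} (hp : 0 < p) (hp2 : p < 2) :
    ∃ b κ : ℝ, 0 < b ∧ b < 1 ∧ 1 < κ ∧ ∀ d : ℕ, ∃ P Q : Polynomial ℝ,
      Lev b d P Q ∧ 0 < J p P ∧ κ ^ d * J p P ≤ J p Q := by
  obtain ⟨b, hb0, hb1, hlt⟩ := seed_exists hp hp2
  set A := ∫ t in (0:ℝ)..(2 * π), seed b t ^ p with hA
  set A' := ∫ t in (0:ℝ)..(2 * π), seed (-b) t ^ p with hA'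
  have hpi : (0:ℝ) < 2 * π := by positivity
  have hcont : Continuous fun t : ℝ => seed b t ^ p := by
    have : Continuous fun t : ℝ => seed b t := by
      unfold seed
      fun_prop
    exact this.rpow_const (fun _ => Or.inr hp.le)
  have hApos : 0 < A := by
    have := intervalIntegral.integral_lt_integral_of_continuousOn_of_le_of_exists_lt hpi
      (f := fun _ => (0:ℝ)) (g := fun t => seed b t ^ p) continuousOn_const hcont.continuousOn
      (fun t _ => Real.rpow_nonneg (seed_nonneg _ _) _)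
      ⟨0, ⟨le_refl _, hpi.le⟩, by
        apply Real.rpow_pos_of_pos
        unfold seed
        have : (1 : ℂ) + Complex.exp (((0:ℝ):ℂ) * Complex.I) +
            (b : ℂ) * Complex.exp (((0:ℝ):ℂ) * Complex.I) ^ 2 = ((2 + b : ℝ) : ℂ) := by
          push_cast
          rw [zero_mul, Complex.exp_zero]
          ring
        rw [this, Complex.norm_real, Real.norm_eq_abs, abs_pos]
        linarith⟩
    simpa using this
  -- choose κ
  obtain ⟨κ, hκ1, hκ2⟩ : ∃ κ : ℝ, 1 < κ ∧ κ * A < A' := by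
    refine ⟨(1 + A' / A) / 2, ?_, ?_⟩
    · have : 1 < A' / A := by rw [lt_div_iff₀ hApos]; linarith
      linarith
    · have : (1 + A' / A) / 2 * A = (A + A') / 2 := by field_simp
      rw [this]; linarith
  refine ⟨b, κ, hb0, hb1, hκ1, ?_⟩
  intro d
  induction d with
  | zero =>
    refine ⟨1, 1, ?_, ?_, ?_⟩
    · intro j
      refine ⟨0, le_refl _, if j = 0 then 1 else 0, ?_, ?_, ?_⟩
      · split_ifs <;> simp
      · rw [Polynomial.coeff_one]; simp
      · rw [Polynomial.coeff_one]; simp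
    · unfold J
      simp [hpi]
    · simp
  | succ d ih =>
    obtain ⟨P, Q, hL, hJ, hR⟩ := ih
    have t1 := J_mul_tendsto hp P b
    have t2 := J_mul_tendsto hp Q (-b)
    rw [← hA] at t1
    rw [← hA'] at t2
    have hpos : 0 < J p P * A / (2 * π) := by positivity
    have ev1 := t1.eventually (lt_mem_nhds hpos)
    have t3 := t2.sub (t1.const_mul (κ ^ (d + 1)))
    have hpos2 : 0 < J p Q * A' / (2 * π) - κ ^ (d + 1) * (J p P * A / (2 * π)) := by
      have hκpos : 0 < κ := by linarith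
      have h1 : κ ^ (d + 1) * (J p P * A / (2 * π)) = (κ ^ d * J p P) * (κ * A) / (2 * π) := by
        ring
      rw [h1, sub_pos]
      apply div_lt_div_of_pos_right _ hpi
      have h2 : 0 < κ ^ d * J p P := by positivity
      calc κ ^ d * J p P * (κ * A) < κ ^ d * J p P * A' := by
            exact mul_lt_mul_of_pos_left hκ2 h2
        _ ≤ J p Q * A' := by
            apply mul_le_mul_of_nonneg_right hR
            linarith
    have ev2 := t3.eventually (lt_mem_nhds hpos2)
    have ev3 := eventually_gt_atTop (max P.natDegree Q.natDegree)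
    obtain ⟨M, h1, h2, h3⟩ := (ev1.and (ev2.and ev3)).exists
    refine ⟨_, _, lev_new hL (M := M) ?_ ?_, h1, ?_⟩
    · exact lt_of_le_of_lt (le_max_left _ _) h3
    · exact lt_of_le_of_lt (le_max_right _ _) h3
    · linarith

/-! ### Extraction of the levels by truncation -/

/-- The integral of `|Q|^p` over the unit circle, for a complex polynomial `Q`. -/
noncomputable def Jc (p : ℝ) (Q : Polynomial ℂ) : ℝ :=
  ∫ θ in (0:ℝ)..(2 * π), ‖Q.eval (Complex.exp (θ * Complex.I))‖ ^ p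

theorem evc_cont (Q : Polynomial ℂ) :
    Continuous fun θ : ℝ => ‖Q.eval (Complex.exp (θ * Complex.I))‖ := by
  have h : Continuous fun z : ℂ => Q.eval z := Q.continuous
  have h2 : Continuous fun θ : ℝ => Complex.exp (θ * Complex.I) := by fun_prop
  exact (h.comp h2).norm

theorem evc_pow_cont {p : ℝ} (hp : 0 < p) (Q : Polynomial ℂ) :
    Continuous fun θ : ℝ => ‖Q.eval (Complex.exp (θ * Complex.I))‖ ^ p :=
  (evc_cont Q).rpow_const (fun _ => Or.inr hp.le)

theorem Jc_nonneg {p : ℝ} (Q : Polynomial ℂ) : 0 ≤ Jc p Q := by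
  unfold Jc
  apply intervalIntegral.integral_nonneg (by positivity)
  intro θ _
  positivity

theorem Jc_map (p : ℝ) (P : Polynomial ℝ) : Jc p (P.map (algebraMap ℝ ℂ)) = J p P := by
  unfold Jc J
  simp_rw [Polynomial.eval_map_algebraMap]

theorem Jc_C_mul (p : ℝ) (c : ℂ) (Q : Polynomial ℂ) :
    Jc p (Polynomial.C c * Q) = ‖c‖ ^ p * Jc p Q := by
  unfold Jc
  rw [← intervalIntegral.integral_const_mul]
  congr 1
  ext θ
  rw [Polynomial.eval_mul, Polynomial.eval_C, norm_mul,
    Real.mul_rpow (norm_nonneg _) (norm_nonneg _)]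

theorem clip_level {b : ℝ} (hb0 : 0 < b) (hb1 : b < 1) (k e : ℕ) {s : ℝ}
    (hs : s = 0 ∨ s = 1 ∨ s = -1) :
    ((b ^ e : ℝ) : ℂ) * clip ((((b ^ e)⁻¹ * (s * b ^ k) : ℝ)) : ℂ) =
      ((s * min (b ^ k) (b ^ e) : ℝ) : ℂ) := by
  have hbe : 0 < b ^ e := by positivity
  have hbk : 0 < b ^ k := by positivity
  unfold clip
  have hnorm : ‖((((b ^ e)⁻¹ * (s * b ^ k) : ℝ)) : ℂ)‖ = |s| * (b ^ k / b ^ e) := by
    rw [Complex.norm_real, Real.norm_eq_abs, abs_mul, abs_mul, abs_of_pos hbk,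
      abs_of_pos (inv_pos.2 hbe)]
    field_simp
  rcases hs with rfl | hs
  · simp
  have habs : |s| = 1 := by rcases hs with rfl | rfl <;> simp
  rw [hnorm, habs, one_mul]
  split_ifs with h
  · rw [div_lt_one hbe] at h
    rw [min_eq_left h.le]
    push_cast
    have h1 : (b : ℂ) ≠ 0 := by exact_mod_cast hb0.ne'
    field_simp
  · rw [not_lt, one_le_div hbe] at h
    rw [min_eq_right h]
    push_cast
    have h1 : (b : ℂ) ≠ 0 := by exact_mod_cast hb0.ne'
    field_simp

theorem level_identity {b : ℝ} (hb0 : 0 < b) (hb1 : b < 1) (k E : ℕ) (hk : k ≤ E) (s : ℝ) :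
    (1 + b) / (1 - b) * (∑ e ∈ Finset.range (E + 1),
      (-1) ^ e * (s * min (b ^ k) (b ^ e) - s * min (b ^ k) (b ^ (e + 1)))) +
      (-1) ^ (E + 1) * (s * min (b ^ k) (b ^ (E + 1))) = s * ((-1) ^ k * b ^ k) := by
  have h1b : 1 - b ≠ 0 := by linarith
  have hmin1 : ∀ e, e ≤ k → min (b ^ k) (b ^ e) = b ^ k := fun e he =>
    min_eq_left (pow_le_pow_of_le_one hb0.le hb1.le he)
  have hmin2 : ∀ e, k ≤ e → min (b ^ k) (b ^ e) = b ^ e := fun e he =>
    min_eq_right (pow_le_pow_of_le_one hb0.le hb1.le he)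
  induction E, hk using Nat.le_induction with
  | base =>
    rw [Finset.sum_range_succ]
    have : ∑ e ∈ Finset.range k,
        (-1 : ℝ) ^ e * (s * min (b ^ k) (b ^ e) - s * min (b ^ k) (b ^ (e + 1))) = 0 := by
      apply Finset.sum_eq_zero
      intro e he
      rw [Finset.mem_range] at he
      rw [hmin1 e he.le, hmin1 (e + 1) he]
      ring
    rw [this, hmin1 k le_rfl, hmin2 (k + 1) (Nat.le_succ k)]
    field_simp
    ring
  | succ E hkE ih =>
    rw [Finset.sum_range_succ, ← ih]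
    rw [hmin2 (E + 1) (by omega), hmin2 (E + 1 + 1) (by omega)]
    field_simp
    ring

theorem sum_rpow_le {p : ℝ} (hp : 0 < p) (m : ℕ) (hm : 0 < m) (a : ℕ → ℝ) (ha : ∀ i, 0 ≤ a i) :
    (∑ i ∈ Finset.range m, a i) ^ p ≤ (m : ℝ) ^ p * ∑ i ∈ Finset.range m, a i ^ p := by
  obtain ⟨i0, hi0, hmax⟩ := Finset.exists_max_image (Finset.range m) a ⟨0, Finset.mem_range.2 hm⟩
  have h1 : ∑ i ∈ Finset.range m, a i ≤ m * a i0 := by
    have := Finset.sum_le_card_nsmul (Finset.range m) a (a i0) hmax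
    simpa using this
  have h2 : a i0 ^ p ≤ ∑ i ∈ Finset.range m, a i ^ p :=
    Finset.single_le_sum (f := fun i => a i ^ p) (fun i _ => Real.rpow_nonneg (ha i) _) hi0
  calc (∑ i ∈ Finset.range m, a i) ^ p ≤ (m * a i0) ^ p :=
        Real.rpow_le_rpow (Finset.sum_nonneg fun i _ => ha i) h1 hp.le
    _ = (m : ℝ) ^ p * a i0 ^ p := Real.mul_rpow (Nat.cast_nonneg _) (ha i0)
    _ ≤ _ := mul_le_mul_of_nonneg_left h2 (by positivity)

theorem trunc_coeff (n j : ℕ) (Q : Polynomial ℂ) :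
    (trunc n Q).coeff j = if j ≤ n then clip (Q.coeff j) else 0 := by
  unfold trunc
  rw [Polynomial.finsetSum_coeff]
  simp_rw [Polynomial.coeff_monomial]
  rw [Finset.sum_ite_eq' (Finset.range (n + 1)) j fun i => clip (Q.coeff i)]
  simp

/-- the polynomial extracted at level `e` -/
noncomputable def phi (b : ℝ) (n e : ℕ) (P : Polynomial ℝ) : Polynomial ℂ :=
  Polynomial.C ((b ^ e : ℝ) : ℂ) *
    trunc n ((Polynomial.C ((b ^ e)⁻¹) * P).map (algebraMap ℝ ℂ))

theorem phi_coeff {b : ℝ} (hb0 : 0 < b) (hb1 : b < 1) (n e j : ℕ) (P : Polynomial ℝ)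
    (hn : P.natDegree ≤ n) {k : ℕ} {s : ℝ} (hs : s = 0 ∨ s = 1 ∨ s = -1)
    (hc : P.coeff j = s * b ^ k) :
    (phi b n e P).coeff j = ((s * min (b ^ k) (b ^ e) : ℝ) : ℂ) := by
  unfold phi
  rw [Polynomial.coeff_C_mul, trunc_coeff]
  by_cases hj : j ≤ n
  · rw [if_pos hj, Polynomial.coeff_map, Polynomial.coeff_C_mul, hc]
    exact clip_level hb0 hb1 k e hs
  · rw [if_neg hj, mul_zero]
    have h0 : P.coeff j = 0 := Polynomial.coeff_eq_zero_of_natDegree_lt (by omega)
    rw [h0] at hc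
    have : s = 0 := by
      rcases mul_eq_zero.1 hc.symm with h | h
      · exact h
      · exact absurd h (by positivity)
    rw [this]; simp

theorem extraction {b : ℝ} (hb0 : 0 < b) (hb1 : b < 1) (n E : ℕ) (P Q : Polynomial ℝ)
    (hn : P.natDegree ≤ n) (h : Lev b E P Q) :
    Q.map (algebraMap ℝ ℂ) = Polynomial.C (((1 + b) / (1 - b) : ℝ) : ℂ) *
      (∑ e ∈ Finset.range (E + 1), Polynomial.C ((-1 : ℂ) ^ e) * (phi b n e P - phi b n (e + 1) P)) +
      Polynomial.C ((-1 : ℂ) ^ (E + 1)) * phi b n (E + 1) P := by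
  ext j
  obtain ⟨k, hk, s, hs, e1, e2⟩ := h j
  rw [Polynomial.coeff_map, e2, ← level_identity hb0 hb1 k E hk s, Polynomial.coeff_add,
    Polynomial.coeff_C_mul, Polynomial.coeff_C_mul, Polynomial.finsetSum_coeff]
  simp_rw [Polynomial.coeff_C_mul, Polynomial.coeff_sub, phi_coeff hb0 hb1 n _ j P hn hs e1]
  push_cast
  simp

theorem J_le {p : ℝ} (hp : 0 < p) {b : ℝ} (hb0 : 0 < b) (hb1 : b < 1) (n E : ℕ)
    (P Q : Polynomial ℝ) (hn : P.natDegree ≤ n) (h : Lev b E P Q) (K : ℝ)
    (hK : ∀ e, Jc p (phi b n e P) ≤ K) :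
    J p Q ≤ (3 * ((1 + b) / (1 - b)) * (E + 2 : ℕ)) ^ p * ((E + 2 : ℕ) * K) := by
  set μ : ℝ := (1 + b) / (1 - b) with hμ
  have h1b : 0 < 1 - b := by linarith
  have hμ1 : 1 ≤ μ := by rw [hμ, one_le_div h1b]; linarith
  rw [← Jc_map]
  have hpt : ∀ θ : ℝ, ‖(Q.map (algebraMap ℝ ℂ)).eval (Complex.exp (θ * Complex.I))‖ ^ p ≤
      (3 * μ * (E + 2 : ℕ)) ^ p *
        ∑ e ∈ Finset.range (E + 2), ‖(phi b n e P).eval (Complex.exp (θ * Complex.I))‖ ^ p := by
    intro θ
    set z := Complex.exp (θ * Complex.I)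
    set a : ℕ → ℝ := fun e => ‖(phi b n e P).eval z‖ with ha
    have h0 : ∀ e, 0 ≤ a e := fun e => norm_nonneg _
    have hle : ‖(Q.map (algebraMap ℝ ℂ)).eval z‖ ≤ 3 * μ * ∑ e ∈ Finset.range (E + 2), a e := by
      rw [extraction hb0 hb1 n E P Q hn h]
      rw [Polynomial.eval_add, Polynomial.eval_mul, Polynomial.eval_mul, Polynomial.eval_C,
        Polynomial.eval_C, Polynomial.eval_finsetSum]
      have hA : ‖(μ : ℂ) * ∑ e ∈ Finset.range (E + 1),
          (Polynomial.C ((-1 : ℂ) ^ e) * (phi b n e P - phi b n (e + 1) P)).eval z‖ ≤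
          μ * (∑ e ∈ Finset.range (E + 1), (a e + a (e + 1))) := by
        rw [norm_mul, Complex.norm_real, Real.norm_eq_abs, abs_of_pos (by linarith)]
        apply mul_le_mul_of_nonneg_left _ (by linarith)
        refine (norm_sum_le _ _).trans (Finset.sum_le_sum fun e _ => ?_)
        rw [Polynomial.eval_mul, Polynomial.eval_C, norm_mul, norm_pow, norm_neg, norm_one,
          one_pow, one_mul, Polynomial.eval_sub]
        exact norm_sub_le _ _
      have hB : ‖(-1 : ℂ) ^ (E + 1) * (phi b n (E + 1) P).eval z‖ ≤ a (E + 1) := by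
        rw [norm_mul, norm_pow, norm_neg, norm_one, one_pow, one_mul]
      have hs1 : ∑ e ∈ Finset.range (E + 1), a e ≤ ∑ e ∈ Finset.range (E + 2), a e := by
        rw [Finset.sum_range_succ _ (E + 1)]
        linarith [h0 (E + 1)]
      have hs2 : ∑ e ∈ Finset.range (E + 1), a (e + 1) ≤ ∑ e ∈ Finset.range (E + 2), a e := by
        rw [Finset.sum_range_succ' _ (E + 1)]
        linarith [h0 0]
      have hs3 : a (E + 1) ≤ ∑ e ∈ Finset.range (E + 2), a e :=
        Finset.single_le_sum (f := a) (fun i _ => h0 i) (Finset.mem_range.2 (by omega))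
      have hT : 0 ≤ ∑ e ∈ Finset.range (E + 2), a e := Finset.sum_nonneg fun i _ => h0 i
      rw [Finset.sum_add_distrib] at hA
      calc _ ≤ _ := norm_add_le _ _
        _ ≤ μ * (∑ e ∈ Finset.range (E + 1), a e + ∑ e ∈ Finset.range (E + 1), a (e + 1)) +
            a (E + 1) := add_le_add hA hB
        _ ≤ μ * (∑ e ∈ Finset.range (E + 2), a e + ∑ e ∈ Finset.range (E + 2), a e) +
            μ * ∑ e ∈ Finset.range (E + 2), a e := by
            apply add_le_add
            · apply mul_le_mul_of_nonneg_left (add_le_add hs1 hs2) (by linarith)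
            · nlinarith
        _ = _ := by ring
    calc ‖(Q.map (algebraMap ℝ ℂ)).eval z‖ ^ p
        ≤ (3 * μ * ∑ e ∈ Finset.range (E + 2), a e) ^ p :=
          Real.rpow_le_rpow (norm_nonneg _) hle hp.le
      _ = (3 * μ) ^ p * (∑ e ∈ Finset.range (E + 2), a e) ^ p :=
          Real.mul_rpow (by linarith) (Finset.sum_nonneg fun i _ => h0 i)
      _ ≤ (3 * μ) ^ p * (((E + 2 : ℕ) : ℝ) ^ p * ∑ e ∈ Finset.range (E + 2), a e ^ p) := by
          apply mul_le_mul_of_nonneg_left (sum_rpow_le hp (E + 2) (by omega) a h0)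
          apply Real.rpow_nonneg; linarith
      _ = _ := by
          rw [Real.mul_rpow (by linarith) (Nat.cast_nonneg _), mul_assoc]
  have hint : Jc p (Q.map (algebraMap ℝ ℂ)) ≤
      ∫ θ in (0:ℝ)..(2 * π), (3 * μ * (E + 2 : ℕ)) ^ p *
        ∑ e ∈ Finset.range (E + 2), ‖(phi b n e P).eval (Complex.exp (θ * Complex.I))‖ ^ p := by
    unfold Jc
    apply intervalIntegral.integral_mono_on (by positivity)
    · exact (evc_pow_cont hp _).intervalIntegrable _ _
    · apply Continuous.intervalIntegrable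
      apply continuous_const.mul
      exact continuous_finsetSum _ fun e _ => evc_pow_cont hp _
    · intro θ _
      exact hpt θ
  refine hint.trans ?_
  rw [intervalIntegral.integral_const_mul, intervalIntegral.integral_finsetSum
    (fun e _ => (evc_pow_cont hp _).intervalIntegrable _ _)]
  apply mul_le_mul_of_nonneg_left _ (by positivity)
  have : ∑ e ∈ Finset.range (E + 2), Jc p (phi b n e P) ≤ (E + 2 : ℕ) * K := by
    have := Finset.sum_le_card_nsmul (Finset.range (E + 2)) (fun e => Jc p (phi b n e P)) K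
      (fun e _ => hK e)
    simpa using this
  exact this

theorem no_uniform_bound {p : ℝ} (hp : 0 < p) (hp2 : p < 2) (B : ℝ) (hB : 0 ≤ B)
    (hbd : ∀ n : ℕ, 1 ≤ n → ∀ P : Polynomial ℝ, P.natDegree ≤ n → 0 < J p P →
      Jc p (trunc n (P.map (algebraMap ℝ ℂ))) ≤ B * J p P) : False := by
  obtain ⟨b, κ, hb0, hb1, hκ, hgap⟩ := exists_gap hp hp2
  set μ : ℝ := (1 + b) / (1 - b) with hμ
  have h1b : 0 < 1 - b := by linarith
  have hμ1 : 1 ≤ μ := by rw [hμ, one_le_div h1b]; linarith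
  have main : ∀ d : ℕ, κ ^ d ≤ 9 * μ ^ 2 * B * ((d + 2 : ℕ) : ℝ) ^ 3 := by
    intro d
    obtain ⟨P, Q, hL, hJ, hR⟩ := hgap d
    have hphi : ∀ e, Jc p (phi b (P.natDegree + 1) e P) ≤ B * J p P := by
      intro e
      unfold phi
      have hbe : 0 < b ^ e := by positivity
      have hJe : J p (Polynomial.C ((b ^ e)⁻¹) * P) = ((b ^ e)⁻¹) ^ p * J p P := by
        rw [← Jc_map, ← Jc_map, Polynomial.map_mul, Polynomial.map_C, Jc_C_mul]
        congr 2
        change ‖(((b ^ e)⁻¹ : ℝ) : ℂ)‖ = (b ^ e)⁻¹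
        rw [Complex.norm_real, Real.norm_eq_abs, abs_of_pos (inv_pos.2 hbe)]
      have h1 := hbd (P.natDegree + 1) (by omega) (Polynomial.C ((b ^ e)⁻¹) * P)
        ((Polynomial.natDegree_C_mul_le _ _).trans (by omega)) (by
          rw [hJe]
          have := Real.rpow_pos_of_pos (inv_pos.2 hbe) p
          positivity)
      rw [Jc_C_mul, Complex.norm_real, Real.norm_eq_abs, abs_of_pos hbe]
      calc (b ^ e) ^ p * Jc p (trunc (P.natDegree + 1)
            ((Polynomial.C ((b ^ e)⁻¹) * P).map (algebraMap ℝ ℂ)))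
          ≤ (b ^ e) ^ p * (B * J p (Polynomial.C ((b ^ e)⁻¹) * P)) :=
            mul_le_mul_of_nonneg_left h1 (by positivity)
        _ = B * J p P := by
            rw [hJe, Real.inv_rpow hbe.le]
            have : (b ^ e : ℝ) ^ p ≠ 0 := (Real.rpow_pos_of_pos hbe p).ne'
            field_simp
    have h2 := J_le hp hb0 hb1 (P.natDegree + 1) d P Q (by omega) hL (B * J p P) hphi
    have h3 : κ ^ d * J p P ≤ (3 * μ * (d + 2 : ℕ)) ^ p * ((d + 2 : ℕ) * B) * J p P := by
      calc κ ^ d * J p P ≤ J p Q := hR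
        _ ≤ _ := h2
        _ = _ := by ring
    have h4 := le_of_mul_le_mul_right h3 hJ
    refine h4.trans ?_
    have hd2 : (1:ℝ) ≤ ((d + 2 : ℕ) : ℝ) := by exact_mod_cast (by omega : 1 ≤ d + 2)
    have h5 : (3 * μ * (d + 2 : ℕ)) ^ p ≤ (3 * μ * (d + 2 : ℕ)) ^ (2:ℝ) := by
      apply Real.rpow_le_rpow_of_exponent_le _ hp2.le
      nlinarith
    rw [Real.rpow_two] at h5
    calc (3 * μ * (d + 2 : ℕ)) ^ p * ((d + 2 : ℕ) * B)
        ≤ (3 * μ * (d + 2 : ℕ)) ^ 2 * ((d + 2 : ℕ) * B) :=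
          mul_le_mul_of_nonneg_right h5 (by positivity)
      _ = _ := by ring
  -- contradiction from growth
  have t0 := tendsto_pow_const_div_const_pow_of_one_lt 3 hκ
  have t1 := (tendsto_add_atTop_iff_nat 2).2 t0
  have t2 := t1.const_mul (9 * μ ^ 2 * B * κ ^ 2)
  rw [mul_zero] at t2
  have ev := t2.eventually (gt_mem_nhds (zero_lt_one))
  obtain ⟨d, hd⟩ := ev.exists
  have hκpos : 0 < κ := by linarith
  have h6 := main d
  have h7 : 9 * μ ^ 2 * B * κ ^ 2 * (((d + 2 : ℕ) : ℝ) ^ 3 / κ ^ (d + 2)) =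
      9 * μ ^ 2 * B * ((d + 2 : ℕ) : ℝ) ^ 3 / κ ^ d := by
    rw [pow_add]
    field_simp
  rw [h7, div_lt_one (by positivity)] at hd
  linarith

theorem sup_real {p : ℝ} (hp : 0 < p) (hp2 : p < 2) :
    ⨆ (n : ℕ) (_ : 1 ≤ n), NReal n p = ⊤ := by
  by_contra hne
  set T := ⨆ (n : ℕ) (_ : 1 ≤ n), NReal n p with hT
  apply no_uniform_bound hp hp2 (T.toReal ^ p) (by positivity)
  intro n hn P hdeg hJ
  have hP0 : P ≠ 0 := by
    rintro rfl
    unfold J at hJ
    simp [Real.zero_rpow hp.ne'] at hJ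
  have h1 : ENNReal.ofReal (circleNorm p (trunc n (P.map (algebraMap ℝ ℂ))) /
      circleNorm p (P.map (algebraMap ℝ ℂ))) ≤ T := by
    refine le_trans ?_ (le_iSup₂ (f := fun (n : ℕ) (_ : 1 ≤ n) => NReal n p) n hn)
    unfold NReal
    refine le_trans ?_ (le_iSup _ P)
    exact le_iSup₂ (f := fun (_ : P.natDegree ≤ n) (_ : P ≠ 0) =>
      ENNReal.ofReal (circleNorm p (trunc n (P.map (algebraMap ℝ ℂ))) /
      circleNorm p (P.map (algebraMap ℝ ℂ)))) hdeg hP0
  have hJc : Jc p (P.map (algebraMap ℝ ℂ)) = J p P := Jc_map p P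
  have e1 : circleNorm p (P.map (algebraMap ℝ ℂ)) = (J p P) ^ (1 / p) := by
    rw [← hJc]; rfl
  have e2 : circleNorm p (trunc n (P.map (algebraMap ℝ ℂ))) =
      (Jc p (trunc n (P.map (algebraMap ℝ ℂ)))) ^ (1 / p) := rfl
  have h2 := (ENNReal.ofReal_le_iff_le_toReal hne).1 h1
  have hpos : 0 < (J p P) ^ (1 / p) := Real.rpow_pos_of_pos hJ _
  rw [e1, e2, div_le_iff₀ hpos] at h2
  have h3 := Real.rpow_le_rpow (Real.rpow_nonneg (Jc_nonneg _) _) h2 hp.le
  rw [← Real.rpow_mul (Jc_nonneg _), one_div_mul_cancel hp.ne', Real.rpow_one,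
    Real.mul_rpow (by positivity) hpos.le, ← Real.rpow_mul hJ.le, one_div_mul_cancel hp.ne',
    Real.rpow_one] at h3
  exact h3

theorem real_le_comp (n : ℕ) (p : ℝ) : NReal n p ≤ NComp n p := by
  unfold NReal NComp
  refine iSup_le fun P => iSup₂_le fun h1 h2 => ?_
  refine le_trans ?_ (le_iSup _ (P.map (algebraMap ℝ ℂ)))
  refine le_iSup₂ (f := fun (_ : (P.map (algebraMap ℝ ℂ)).natDegree ≤ n)
    (_ : P.map (algebraMap ℝ ℂ) ≠ 0) =>
      ENNReal.ofReal (circleNorm p (trunc n (P.map (algebraMap ℝ ℂ))) /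
      circleNorm p (P.map (algebraMap ℝ ℂ)))) ?_ ?_
  · exact (Polynomial.natDegree_map_le).trans h1
  · exact (Polynomial.map_ne_zero_iff (algebraMap ℝ ℂ).injective).2 h2

end Pool.Agent.Lib_helper21.CoeffTrunc
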