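import Mathlib
import Pool.Agent.Lib_helper21.NofDisj

namespace Pool.Agent.Lib_helper21.Seq

open Finset Nof

/-- coordinates inside one instance -/
abbrev Coord (t : ℕ) := Fin t × Fin 512 × Fin 512

/-- raw instances -/
abbrev Raw (t : ℕ) := (XT t 512 × XT t 512) × ZT t 512

/-- the combinatorial data of the layout -/
structure Layout (n t : ℕ) where
  g : ℕ
  w : ℕ
  A : Finset ℕ
  B : Finset ℕ
  hA : ∀ a ∈ A, a < g
  hB : ∀ b ∈ B, b < w
  freeA : ThreeAPFree (A : Set ℕ)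
  freeB : ThreeAPFree (B : Set ℕ)
  hn : 24 * g * w ≤ n
  e : Coord t ↪ (Fin w × B)

variable {n t : ℕ} (L : Layout n t)

/-- block triples -/
abbrev Layout.Tau := Fin L.g × L.A

/-- number of the core (block) of the corner `e` of the block triple `τ` -/
def Layout.core (τ : L.Tau) (e : Fin 3) : ℕ :=
  if e = 0 then (τ.1 : ℕ) else if e = 1 then L.g + τ.1 + τ.2 else 3 * L.g + τ.1 + 2 * τ.2

/-- offset of the corner `e` of coordinate `q` -/
def Layout.off (q : Coord t) (e : Fin 3) : ℕ :=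
  if e = 0 then ((L.e q).1 : ℕ) else if e = 1 then (L.e q).1 + (L.e q).2 else (L.e q).1 + 2 * (L.e q).2

lemma Layout.core_lt (τ : L.Tau) (e : Fin 3) : L.core τ e < 6 * L.g := by
  have h1 := τ.1.2
  have h2 := L.hA τ.2 τ.2.2
  unfold Layout.core
  split_ifs <;> omega

lemma Layout.off_lt (q : Coord t) (e : Fin 3) : L.off q e < 3 * L.w := by
  have h1 := (L.e q).1.2
  have h2 := L.hB (L.e q).2 (L.e q).2.2
  unfold Layout.off
  split_ifs <;> omega

def Layout.vtxN (τ : L.Tau) (q : Coord t) (e : Fin 3) : ℕ := 4 * L.w * L.core τ e + L.off q e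

lemma Layout.vtx_lt (τ : L.Tau) (q : Coord t) (e : Fin 3) : L.vtxN τ q e < n := by
  have h1 := L.core_lt τ e
  have h2 := L.off_lt q e
  have h3 := L.hn
  unfold Layout.vtxN
  have h4 : 4 * L.w * L.core τ e + 4 * L.w ≤ 4 * L.w * (6 * L.g) := by
    have : L.core τ e + 1 ≤ 6 * L.g := h1
    calc 4 * L.w * L.core τ e + 4 * L.w = 4 * L.w * (L.core τ e + 1) := by ring
      _ ≤ 4 * L.w * (6 * L.g) := Nat.mul_le_mul_left _ this
  have h5 : 4 * L.w * (6 * L.g) = 24 * L.g * L.w := by ring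
  omega

def Layout.vtx (τ : L.Tau) (q : Coord t) (e : Fin 3) : Fin n := ⟨L.vtxN τ q e, L.vtx_lt τ q e⟩

/-- `r` lies in core number `β` -/
def Layout.InCore (β r : ℕ) : Prop := 4 * L.w * β ≤ r ∧ r < 4 * L.w * β + 3 * L.w

instance (β r : ℕ) : Decidable (L.InCore β r) := by unfold Layout.InCore; infer_instance

lemma Layout.vtx_inCore (τ : L.Tau) (q : Coord t) (e : Fin 3) :
    L.InCore (L.core τ e) (L.vtx τ q e : ℕ) := by
  have h2 := L.off_lt q e
  simp only [Layout.InCore, Layout.vtx, Layout.vtxN]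
  omega

/-- endpoints of the edge `e` -/
def ea (e : Fin 3) : Fin 3 := if e = 1 then 1 else 0
def eb (e : Fin 3) : Fin 3 := if e = 0 then 1 else 2

/-- the bit of an edge in a raw instance -/
def bit (p : Raw t) (q : Coord t) (e : Fin 3) : Prop :=
  if e = 0 then p.1.1 q.1 = q.2.1 else if e = 1 then p.1.2 q.1 = q.2.2 else p.2 q.1 q.2.1 q.2.2 = true

/-- the graph coded by a family of raw instances -/
def Layout.graph (ω : L.Tau → Raw t) : SimpleGraph (Fin n) :=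
  SimpleGraph.fromRel (fun r c => ∃ τ q e, bit (ω τ) q e ∧ r = L.vtx τ q (ea e) ∧ c = L.vtx τ q (eb e))

lemma div_unique {w a b u v : ℕ} (hu : u < 3 * w) (hv : v < 3 * w)
    (h : 4 * w * a + u = 4 * w * b + v) : a = b ∧ u = v := by
  have hw : 0 < 4 * w := by omega
  have ha : (4 * w * a + u) / (4 * w) = a := by
    rw [Nat.mul_add_div hw, Nat.div_eq_of_lt (by omega)]; simp
  have hb : (4 * w * b + v) / (4 * w) = b := by
    rw [Nat.mul_add_div hw, Nat.div_eq_of_lt (by omega)]; simp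
  have : a = b := by rw [← ha, ← hb, h]
  subst this
  exact ⟨rfl, by omega⟩

lemma Layout.vtx_eq {τ τ' : L.Tau} {q q' : Coord t} {e e' : Fin 3}
    (h : L.vtx τ q e = L.vtx τ' q' e') : L.core τ e = L.core τ' e' ∧ L.off q e = L.off q' e' := by
  have h' : L.vtxN τ q e = L.vtxN τ' q' e' := congrArg Fin.val h
  exact div_unique (L.off_lt q e) (L.off_lt q' e') h'

/-- the class of a core -/
lemma Layout.core_class {τ τ' : L.Tau} {e e' : Fin 3} (h : L.core τ e = L.core τ' e') : e = e' := by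
  have h1 := τ.1.2
  have h2 := L.hA τ.2 τ.2.2
  have h1' := τ'.1.2
  have h2' := L.hA τ'.2 τ'.2.2
  unfold Layout.core at h
  fin_cases e <;> fin_cases e' <;> simp at h ⊢ <;> omega

lemma Layout.core_ne {τ : L.Tau} {e e' : Fin 3} (h : e ≠ e') : L.core τ e ≠ L.core τ e' :=
  fun hh => h (L.core_class hh)

/-- two cores determine the block triple -/
lemma Layout.core_two {τ τ' : L.Tau} {e e' : Fin 3} (hne : e ≠ e') (h : L.core τ e = L.core τ' e)
    (h' : L.core τ e' = L.core τ' e') : τ = τ' := by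
  have h2 := L.hA τ.2 τ.2.2
  have h2' := L.hA τ'.2 τ'.2.2
  have key : (τ.1 : ℕ) = τ'.1 ∧ (τ.2 : ℕ) = τ'.2 := by
    unfold Layout.core at h h'
    fin_cases e <;> fin_cases e' <;> simp at h h' hne <;> constructor <;> omega
  exact Prod.ext (Fin.ext key.1) (Subtype.ext key.2)

lemma Layout.off_two {q q' : Coord t} {e e' : Fin 3} (hne : e ≠ e') (h : L.off q e = L.off q' e)
    (h' : L.off q e' = L.off q' e') : q = q' := by
  have key : ((L.e q).1 : ℕ) = (L.e q').1 ∧ ((L.e q).2 : ℕ) = (L.e q').2 := by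
    unfold Layout.off at h h'
    fin_cases e <;> fin_cases e' <;> simp at h h' hne <;> constructor <;> omega
  exact L.e.injective (Prod.ext (Fin.ext key.1) (Subtype.ext key.2))

lemma Layout.vtx_two {τ τ' : L.Tau} {q q' : Coord t} {e e' : Fin 3} (hne : e ≠ e')
    (h : L.vtx τ q e = L.vtx τ' q' e) (h' : L.vtx τ q e' = L.vtx τ' q' e') : τ = τ' ∧ q = q' := by
  have h1 := L.vtx_eq h
  have h2 := L.vtx_eq h'
  exact ⟨L.core_two hne h1.1 h2.1, L.off_two hne h1.2 h2.2⟩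

/-- RS property: three edges that form a triangle belong to the same coordinate -/
lemma Layout.rs {τ τ' τ'' : L.Tau} {q q' q'' : Coord t}
    (h0 : L.vtx τ q 0 = L.vtx τ'' q'' 0) (h1 : L.vtx τ q 1 = L.vtx τ' q' 1)
    (h2 : L.vtx τ' q' 2 = L.vtx τ'' q'' 2) : (τ = τ' ∧ q = q') ∧ (τ = τ'' ∧ q = q'') := by
  have a0 := L.vtx_eq h0
  have a1 := L.vtx_eq h1
  have a2 := L.vtx_eq h2
  simp only [Layout.core, Layout.off] at a0 a1 a2
  simp at a0 a1 a2
  have hA : (τ.2 : ℕ) = τ''.2 := by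
    refine L.freeA (by exact_mod_cast τ.2.2) (by exact_mod_cast τ''.2.2) (by exact_mod_cast τ'.2.2) ?_
    omega
  have hB : ((L.e q).2 : ℕ) = (L.e q'').2 := by
    refine L.freeB (by exact_mod_cast (L.e q).2.2) (by exact_mod_cast (L.e q'').2.2)
      (by exact_mod_cast (L.e q').2.2) ?_
    omega
  have hτ : τ = τ'' := Prod.ext (by omega) (Subtype.ext hA)
  have hτ' : τ = τ' := Prod.ext (Fin.ext (by omega)) (Subtype.ext (by omega))
  have hq : q = q'' := L.e.injective (Prod.ext (by omega) (Subtype.ext hB))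
  have hq' : q = q' := L.e.injective (Prod.ext (Fin.ext (by omega)) (Subtype.ext (by omega)))
  exact ⟨⟨hτ', hq'⟩, ⟨hτ, hq⟩⟩

/-- the edge between corners `e1` and `e2` -/
def edg (e1 e2 : Fin 3) : Fin 3 :=
  if e1 ≠ 2 ∧ e2 ≠ 2 then 0 else if e1 ≠ 0 ∧ e2 ≠ 0 then 1 else 2

lemma ea_edg1 : ∀ e1 e2 : Fin 3, e1 ≠ e2 → e1 < e2 → e1 = ea (edg e1 e2) := by decide
lemma eb_edg1 : ∀ e1 e2 : Fin 3, e1 ≠ e2 → e1 < e2 → e2 = eb (edg e1 e2) := by decide
lemma ea_edg2 : ∀ e1 e2 : Fin 3, e1 ≠ e2 → ¬ e1 < e2 → e2 = ea (edg e1 e2) := by decide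
lemma eb_edg2 : ∀ e1 e2 : Fin 3, e1 ≠ e2 → ¬ e1 < e2 → e1 = eb (edg e1 e2) := by decide

lemma Layout.adj_iff (ω : L.Tau → Raw t) (r c : Fin n) :
    (L.graph ω).Adj r c ↔ ∃ τ q e1 e2, e1 ≠ e2 ∧ bit (ω τ) q (edg e1 e2) ∧
      r = L.vtx τ q e1 ∧ c = L.vtx τ q e2 := by
  constructor
  · intro h
    rw [Layout.graph, SimpleGraph.fromRel_adj] at h
    rcases h.2 with ⟨τ, q, e, hb, hr, hc⟩ | ⟨τ, q, e, hb, hc, hr⟩
    · refine ⟨τ, q, ea e, eb e, ?_, ?_, hr, hc⟩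
      · fin_cases e <;> simp [ea, eb]
      · fin_cases e <;> simpa [ea, eb, edg] using hb
    · refine ⟨τ, q, eb e, ea e, ?_, ?_, hr, hc⟩
      · fin_cases e <;> simp [ea, eb]
      · fin_cases e <;> simpa [ea, eb, edg] using hb
  · rintro ⟨τ, q, e1, e2, hne, hb, hr, hc⟩
    rw [Layout.graph, SimpleGraph.fromRel_adj]
    refine ⟨?_, ?_⟩
    · intro h
      rw [hr, hc] at h
      exact L.core_ne (τ := τ) hne (L.vtx_eq h).1
    · by_cases hlt : e1 < e2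
      · left
        refine ⟨τ, q, edg e1 e2, hb, ?_, ?_⟩
        · rw [hr]; congr 1; exact ea_edg1 _ _ hne hlt
        · rw [hc]; congr 1; exact eb_edg1 _ _ hne hlt
      · right
        refine ⟨τ, q, edg e1 e2, hb, ?_, ?_⟩
        · rw [hc]; congr 1; exact ea_edg2 _ _ hne hlt
        · rw [hr]; congr 1; exact eb_edg2 _ _ hne hlt

lemma Layout.triangle (ω : L.Tau → Raw t) {a b c : Fin n} (hab : (L.graph ω).Adj a b)
    (hbc : (L.graph ω).Adj b c) (hac : (L.graph ω).Adj a c) :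
    ∃ τ q, ∀ e, bit (ω τ) q e := by
  rw [L.adj_iff] at hab hbc hac
  obtain ⟨τ1, q1, e1, e2, hn1, b1, ha1, hb1⟩ := hab
  obtain ⟨τ2, q2, f1, f2, hn2, b2, hb2, hc2⟩ := hbc
  obtain ⟨τ3, q3, g1, g2, hn3, b3, ha3, hc3⟩ := hac
  have Ha : L.vtx τ1 q1 e1 = L.vtx τ3 q3 g1 := ha1.symm.trans ha3
  have Hb : L.vtx τ1 q1 e2 = L.vtx τ2 q2 f1 := hb1.symm.trans hb2
  have Hc : L.vtx τ2 q2 f2 = L.vtx τ3 q3 g2 := hc2.symm.trans hc3
  have ea' : e1 = g1 := L.core_class (L.vtx_eq Ha).1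
  have eb' : e2 = f1 := L.core_class (L.vtx_eq Hb).1
  have ec' : f2 = g2 := L.core_class (L.vtx_eq Hc).1
  subst ea' eb' ec'
  have fin : ∀ (τ : L.Tau) (q : Coord t), bit (ω τ) q 0 → bit (ω τ) q 1 → bit (ω τ) q 2 →
      ∃ τ q, ∀ e, bit (ω τ) q e := by
    intro τ q h0 h1 h2
    refine ⟨τ, q, fun e => ?_⟩
    fin_cases e
    · exact h0
    · exact h1
    · exact h2
  fin_cases e1 <;> fin_cases e2 <;> first | exact absurd rfl hn1 | skip
  all_goals (fin_cases f2 <;> first | exact absurd rfl hn2 | exact absurd rfl hn3 | skip)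
  all_goals simp only [edg] at b1 b2 b3
  all_goals simp at b1 b2 b3
  all_goals simp only [Fin.mk_zero, Fin.mk_one, Fin.reduceFinMk, Fin.zero_eta, Fin.isValue] at Ha Hb Hc
  · -- (0,1,2)
    obtain ⟨⟨h1, h2⟩, ⟨h3, h4⟩⟩ := L.rs Ha Hb Hc
    subst h1 h2 h3 h4
    exact fin _ _ b1 b2 b3
  · -- (0,2,1)
    obtain ⟨⟨h1, h2⟩, ⟨h3, h4⟩⟩ := L.rs Ha.symm Hc.symm Hb.symm
    subst h1 h2 h3 h4
    exact fin _ _ b3 b2 b1
  · -- (1,0,2)
    obtain ⟨⟨h1, h2⟩, ⟨h3, h4⟩⟩ := L.rs Hb Ha Hc.symm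
    subst h1 h2 h3 h4
    exact fin _ _ b1 b3 b2
  · -- (1,2,0)
    obtain ⟨⟨h1, h2⟩, ⟨h3, h4⟩⟩ := L.rs Hc.symm Ha.symm Hb
    subst h1 h2 h3 h4
    exact fin _ _ b3 b1 b2
  · -- (2,0,1)
    obtain ⟨⟨h1, h2⟩, ⟨h3, h4⟩⟩ := L.rs Hb.symm Hc Ha.symm
    subst h1 h2 h3 h4
    exact fin _ _ b2 b3 b1
  · -- (2,1,0)
    obtain ⟨⟨h1, h2⟩, ⟨h3, h4⟩⟩ := L.rs Hc Hb.symm Ha
    subst h1 h2 h3 h4
    exact fin _ _ b2 b1 b3

lemma bits_iff (p : Raw t) : (∃ q, ∀ e, bit p q e) ↔ ¬ Ok p.1.1 p.1.2 p.2 := by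
  unfold Ok
  push Not
  constructor
  · rintro ⟨q, hq⟩
    refine ⟨q.1, ?_⟩
    have h0 := hq 0
    have h1 := hq 1
    have h2 := hq 2
    simp [bit] at h0 h1 h2
    rw [h0, h1, h2]; simp
  · rintro ⟨b, hb⟩
    refine ⟨(b, p.1.1 b, p.1.2 b), fun e => ?_⟩
    fin_cases e <;> simp_all [bit]

theorem Layout.cliqueFree_iff (ω : L.Tau → Raw t) :
    (L.graph ω).CliqueFree 3 ↔ ∀ τ, Ok (ω τ).1.1 (ω τ).1.2 (ω τ).2 := by
  constructor
  · intro h τ
    by_contra hτ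
    obtain ⟨q, hq⟩ := (bits_iff (ω τ)).2 hτ
    refine h {L.vtx τ q 0, L.vtx τ q 1, L.vtx τ q 2} ?_
    rw [SimpleGraph.is3Clique_iff]
    refine ⟨_, _, _, ?_, ?_, ?_, rfl⟩
    · rw [L.adj_iff]; exact ⟨τ, q, 0, 1, by decide, hq _, rfl, rfl⟩
    · rw [L.adj_iff]; exact ⟨τ, q, 0, 2, by decide, hq _, rfl, rfl⟩
    · rw [L.adj_iff]; exact ⟨τ, q, 1, 2, by decide, hq _, rfl, rfl⟩
  · intro h s hs
    rw [SimpleGraph.is3Clique_iff] at hs
    obtain ⟨a, b, c, hab, hac, hbc, _⟩ := hs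
    obtain ⟨τ, q, hq⟩ := L.triangle ω hab hbc hac
    exact (bits_iff (ω τ)).1 ⟨q, hq⟩ (h τ)

/-- locality of the adjacency matrix: row `r` only depends on the bits of the edges with an endpoint
in a core containing `r`. -/
lemma Layout.row_congr (ω ω' : L.Tau → Raw t) (r : Fin n)
    (h : ∀ τ q e1 e2, e1 ≠ e2 → L.InCore (L.core τ e1) r →
      (bit (ω τ) q (edg e1 e2) ↔ bit (ω' τ) q (edg e1 e2))) (c : Fin n) :
    (L.graph ω).Adj r c ↔ (L.graph ω').Adj r c := by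
  rw [L.adj_iff, L.adj_iff]
  constructor
  · rintro ⟨τ, q, e1, e2, hne, hb, hr, hc⟩
    refine ⟨τ, q, e1, e2, hne, ?_, hr, hc⟩
    exact (h τ q e1 e2 hne (by rw [hr]; exact L.vtx_inCore τ q e1)).1 hb
  · rintro ⟨τ, q, e1, e2, hne, hb, hr, hc⟩
    refine ⟨τ, q, e1, e2, hne, ?_, hr, hc⟩
    exact (h τ q e1 e2 hne (by rw [hr]; exact L.vtx_inCore τ q e1)).2 hb

lemma Layout.inCore_unique {β β' r : ℕ} (h : L.InCore β r) (h' : L.InCore β' r) : β = β' := by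
  unfold Layout.InCore at h h'
  have := div_unique (w := L.w) (a := β) (b := β') (u := r - 4 * L.w * β) (v := r - 4 * L.w * β')
    (by omega) (by omega) (by omega)
  exact this.1

end Pool.Agent.Lib_helper21.Seq
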