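import Mathlib
import Pool.Agent.Lib_helper21.SeqGraph

namespace Pool.Agent.Lib_helper21.Seq

open Finset Nof

variable {n t : ℕ} (L : Layout n t)

lemma card_tau : Fintype.card L.Tau = L.g * L.A.card := by
  simp [Layout.Tau]

open Classical in
lemma bad_pairs (N k : ℕ) (Tj : ℕ → Finset ℕ) (hT : ∀ j < N, (Tj j).card ≤ k) :
    ((Finset.univ : Finset L.Tau).filter (fun τ => ∃ j < N, ∃ e e', e ≠ e' ∧
      L.core τ e ∈ Tj j ∧ L.core τ e' ∈ Tj j)).card ≤ N * k ^ 2 := by
  have hsub : ((Finset.univ : Finset L.Tau).filter (fun τ => ∃ j < N, ∃ e e', e ≠ e' ∧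
      L.core τ e ∈ Tj j ∧ L.core τ e' ∈ Tj j)) ⊆
      (range N).biUnion (fun j => (Tj j ×ˢ Tj j).biUnion (fun bb =>
        (Finset.univ : Finset L.Tau).filter (fun τ => ∃ e e', e ≠ e' ∧ L.core τ e = bb.1 ∧ L.core τ e' = bb.2))) := by
    intro τ hτ
    simp only [Finset.mem_filter, Finset.mem_univ, true_and] at hτ
    obtain ⟨j, hj, e, e', hne, h1, h2⟩ := hτ
    simp only [Finset.mem_biUnion, Finset.mem_range, Finset.mem_product, Finset.mem_filter,
      Finset.mem_univ, true_and]
    exact ⟨j, hj, (L.core τ e, L.core τ e'), ⟨h1, h2⟩, e, e', hne, rfl, rfl⟩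
  refine (Finset.card_le_card hsub).trans ?_
  refine (Finset.card_biUnion_le_card_mul (range N) _ (k ^ 2) ?_).trans ?_
  · intro j hj
    refine (Finset.card_biUnion_le_card_mul (Tj j ×ˢ Tj j) _ 1 ?_).trans ?_
    · intro bb _
      rw [Finset.card_le_one]
      intro τ hτ τ' hτ'
      simp only [Finset.mem_filter, Finset.mem_univ, true_and] at hτ hτ'
      obtain ⟨e, e', hne, h1, h2⟩ := hτ
      obtain ⟨f, f', hne', h1', h2'⟩ := hτ'
      have e1 : e = f := L.core_class (h1.trans h1'.symm)
      have e2 : e' = f' := L.core_class (h2.trans h2'.symm)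
      subst e1 e2
      exact L.core_two hne (h1.trans h1'.symm) (h2.trans h2'.symm)
    · rw [mul_one, Finset.card_product, sq]
      have := hT j (Finset.mem_range.1 hj)
      exact Nat.mul_le_mul this this
  · rw [Finset.card_range]

open Classical in
lemma cores_through (β : ℕ) :
    ((Finset.univ : Finset L.Tau).filter (fun τ => ∃ e, L.core τ e = β)).card ≤ L.A.card := by
  have : ((Finset.univ : Finset L.Tau).filter (fun τ => ∃ e, L.core τ e = β)).card ≤
      (Finset.univ : Finset L.A).card := by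
    refine Finset.card_le_card_of_injOn (fun τ => τ.2) (fun _ _ => Finset.mem_coe.2 (Finset.mem_univ _)) ?_
    intro τ hτ τ' hτ' h
    simp only [Finset.coe_filter, Finset.mem_univ, true_and, Set.mem_setOf_eq] at hτ hτ'
    obtain ⟨e, he⟩ := hτ
    obtain ⟨e', he'⟩ := hτ'
    have hee : e = e' := L.core_class (he.trans he'.symm)
    subst hee
    have h' : (τ.2 : ℕ) = τ'.2 := congrArg Subtype.val h
    have hc := he.trans he'.symm
    have key : (τ.1 : ℕ) = τ'.1 := by
      unfold Layout.core at hc
      split_ifs at hc <;> omega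
    exact Prod.ext (Fin.ext key) h
  simpa using this

open Classical in
lemma visits_sum (N k : ℕ) (Tj : ℕ → Finset ℕ) (hT : ∀ j < N, (Tj j).card ≤ k) :
    ∑ τ : L.Tau, ((range N).filter (fun j => ∃ e, L.core τ e ∈ Tj j)).card ≤ N * (k * L.A.card) := by
  have e1 : ∀ τ : L.Tau, ((range N).filter (fun j => ∃ e, L.core τ e ∈ Tj j)).card =
      ∑ j ∈ range N, (if ∃ e, L.core τ e ∈ Tj j then 1 else 0) := by
    intro τ
    rw [Finset.card_filter]
  rw [Finset.sum_congr rfl (fun τ _ => e1 τ), Finset.sum_comm]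
  have e2 : ∀ j ∈ range N, ∑ τ : L.Tau, (if ∃ e, L.core τ e ∈ Tj j then 1 else 0) ≤ k * L.A.card := by
    intro j hj
    rw [← Finset.card_filter]
    have hsub : ((Finset.univ : Finset L.Tau).filter (fun τ => ∃ e, L.core τ e ∈ Tj j)) ⊆
        (Tj j).biUnion (fun β => (Finset.univ : Finset L.Tau).filter (fun τ => ∃ e, L.core τ e = β)) := by
      intro τ hτ
      simp only [Finset.mem_filter, Finset.mem_univ, true_and] at hτ
      obtain ⟨e, he⟩ := hτ
      simp only [Finset.mem_biUnion, Finset.mem_filter, Finset.mem_univ, true_and]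
      exact ⟨_, he, e, rfl⟩
    refine (Finset.card_le_card hsub).trans ?_
    refine (Finset.card_biUnion_le_card_mul (Tj j) _ L.A.card (fun β _ => cores_through L β)).trans ?_
    exact Nat.mul_le_mul_right _ (hT j (Finset.mem_range.1 hj))
  refine (Finset.sum_le_sum e2).trans ?_
  simp

open Classical in
/-- `τ` is good for the touched sets `Tj`, with at most `c` visits -/
def Good (N c : ℕ) (Tj : ℕ → Finset ℕ) (τ : L.Tau) : Prop :=
  (∀ j < N, ∀ e e', L.core τ e ∈ Tj j → L.core τ e' ∈ Tj j → e = e') ∧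
    ((range N).filter (fun j => ∃ e, L.core τ e ∈ Tj j)).card ≤ c

open Classical in
lemma good_many (N k c : ℕ) (Tj : ℕ → Finset ℕ) (hT : ∀ j < N, (Tj j).card ≤ k)
    (h1 : 4 * (N * k ^ 2) ≤ L.g * L.A.card) (h2 : 4 * (N * k) < (c + 1) * L.g) (hA : 0 < L.A.card) :
    Fintype.card L.Tau ≤ 2 * ((Finset.univ : Finset L.Tau).filter (fun τ => Good L N c Tj τ)).card := by
  set B1 := ((Finset.univ : Finset L.Tau).filter (fun τ => ∃ j < N, ∃ e e', e ≠ e' ∧
      L.core τ e ∈ Tj j ∧ L.core τ e' ∈ Tj j)) with hB1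
  set B2 := ((Finset.univ : Finset L.Tau).filter (fun τ =>
      c < ((range N).filter (fun j => ∃ e, L.core τ e ∈ Tj j)).card)) with hB2
  set Gd := ((Finset.univ : Finset L.Tau).filter (fun τ => Good L N c Tj τ)) with hGd
  have hcov : (Finset.univ : Finset L.Tau) ⊆ Gd ∪ (B1 ∪ B2) := by
    intro τ _
    by_cases h : Good L N c Tj τ
    · exact Finset.mem_union_left _ (by simp [hGd, h])
    · refine Finset.mem_union_right _ ?_
      unfold Good at h
      rw [not_and_or] at h
      rcases h with h | h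
      · refine Finset.mem_union_left _ ?_
        push Not at h
        obtain ⟨j, hj, e, e', he, he', hne⟩ := h
        simp only [hB1, Finset.mem_filter, Finset.mem_univ, true_and]
        exact ⟨j, hj, e, e', hne, he, he'⟩
      · refine Finset.mem_union_right _ ?_
        simp only [hB2, Finset.mem_filter, Finset.mem_univ, true_and]
        omega
  have hc1 : B1.card ≤ N * k ^ 2 := bad_pairs L N k Tj hT
  have hc2 : B2.card * (c + 1) ≤ N * (k * L.A.card) := by
    refine le_trans ?_ (visits_sum L N k Tj hT)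
    have : ∑ τ ∈ B2, (c + 1) ≤ ∑ τ ∈ B2, ((range N).filter (fun j => ∃ e, L.core τ e ∈ Tj j)).card := by
      refine Finset.sum_le_sum (fun τ hτ => ?_)
      simp only [hB2, Finset.mem_filter, Finset.mem_univ, true_and] at hτ
      exact hτ
    rw [Finset.sum_const, smul_eq_mul] at this
    refine this.trans ?_
    exact Finset.sum_le_sum_of_subset (Finset.subset_univ _)
  have hcard : Fintype.card L.Tau ≤ Gd.card + (B1.card + B2.card) := by
    have := Finset.card_le_card hcov
    rw [Finset.card_univ] at this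
    exact this.trans ((Finset.card_union_le _ _).trans (Nat.add_le_add_left (Finset.card_union_le _ _) _))
  have h4 : 4 * B2.card < L.g * L.A.card := by
    by_contra hcon
    push Not at hcon
    have : L.g * L.A.card * (c + 1) ≤ 4 * (N * (k * L.A.card)) := by
      calc L.g * L.A.card * (c + 1) ≤ (4 * B2.card) * (c + 1) := Nat.mul_le_mul_right _ hcon
        _ = 4 * (B2.card * (c + 1)) := by ring
        _ ≤ _ := Nat.mul_le_mul_left _ hc2
    have h5 : 4 * (N * (k * L.A.card)) < L.g * L.A.card * (c + 1) := by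
      calc 4 * (N * (k * L.A.card)) = (4 * (N * k)) * L.A.card := by ring
        _ < ((c + 1) * L.g) * L.A.card := Nat.mul_lt_mul_of_pos_right h2 hA
        _ = _ := by ring
    omega
  rw [card_tau] at hcard ⊢
  omega

end Pool.Agent.Lib_helper21.Seq
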