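import Mathlib

/-!
# Sequential machines with several read heads

The input, a simple graph on `Fin n`, is given as its adjacency matrix, written row by row on a
read-only tape with `n * n` cells. A machine has `k` two-way heads on this tape and a memory with
states in `Q`.
-/

namespace Pool.Agent.Lib_helper21.Seq

/-- A nondeterministic machine with `k` two-way read-only heads on a tape with `n * n` cells and
with memory states `Q`. Configurations are pairs (memory state, positions of the heads). -/
structure Machine (n k : ℕ) (Q : Type) where
  /-- initial configuration -/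
  start : Q × (Fin k → Fin (n * n))
  /-- `step t c b c'`: at time `t`, in configuration `c` and scanning the bits `b`, the machine may
  go to configuration `c'` (arbitrary relation: nonuniform, nondeterministic) -/
  step : ℕ → Q × (Fin k → Fin (n * n)) → (Fin k → Prop) → Q × (Fin k → Fin (n * n)) → Prop
  /-- in one step every head moves by at most one cell -/
  slow : ∀ t c b c', step t c b c' →
    ∀ h, (c'.2 h : ℕ) ≤ (c.2 h : ℕ) + 1 ∧ (c.2 h : ℕ) ≤ (c'.2 h : ℕ) + 1
  /-- accepting configurations -/
  accept : Q × (Fin k → Fin (n * n)) → Prop

/-- The bits scanned by the heads: cell `p` of the tape holds the adjacency bit of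
(row `p / n`, column `p % n`). -/
def scan {n k : ℕ} (G : SimpleGraph (Fin n)) (pos : Fin k → Fin (n * n)) : Fin k → Prop :=
  fun h => G.Adj (pos h).divNat (pos h).modNat

/-- `M` has an accepting computation with at most `T` steps on input `G`. -/
def Accepts {n k : ℕ} {Q : Type} (M : Machine n k Q) (T : ℕ) (G : SimpleGraph (Fin n)) : Prop :=
  ∃ T' ≤ T, ∃ p : ℕ → Q × (Fin k → Fin (n * n)), p 0 = M.start ∧
    (∀ t < T', M.step t (p t) (scan G (p t).2) (p (t + 1))) ∧ M.accept (p T')

/-- `M` accepts within `T` steps exactly the triangle-free graphs on `n` vertices. -/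
def RecognisesTriangleFree {n k : ℕ} {Q : Type} (M : Machine n k Q) (T : ℕ) : Prop :=
  ∀ G : SimpleGraph (Fin n), Accepts M T G ↔ G.CliqueFree 3

end Pool.Agent.Lib_helper21.Seq
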