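import Mathlib
import Pool.Agent.Lib_helper21.SeqDefs
import Pool.Agent.Lib_helper21.SeqGraph

namespace Pool.Agent.Lib_helper21.Seq

open Finset Nof

/-- exact-time acceptance -/
def AcceptsAt {n k : ℕ} {Q : Type} (M : Machine n k Q) (T : ℕ) (G : SimpleGraph (Fin n)) : Prop :=
  ∃ p : ℕ → Q × (Fin k → Fin (n * n)), p 0 = M.start ∧
    (∀ t < T, M.step t (p t) (scan G (p t).2) (p (t + 1))) ∧ M.accept (p T)

/-- add idling in accepting configurations -/
def idle {n k : ℕ} {Q : Type} (M : Machine n k Q) : Machine n k Q where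
  start := M.start
  step := fun t c b c' => M.step t c b c' ∨ (c' = c ∧ M.accept c)
  slow := by
    intro t c b c' h hd
    rcases h with h | h
    · exact M.slow t c b c' h hd
    · rw [h.1]; exact ⟨Nat.le_succ _, Nat.le_succ _⟩
  accept := M.accept

lemma idle_iff {n k : ℕ} {Q : Type} (M : Machine n k Q) (T : ℕ) (G : SimpleGraph (Fin n)) :
    AcceptsAt (idle M) T G ↔ Accepts M T G := by
  classical
  constructor
  · rintro ⟨p, h0, hs, ha⟩
    have hex : ∃ t, t ≤ T ∧ M.accept (p t) := ⟨T, le_rfl, ha⟩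
    refine ⟨Nat.find hex, (Nat.find_spec hex).1, p, h0, ?_, (Nat.find_spec hex).2⟩
    intro t ht
    have hmin := Nat.find_min hex ht
    have htT : t < T := lt_of_lt_of_le ht (Nat.find_spec hex).1
    rcases hs t htT with h | h
    · exact h
    · exact absurd ⟨htT.le, h.2⟩ hmin
  · rintro ⟨T', hT', p, h0, hs, ha⟩
    refine ⟨fun t => p (min t T'), ?_, ?_, ?_⟩
    · show p (min 0 T') = M.start
      simp [h0]
    · intro t _
      by_cases h : t < T'
      · left
        have e1 : min t T' = t := min_eq_left h.le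
        have e2 : min (t + 1) T' = t + 1 := min_eq_left h
        simp only [e1, e2]
        exact hs t h
      · right
        have e1 : min t T' = T' := min_eq_right (not_lt.1 h)
        have e2 : min (t + 1) T' = T' := min_eq_right (le_trans (not_lt.1 h) (Nat.le_succ _))
        simp only [e1, e2]
        exact ⟨trivial, ha⟩
    · show M.accept (p (min T T'))
      rw [min_eq_right hT']
      exact ha

/-- existence of a computation between times `a` and `b` reading only rows that satisfy `ok` -/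
def Seg {n k : ℕ} {Q : Type} (M : Machine n k Q) (G : SimpleGraph (Fin n)) (a b : ℕ)
    (ok : Fin n → Prop) (c c' : Q × (Fin k → Fin (n * n))) : Prop :=
  ∃ p : ℕ → Q × (Fin k → Fin (n * n)), p a = c ∧ p b = c' ∧
    ∀ t, a ≤ t → t < b → M.step t (p t) (scan G (p t).2) (p (t + 1)) ∧ ∀ h, ok ((p t).2 h).divNat

lemma Seg.congr {n k : ℕ} {Q : Type} {M : Machine n k Q} {G G' : SimpleGraph (Fin n)} {a b : ℕ}
    {ok ok' : Fin n → Prop} {c c' : Q × (Fin k → Fin (n * n))} (h : Seg M G a b ok c c')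
    (hG : ∀ r, ok r → ∀ s, G.Adj r s ↔ G'.Adj r s) (hok : ∀ r, ok r → ok' r) :
    Seg M G' a b ok' c c' := by
  obtain ⟨p, h1, h2, h3⟩ := h
  refine ⟨p, h1, h2, fun t ha hb => ⟨?_, fun hd => hok _ ((h3 t ha hb).2 hd)⟩⟩
  have hs := (h3 t ha hb).1
  have : scan G (p t).2 = scan G' (p t).2 := by
    funext hd
    exact propext (hG _ ((h3 t ha hb).2 hd) _)
  rwa [this] at hs

lemma Seg.glue {n k : ℕ} {Q : Type} {M : Machine n k Q} {G : SimpleGraph (Fin n)}
    (am : ℕ → ℕ) (hmono : Monotone am) (h0 : am 0 = 0) (c : ℕ → Q × (Fin k → Fin (n * n))) (N : ℕ)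
    (h : ∀ j < N, Seg M G (am j) (am (j + 1)) (fun _ => True) (c j) (c (j + 1))) :
    ∃ p : ℕ → Q × (Fin k → Fin (n * n)), p 0 = c 0 ∧ p (am N) = c N ∧
      ∀ t < am N, M.step t (p t) (scan G (p t).2) (p (t + 1)) := by
  induction N with
  | zero => exact ⟨fun _ => c 0, rfl, rfl, by intro t ht; omega⟩
  | succ N ih =>
    obtain ⟨p, hp0, hpN, hps⟩ := ih (fun j hj => h j (Nat.lt_succ_of_lt hj))
    obtain ⟨q, hq1, hq2, hq3⟩ := h N (Nat.lt_succ_self N)
    have hle : am N ≤ am (N + 1) := hmono (Nat.le_succ N)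
    refine ⟨fun t => if t < am N then p t else q t, ?_, ?_, ?_⟩
    · by_cases hz : 0 < am N
      · simp [hz, hp0]
      · have hz' : am N = 0 := by omega
        simp only [hz, if_false]
        rw [← hz', hq1, ← hpN, hz', hp0]
    · have : ¬ am (N + 1) < am N := not_lt.2 hle
      simp only [this, if_false, hq2]
    · intro t ht
      by_cases h1 : t + 1 < am N
      · have h2 : t < am N := by omega
        simp only [h1, h2, if_true]
        exact hps t h2
      · by_cases h2 : t < am N
        · have h3 : t + 1 = am N := by omega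
          simp only [h1, h2, if_true, if_false]
          have := hps t h2
          rw [h3, hpN] at this
          rw [h3, hq1]
          exact this
        · simp only [h1, h2, if_false]
          exact (hq3 t (not_lt.1 h2) ht).1

/-- movement bound -/
lemma pos_bound {n k : ℕ} {Q : Type} {M : Machine n k Q} {G : SimpleGraph (Fin n)}
    {p : ℕ → Q × (Fin k → Fin (n * n))} {T : ℕ}
    (hs : ∀ t < T, M.step t (p t) (scan G (p t).2) (p (t + 1))) (hd : Fin k) (t d : ℕ)
    (h : t + d ≤ T) :
    (((p (t + d)).2 hd : ℕ) ≤ ((p t).2 hd : ℕ) + d) ∧ (((p t).2 hd : ℕ) ≤ ((p (t + d)).2 hd : ℕ) + d) := by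
  induction d with
  | zero => simp
  | succ d ih =>
    have ih' := ih (by omega)
    have hst := M.slow _ _ _ _ (hs (t + d) (by omega)) hd
    have e : t + (d + 1) = t + d + 1 := by ring
    rw [e]
    omega

lemma far_cores {n t : ℕ} (L : Layout n t) {p q : Fin (n * n)} {β β' : ℕ}
    (h : L.InCore β (p.divNat : Fin n)) (h' : L.InCore β' (q.divNat : Fin n)) (hlt : β < β') :
    (p : ℕ) + L.w * n < q := by
  have hp : ((p.divNat : Fin n) : ℕ) = p / n := rfl
  have hq : ((q.divNat : Fin n) : ℕ) = q / n := rfl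
  have hn : 0 < n := by
    rcases Nat.eq_zero_or_pos n with h0 | h0
    · subst h0
      have := p.2
      simp at this
    · exact h0
  unfold Layout.InCore at h h'
  rw [hp] at h
  rw [hq] at h'
  have h1 : (p : ℕ) / n + L.w + 1 ≤ (q : ℕ) / n := by
    have : 4 * L.w * β + 4 * L.w ≤ 4 * L.w * β' := by
      calc 4 * L.w * β + 4 * L.w = 4 * L.w * (β + 1) := by ring
        _ ≤ 4 * L.w * β' := Nat.mul_le_mul_left _ hlt
    omega
  have h2 : (q : ℕ) / n * n ≤ q := Nat.div_mul_le_self _ _
  have h3 : (p : ℕ) < ((p : ℕ) / n + 1) * n := by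
    have := Nat.lt_div_mul_add (a := (p : ℕ)) hn
    rw [Nat.add_mul, one_mul]
    exact this
  have h4 : ((p : ℕ) / n + L.w + 1) * n ≤ (q : ℕ) / n * n := Nat.mul_le_mul_right _ h1
  have h5 : ((p : ℕ) / n + L.w + 1) * n = ((p : ℕ) / n + 1) * n + L.w * n := by ring
  omega

/-- in a short time interval a head touches at most one core -/
lemma one_core {n k t : ℕ} {Q : Type} {M : Machine n k Q} {G : SimpleGraph (Fin n)} (L : Layout n t)
    {p : ℕ → Q × (Fin k → Fin (n * n))} {T a b : ℕ}
    (hs : ∀ t < T, M.step t (p t) (scan G (p t).2) (p (t + 1))) (hb : b ≤ T)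
    (hab : b ≤ a + L.w * n) (hd : Fin k) {t1 t2 β1 β2 : ℕ} (h1 : a ≤ t1 ∧ t1 < b) (h2 : a ≤ t2 ∧ t2 < b)
    (c1 : L.InCore β1 (((p t1).2 hd).divNat : Fin n)) (c2 : L.InCore β2 (((p t2).2 hd).divNat : Fin n)) :
    β1 = β2 := by
  rcases lt_trichotomy β1 β2 with h | h | h
  · exfalso
    have hf := far_cores L c1 c2 h
    rcases le_total t1 t2 with ht | ht
    · obtain ⟨d, rfl⟩ := Nat.exists_eq_add_of_le ht
      have := pos_bound hs hd t1 d (by omega)
      omega
    · obtain ⟨d, rfl⟩ := Nat.exists_eq_add_of_le ht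
      have := pos_bound hs hd t2 d (by omega)
      omega
  · exact h
  · exfalso
    have hf := far_cores L c2 c1 h
    rcases le_total t1 t2 with ht | ht
    · obtain ⟨d, rfl⟩ := Nat.exists_eq_add_of_le ht
      have := pos_bound hs hd t1 d (by omega)
      omega
    · obtain ⟨d, rfl⟩ := Nat.exists_eq_add_of_le ht
      have := pos_bound hs hd t2 d (by omega)
      omega

open Classical in
/-- cores touched in a time interval -/
noncomputable def touch {n k t : ℕ} {Q : Type} (L : Layout n t) (p : ℕ → Q × (Fin k → Fin (n * n)))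
    (a b : ℕ) : Finset ℕ :=
  (range (6 * L.g)).filter (fun β => ∃ t', (a ≤ t' ∧ t' < b) ∧ ∃ hd, L.InCore β (((p t').2 hd).divNat : Fin n))

lemma touch_card {n k t : ℕ} {Q : Type} {M : Machine n k Q} {G : SimpleGraph (Fin n)} (L : Layout n t)
    {p : ℕ → Q × (Fin k → Fin (n * n))} {T a b : ℕ}
    (hs : ∀ t < T, M.step t (p t) (scan G (p t).2) (p (t + 1))) (hb : b ≤ T)
    (hab : b ≤ a + L.w * n) : (touch L p a b).card ≤ k := by
  classical
  have hex : ∀ β ∈ touch L p a b, ∃ hd : Fin k, ∃ t', (a ≤ t' ∧ t' < b) ∧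
      L.InCore β (((p t').2 hd).divNat : Fin n) := by
    intro β hβ
    simp only [touch, Finset.mem_filter] at hβ
    obtain ⟨_, t', ht', hd, hc⟩ := hβ
    exact ⟨hd, t', ht', hc⟩
  by_cases hk : Nonempty (Fin k)
  · have hex' : ∀ β, ∃ hd : Fin k, β ∈ touch L p a b → ∃ t', (a ≤ t' ∧ t' < b) ∧
      L.InCore β (((p t').2 hd).divNat : Fin n) := by
      intro β
      by_cases hβ : β ∈ touch L p a b
      · obtain ⟨hd, h⟩ := hex β hβ
        exact ⟨hd, fun _ => h⟩
      · exact ⟨hk.some, fun h => absurd h hβ⟩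
    choose f hf using hex'
    have : (touch L p a b).card ≤ (Finset.univ : Finset (Fin k)).card := by
      refine Finset.card_le_card_of_injOn f (fun _ _ => Finset.mem_coe.2 (Finset.mem_univ _)) ?_
      intro β hβ β' hβ' heq
      obtain ⟨t1, h1, c1⟩ := hf β hβ
      obtain ⟨t2, h2, c2⟩ := hf β' hβ'
      rw [← heq] at c2
      exact one_core L hs hb hab (f β) h1 h2 c1 c2
    simpa using this
  · have : touch L p a b = ∅ := by
      rw [Finset.eq_empty_iff_forall_notMem]
      intro β hβ
      obtain ⟨hd, _⟩ := hex β hβ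
      exact hk ⟨hd⟩
    rw [this]; simp

end Pool.Agent.Lib_helper21.Seq
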