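import Mathlib
import Pool.Agent.Lib_helper21.SeqPath
import Pool.Agent.Lib_helper21.SeqCount

namespace Pool.Agent.Lib_helper21.Seq

open Finset Nof

/-- base instance: nothing selected by `z` -/
def base (t : ℕ) : Raw t := ((fun _ => 0, fun _ => 0), fun _ _ _ => false)

/-- base instance with one bit of `z` switched on -/
def baseOn {t : ℕ} (b : Fin t) : Raw t :=
  ((fun _ => 0, fun _ => 0), fun b' i j => decide (b' = b ∧ i = 0 ∧ j = 0))

lemma base_ok (t : ℕ) : Ok (base t).1.1 (base t).1.2 (base t).2 := fun _ => rfl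

lemma baseOn_not_ok {t : ℕ} (b : Fin t) : ¬ Ok (baseOn b).1.1 (baseOn b).1.2 (baseOn b).2 := by
  intro h
  have := h b
  simp [baseOn] at this

/-- families -/
def fam {n t : ℕ} (L : Layout n t) : L.Tau → Raw t := fun _ => base t

noncomputable def famOn {n t : ℕ} (L : Layout n t) (x : L.Tau × Fin t) : L.Tau → Raw t := by
  classical
  exact fun τ => if τ = x.1 then baseOn x.2 else base t

lemma fam_adj {n t : ℕ} (L : Layout n t) (x : L.Tau × Fin t) (r c : Fin n)
    (h1 : ¬ (r = L.vtx x.1 (x.2, 0, 0) 0 ∧ c = L.vtx x.1 (x.2, 0, 0) 2))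
    (h2 : ¬ (r = L.vtx x.1 (x.2, 0, 0) 2 ∧ c = L.vtx x.1 (x.2, 0, 0) 0)) :
    (L.graph (fam L)).Adj r c ↔ (L.graph (famOn L x)).Adj r c := by
  classical
  rw [L.adj_iff, L.adj_iff]
  constructor
  · rintro ⟨τ, q, e1, e2, hne, hb, hr, hc⟩
    refine ⟨τ, q, e1, e2, hne, ?_, hr, hc⟩
    by_cases hτ : τ = x.1
    · simp only [famOn, if_pos hτ]
      revert hb
      simp only [fam, base, baseOn, bit]
      split_ifs <;> simp_all
    · simp only [famOn, if_neg hτ]
      exact hb
  · rintro ⟨τ, q, e1, e2, hne, hb, hr, hc⟩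
    refine ⟨τ, q, e1, e2, hne, ?_, hr, hc⟩
    by_cases hτ : τ = x.1
    · simp only [famOn, if_pos hτ] at hb
      by_cases he : edg e1 e2 = 2
      · exfalso
        rw [he] at hb
        simp [bit, baseOn] at hb
        obtain ⟨hq1, hq2, hq3⟩ := hb
        have hq : q = (x.2, 0, 0) := Prod.ext hq1 (Prod.ext hq2 hq3)
        subst hq
        subst hτ
        have hcase : (e1 = 0 ∧ e2 = 2) ∨ (e1 = 2 ∧ e2 = 0) := by
          revert he hne
          clear hr hc
          revert e1 e2
          decide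
        rcases hcase with ⟨ha, hb⟩ | ⟨ha, hb⟩
        · subst ha hb
          exact h1 ⟨hr, hc⟩
        · subst ha hb
          exact h2 ⟨hr, hc⟩
      · have : bit (base t) q (edg e1 e2) := by
          revert hb
          simp only [base, baseOn, bit]
          split_ifs <;> simp_all
          omega
        exact this
    · simp only [famOn, if_neg hτ] at hb
      exact hb

open Classical in
theorem read_bound {n k t : ℕ} {Q : Type} (L : Layout n t) (M : Machine n k Q) (T : ℕ)
    (hM : ∀ G, AcceptsAt M T G ↔ G.CliqueFree 3) : L.g * L.A.card * t ≤ T * k := by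
  have hacc : AcceptsAt M T (L.graph (fam L)) := by
    rw [hM, L.cliqueFree_iff]
    exact fun _ => base_ok t
  obtain ⟨p, hp0, hps, hpa⟩ := hacc
  have hrej : ∀ x : L.Tau × Fin t, ¬ AcceptsAt M T (L.graph (famOn L x)) := by
    intro x h
    rw [hM, L.cliqueFree_iff] at h
    have := h x.1
    simp only [famOn, if_true] at this
    exact baseOn_not_ok x.2 this
  have hread : ∀ x : L.Tau × Fin t, ∃ y : Fin T × Fin k,
      ((((p y.1).2 y.2).divNat : Fin n) = L.vtx x.1 (x.2, 0, 0) 0 ∧
        (((p y.1).2 y.2).modNat : Fin n) = L.vtx x.1 (x.2, 0, 0) 2) ∨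
      ((((p y.1).2 y.2).divNat : Fin n) = L.vtx x.1 (x.2, 0, 0) 2 ∧
        (((p y.1).2 y.2).modNat : Fin n) = L.vtx x.1 (x.2, 0, 0) 0) := by
    intro x
    by_contra hcon
    push Not at hcon
    refine hrej x ⟨p, hp0, fun s hs => ?_, hpa⟩
    have hstep := hps s hs
    have : scan (L.graph (fam L)) (p s).2 = scan (L.graph (famOn L x)) (p s).2 := by
      funext hd
      refine propext (fam_adj L x _ _ ?_ ?_)
      · rintro ⟨ha, hb⟩
        exact (hcon (⟨s, hs⟩, hd)).1 ha hb
      · rintro ⟨ha, hb⟩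
        exact (hcon (⟨s, hs⟩, hd)).2 ha hb
    rwa [this] at hstep
  choose f hf using hread
  have hinj : Function.Injective f := by
    intro x x' hxx
    have h1 := hf x
    have h2 := hf x'
    rw [hxx] at h1
    have hgen : (L.vtx x.1 (x.2, 0, 0) 0 = L.vtx x'.1 (x'.2, 0, 0) 0 ∧
        L.vtx x.1 (x.2, 0, 0) 2 = L.vtx x'.1 (x'.2, 0, 0) 2) := by
      rcases h1 with ⟨a1, a2⟩ | ⟨a1, a2⟩ <;> rcases h2 with ⟨b1, b2⟩ | ⟨b1, b2⟩
      · exact ⟨a1.symm.trans b1, a2.symm.trans b2⟩
      · exact absurd (L.core_class (L.vtx_eq (a1.symm.trans b1)).1) (by decide)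
      · exact absurd (L.core_class (L.vtx_eq (a1.symm.trans b1)).1) (by decide)
      · exact ⟨a2.symm.trans b2, a1.symm.trans b1⟩
    have hh := L.vtx_two (e := 0) (e' := 2) (by decide) hgen.1 hgen.2
    exact Prod.ext hh.1 (congrArg Prod.fst hh.2)
  have := Fintype.card_le_of_injective f hinj
  simpa [card_tau, Fintype.card_prod] using this

end Pool.Agent.Lib_helper21.Seq
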