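import Mathlib
import Pool.Agent.Lib_helper21.SeqPath
import Pool.Agent.Lib_helper21.SeqCount

namespace Pool.Agent.Lib_helper21.Seq

open Finset Nof

open Classical in
lemma small_finsets (I : Type) [Fintype I] (c : ℕ) :
    ((Finset.univ : Finset (Finset I)).filter (fun E => E.card ≤ c)).card ≤ (Fintype.card I + 1) ^ c := by
  have h := Finset.card_le_card_of_surjOn (s := (Finset.univ : Finset (Fin c → Option I)))
    (t := (Finset.univ : Finset (Finset I)).filter (fun E => E.card ≤ c))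
    (fun f => Finset.univ.filter (fun i => ∃ j, f j = some i)) ?_
  · refine h.trans ?_
    simp [Fintype.card_option]
  · intro E hE
    simp only [Finset.coe_filter, Finset.mem_univ, true_and, Set.mem_setOf_eq] at hE
    refine ⟨fun j => E.toList[(j : ℕ)]?, Finset.mem_coe.2 (Finset.mem_univ _), ?_⟩
    ext i
    simp only [Finset.mem_filter, Finset.mem_univ, true_and]
    constructor
    · rintro ⟨j, hj⟩
      exact Finset.mem_toList.1 (List.mem_iff_getElem?.2 ⟨_, hj⟩)
    · intro hi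
      obtain ⟨m, hm⟩ := List.mem_iff_getElem?.1 (Finset.mem_toList.2 hi)
      have hlt : m < E.toList.length := by
        by_contra hcon
        rw [List.getElem?_eq_none (not_lt.1 hcon)] at hm
        exact absurd hm (by simp)
      rw [Finset.length_toList] at hlt
      exact ⟨⟨m, lt_of_lt_of_le hlt hE⟩, hm⟩

open Classical in
lemma avg1 {Ω Θ : Type} [Fintype Ω] [Fintype Θ] [Nonempty Θ] (good : Ω → Θ → Prop)
    (h : ∀ ω, Fintype.card Θ ≤ 2 * (Finset.univ.filter (fun τ => good ω τ)).card) :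
    ∃ τ, Fintype.card Ω ≤ 2 * (Finset.univ.filter (fun ω => good ω τ)).card := by
  have hsum : ∑ _τ : Θ, Fintype.card Ω ≤ ∑ τ : Θ, 2 * (Finset.univ.filter (fun ω => good ω τ)).card := by
    calc ∑ _τ : Θ, Fintype.card Ω = ∑ _ω : Ω, Fintype.card Θ := by
          simp [mul_comm]
      _ ≤ ∑ ω : Ω, 2 * (Finset.univ.filter (fun τ => good ω τ)).card := Finset.sum_le_sum (fun ω _ => h ω)
      _ = ∑ τ : Θ, 2 * (Finset.univ.filter (fun ω => good ω τ)).card := by
          rw [← Finset.mul_sum, ← Finset.mul_sum]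
          congr 1
          simp only [Finset.card_filter]
          rw [Finset.sum_comm]
  obtain ⟨τ, _, hτ⟩ := Finset.exists_le_of_sum_le (s := (Finset.univ : Finset Θ)) Finset.univ_nonempty hsum
  exact ⟨τ, hτ⟩

open Classical in
lemma avg2 {A B : Type} [Fintype A] [Fintype B] [Nonempty B] (good : A → B → Prop)
    (h : Fintype.card (A × B) ≤ 2 * (Finset.univ.filter (fun p : A × B => good p.1 p.2)).card) :
    ∃ b, Fintype.card A ≤ 2 * (Finset.univ.filter (fun a => good a b)).card := by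
  have hsum : ∑ _b : B, Fintype.card A ≤ ∑ b : B, 2 * (Finset.univ.filter (fun a => good a b)).card := by
    calc ∑ _b : B, Fintype.card A = Fintype.card (A × B) := by
          simp [mul_comm]
      _ ≤ _ := h
      _ = ∑ b : B, 2 * (Finset.univ.filter (fun a => good a b)).card := by
          rw [← Finset.mul_sum]
          congr 1
          simp only [Finset.card_filter]
          rw [Fintype.sum_prod_type, Finset.sum_comm]
  obtain ⟨τ, _, hτ⟩ := Finset.exists_le_of_sum_le (s := (Finset.univ : Finset B)) Finset.univ_nonempty hsum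
  exact ⟨τ, hτ⟩

/-- a family of raw instances with prescribed instance at `τ` -/
noncomputable def ins {n t : ℕ} (L : Layout n t) (τ : L.Tau) (r : {τ' : L.Tau // τ' ≠ τ} → Inst t 512)
    (p : Raw t) : L.Tau → Raw t := by
  classical
  exact fun τ' => if h : τ' = τ then p else (r ⟨τ', h⟩).1

lemma ins_congr {n t : ℕ} (L : Layout n t) (τ : L.Tau) (r : {τ' : L.Tau // τ' ≠ τ} → Inst t 512)
    (p p' : Raw t) (row : Fin n)
    (h : ∀ q e1 e2, e1 ≠ e2 → L.InCore (L.core τ e1) row → (bit p q (edg e1 e2) ↔ bit p' q (edg e1 e2)))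
    (c : Fin n) : (L.graph (ins L τ r p)).Adj row c ↔ (L.graph (ins L τ r p')).Adj row c := by
  refine L.row_congr _ _ row ?_ c
  intro τ' q e1 e2 hne hin
  by_cases hτ : τ' = τ
  · subst hτ
    simp only [ins, dif_pos]
    exact h q e1 e2 hne hin
  · simp only [ins, dif_neg hτ]

lemma ins_cliqueFree {n t : ℕ} (L : Layout n t) (τ : L.Tau) (r : {τ' : L.Tau // τ' ≠ τ} → Inst t 512)
    (p : Raw t) : (L.graph (ins L τ r p)).CliqueFree 3 ↔ Ok p.1.1 p.1.2 p.2 := by
  rw [L.cliqueFree_iff]
  constructor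
  · intro h
    have := h τ
    simpa [ins] using this
  · intro h τ'
    by_cases hτ : τ' = τ
    · subst hτ
      simpa [ins] using h
    · simp only [ins, dif_neg hτ]
      exact (r ⟨τ', hτ⟩).2

/-- times -/
def am (s T j : ℕ) : ℕ := min (j * s) T

lemma am_mono (s T : ℕ) : Monotone (am s T) := by
  intro i j h
  exact min_le_min_right _ (Nat.mul_le_mul_right _ h)

lemma am_zero (s T : ℕ) : am s T 0 = 0 := by simp [am]

lemma am_succ (s T j : ℕ) : am s T (j + 1) ≤ am s T j + s := by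
  unfold am
  have : (j + 1) * s = j * s + s := by ring
  omega

lemma am_le (s T j : ℕ) : am s T j ≤ T := min_le_right _ _

/-- cells allowed for corner `e` -/
def okE {n t : ℕ} (L : Layout n t) (τ : L.Tau) (e : Fin 3) (row : Fin n) : Prop :=
  ∀ e', L.InCore (L.core τ e') row → e' = e

open Classical in
/-- a fixed transcript gives few NO instances -/
lemma fiber_bound {n k t N : ℕ} {Q : Type} [Fintype Q] (L : Layout n t) (M : Machine n k Q) (T : ℕ)
    (hM : ∀ G, AcceptsAt M T G ↔ G.CliqueFree 3) (am' : ℕ → ℕ) (hmono : Monotone am') (h0 : am' 0 = 0)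
    (hNT : am' N = T) (τ : L.Tau) (r : {τ' : L.Tau // τ' ≠ τ} → Inst t 512)
    (E : Finset (Fin N × Fin 3 × (Q × (Fin k → Fin (n * n))) × (Q × (Fin k → Fin (n * n)))))
    (S : Finset (Inst t 512))
    (P : Inst t 512 → ℕ → Q × (Fin k → Fin (n * n)))
    (hP0 : ∀ i, P i 0 = M.start)
    (hPs : ∀ i, ∀ s < T, M.step s (P i s) (scan (L.graph (ins L τ r i.1)) (P i s).2) (P i (s + 1)))
    (hPa : ∀ i, M.accept (P i T))
    (hS : ∀ i ∈ S, (∀ j : Fin N, ∀ e e', L.core τ e ∈ touch L (P i) (am' j) (am' (j + 1)) →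
      L.core τ e' ∈ touch L (P i) (am' j) (am' (j + 1)) → e = e') ∧
      (∀ x, x ∈ E ↔ L.core τ x.2.1 ∈ touch L (P i) (am' x.1) (am' (x.1 + 1)) ∧
        x.2.2.1 = P i (am' x.1) ∧ x.2.2.2 = P i (am' (x.1 + 1)))) :
    S.card * 2 ^ t ≤ Fintype.card (Inst t 512) := by
  rcases S.eq_empty_or_nonempty with hemp | ⟨i0, hi0⟩
  · rw [hemp]; simp
  let x0 : XT t 512 := fun _ => 0
  let z0 : ZT t 512 := fun _ _ _ => false
  -- the rows visited in a segment where only corner `e` is touched satisfy okE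
  have hamT : ∀ j : ℕ, j ≤ N → am' j ≤ T := fun j hj => hNT ▸ hmono hj
  have rows : ∀ i ∈ S, ∀ j : Fin N, ∀ e, L.core τ e ∈ touch L (P i) (am' j) (am' (j + 1)) →
      ∀ s, am' j ≤ s → s < am' (j + 1) → ∀ h, okE L τ e (((P i s).2 h).divNat : Fin n) := by
    intro i hi j e he s hs1 hs2 h e' hin
    refine (hS i hi).1 j e' e ?_ he
    simp only [touch, Finset.mem_filter, Finset.mem_range]
    exact ⟨L.core_lt τ e', s, ⟨hs1, hs2⟩, h, hin⟩
  have rows0 : ∀ i ∈ S, ∀ j : Fin N, (∀ e, L.core τ e ∉ touch L (P i) (am' j) (am' (j + 1))) →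
      ∀ s, am' j ≤ s → s < am' (j + 1) → ∀ h, ∀ e', ¬ L.InCore (L.core τ e') (((P i s).2 h).divNat : Fin n) := by
    intro i hi j hno s hs1 hs2 h e' hin
    refine hno e' ?_
    simp only [touch, Finset.mem_filter, Finset.mem_range]
    exact ⟨L.core_lt τ e', s, ⟨hs1, hs2⟩, h, hin⟩
  let P1 : XT t 512 → ZT t 512 → Prop := fun x z => ∀ a ∈ E, a.2.1 = 0 →
    Seg M (L.graph (ins L τ r ((x, x0), z))) (am' a.1) (am' (a.1 + 1)) (okE L τ 0) a.2.2.1 a.2.2.2
  let P2 : XT t 512 → XT t 512 → Prop := fun x y => ∀ a ∈ E, a.2.1 = 1 →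
    Seg M (L.graph (ins L τ r ((x, y), z0))) (am' a.1) (am' (a.1 + 1)) (okE L τ 1) a.2.2.1 a.2.2.2
  let P3 : XT t 512 → ZT t 512 → Prop := fun y z => ∀ a ∈ E, a.2.1 = 2 →
    Seg M (L.graph (ins L τ r ((x0, y), z))) (am' a.1) (am' (a.1 + 1)) (okE L τ 2) a.2.2.1 a.2.2.2
  -- bits seen from corners
  have cong0 : ∀ (x y y' : XT t 512) (z : ZT t 512) (row : Fin n), okE L τ 0 row → ∀ c,
      ((L.graph (ins L τ r ((x, y), z))).Adj row c ↔ (L.graph (ins L τ r ((x, y'), z))).Adj row c) := by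
    intro x y y' z row hok c
    refine ins_congr L τ r _ _ row ?_ c
    intro q e1 e2 hne hin
    have he1 := hok e1 hin
    subst he1
    fin_cases e2 <;> simp [edg, bit] at hne ⊢
  have cong1 : ∀ (x y : XT t 512) (z z' : ZT t 512) (row : Fin n), okE L τ 1 row → ∀ c,
      ((L.graph (ins L τ r ((x, y), z))).Adj row c ↔ (L.graph (ins L τ r ((x, y), z'))).Adj row c) := by
    intro x y z z' row hok c
    refine ins_congr L τ r _ _ row ?_ c
    intro q e1 e2 hne hin
    have he1 := hok e1 hin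
    subst he1
    fin_cases e2 <;> simp [edg, bit] at hne ⊢
  have cong2 : ∀ (x x' y : XT t 512) (z : ZT t 512) (row : Fin n), okE L τ 2 row → ∀ c,
      ((L.graph (ins L τ r ((x, y), z))).Adj row c ↔ (L.graph (ins L τ r ((x', y), z))).Adj row c) := by
    intro x x' y z row hok c
    refine ins_congr L τ r _ _ row ?_ c
    intro q e1 e2 hne hin
    have he1 := hok e1 hin
    subst he1
    fin_cases e2 <;> simp [edg, bit] at hne ⊢
  have hmonoP : ∀ x y z, P1 x z → P2 x y → P3 y z → Ok x y z := by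
    intro x y z p1 p2 p3
    have hacc : AcceptsAt M T (L.graph (ins L τ r ((x, y), z))) := by
      have hseg : ∀ j < N, Seg M (L.graph (ins L τ r ((x, y), z))) (am' j) (am' (j + 1)) (fun _ => True)
          (P i0 (am' j)) (P i0 (am' (j + 1))) := by
        intro j hj
        by_cases hto : ∃ e, L.core τ e ∈ touch L (P i0) (am' j) (am' (j + 1))
        · obtain ⟨e, he⟩ := hto
          have hmem : ((⟨j, hj⟩ : Fin N), e, P i0 (am' j), P i0 (am' (j + 1))) ∈ E := by
            rw [(hS i0 hi0).2]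
            exact ⟨he, rfl, rfl⟩
          fin_cases e
          · exact (p1 _ hmem rfl).congr (fun row hrow c => cong0 x x0 y z row hrow c) (fun _ _ => trivial)
          · exact (p2 _ hmem rfl).congr (fun row hrow c => cong1 x y z0 z row hrow c) (fun _ _ => trivial)
          · exact (p3 _ hmem rfl).congr (fun row hrow c => cong2 x0 x y z row hrow c) (fun _ _ => trivial)
        · push Not at hto
          have hseg0 : Seg M (L.graph (ins L τ r i0.1)) (am' j) (am' (j + 1))
              (fun row => ∀ e', ¬ L.InCore (L.core τ e') row) (P i0 (am' j)) (P i0 (am' (j + 1))) := by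
            refine ⟨P i0, rfl, rfl, fun s hs1 hs2 => ⟨hPs i0 s (lt_of_lt_of_le hs2 (hamT _ hj)), ?_⟩⟩
            intro h
            exact rows0 i0 hi0 ⟨j, hj⟩ hto s hs1 hs2 h
          refine hseg0.congr ?_ (fun _ _ => trivial)
          intro row hrow c
          refine ins_congr L τ r _ _ row ?_ c
          intro q e1 e2 _ hin
          exact absurd hin (hrow e1)
      obtain ⟨p, hp0, hpN, hps⟩ := Seg.glue am' hmono h0 (fun j => P i0 (am' j)) N hseg
      rw [hNT] at hpN hps
      refine ⟨p, ?_, hps, ?_⟩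
      · rw [hp0, h0, hP0]
      · rw [hpN]; exact hPa i0
    exact (ins_cliqueFree L τ r ((x, y), z)).1 ((hM _).1 hacc)
  refine le_trans (Nat.mul_le_mul_right _ (Finset.card_le_card ?_)) (mono_bound t P1 P2 P3 hmonoP)
  intro i hi
  simp only [Finset.mem_filter, Finset.mem_univ, true_and]
  have hseg : ∀ a ∈ E, ∀ e, a.2.1 = e → Seg M (L.graph (ins L τ r i.1)) (am' a.1) (am' (a.1 + 1))
      (okE L τ e) a.2.2.1 a.2.2.2 := by
    intro a ha e hae
    have hx := ((hS i hi).2 a).1 ha
    rw [hae] at hx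
    refine ⟨P i, hx.2.1.symm, hx.2.2.symm, fun s hs1 hs2 => ⟨?_, ?_⟩⟩
    · exact hPs i s (lt_of_lt_of_le hs2 (hamT _ a.1.2))
    · intro h
      exact rows i hi a.1 e hx.1 s hs1 hs2 h
  refine ⟨?_, ?_, ?_⟩
  · intro a ha hae
    exact (hseg a ha 0 hae).congr (fun row hrow c => cong0 i.1.1.1 i.1.1.2 x0 i.1.2 row hrow c) (fun _ h => h)
  · intro a ha hae
    exact (hseg a ha 1 hae).congr (fun row hrow c => cong1 i.1.1.1 i.1.1.2 i.1.2 z0 row hrow c) (fun _ h => h)
  · intro a ha hae
    exact (hseg a ha 2 hae).congr (fun row hrow c => cong2 i.1.1.1 x0 i.1.1.2 i.1.2 row hrow c) (fun _ h => h)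

open Classical in
theorem sim_bound {n k t : ℕ} {Q : Type} [Fintype Q] (L : Layout n t) (M : Machine n k Q)
    (T N c : ℕ) (hM : ∀ G, AcceptsAt M T G ↔ G.CliqueFree 3) (hN : T ≤ N * (L.w * n))
    (h1 : 4 * (N * k ^ 2) ≤ L.g * L.A.card) (h2 : 4 * (N * k) < (c + 1) * L.g) (hA : 0 < L.A.card)
    (hg : 0 < L.g) :
    2 ^ t ≤ 2 * (3 * N * (Fintype.card Q * (n * n) ^ k) ^ 2 + 1) ^ c := by
  set s := L.w * n with hs
  have haN : am s T N = T := min_eq_right hN
  -- accepting paths
  have hacc : ∀ ω : L.Tau → Inst t 512, AcceptsAt M T (L.graph (fun τ => (ω τ).1)) := by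
    intro ω
    rw [hM, L.cliqueFree_iff]
    exact fun τ => (ω τ).2
  choose P hP0 hPs hPa using hacc
  let Tj : (L.Tau → Inst t 512) → ℕ → Finset ℕ := fun ω j => touch L (P ω) (am s T j) (am s T (j + 1))
  have hTj : ∀ ω j, (Tj ω j).card ≤ k := by
    intro ω j
    exact touch_card L (hPs ω) (am_le s T _) (am_succ s T j)
  have hne : Nonempty L.Tau := by
    obtain ⟨a, ha⟩ := Finset.card_pos.1 hA
    exact ⟨(⟨0, hg⟩, ⟨a, ha⟩)⟩
  obtain ⟨τ, hτ⟩ := avg1 (fun (ω : L.Tau → Inst t 512) (τ : L.Tau) => Good L N c (Tj ω) τ)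
    (fun ω => good_many L N k c (Tj ω) (fun j _ => hTj ω j) h1 h2 hA)
  let e := Equiv.funSplitAt τ (Inst t 512)
  have hinst : Nonempty (Inst t 512) :=
    ⟨⟨((fun _ => 0, fun _ => 0), fun _ _ _ => false), fun _ => rfl⟩⟩
  have hsplit : Fintype.card (Inst t 512 × ({j // j ≠ τ} → Inst t 512)) ≤
      2 * (Finset.univ.filter (fun p : Inst t 512 × ({j // j ≠ τ} → Inst t 512) =>
        Good L N c (Tj (e.symm (p.1, p.2))) τ)).card := by
    have hc : Fintype.card (Inst t 512 × ({j // j ≠ τ} → Inst t 512)) = Fintype.card (L.Tau → Inst t 512) :=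
      Fintype.card_congr e.symm
    rw [hc]
    refine hτ.trans ?_
    refine Nat.mul_le_mul_left _ ?_
    refine Finset.card_le_card_of_injOn e ?_ (fun _ _ _ _ h => e.injective h)
    intro ω hω
    simp only [Finset.coe_filter, Finset.mem_univ, true_and, Set.mem_setOf_eq] at hω ⊢
    rw [show ((e ω).1, (e ω).2) = e ω from rfl, Equiv.symm_apply_apply]
    exact hω
  obtain ⟨r, hr⟩ := avg2 (fun (i : Inst t 512) (r : {j // j ≠ τ} → Inst t 512) =>
    Good L N c (Tj (e.symm (i, r))) τ) hsplit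
  have hins : ∀ i : Inst t 512, (fun τ' => (e.symm (i, r) τ').1) = ins L τ r i.1 := by
    intro i
    funext τ'
    by_cases h : τ' = τ
    · subst h
      simp [ins, e, Equiv.funSplitAt, Equiv.piSplitAt]
    · simp [ins, e, Equiv.funSplitAt, Equiv.piSplitAt, h]
  -- transcripts
  set Gd := Finset.univ.filter (fun i : Inst t 512 => Good L N c (Tj (e.symm (i, r))) τ) with hGd
  let PP : Inst t 512 → ℕ → Q × (Fin k → Fin (n * n)) := fun i => P (e.symm (i, r))
  let E : Inst t 512 → Finset (Fin N × Fin 3 × (Q × (Fin k → Fin (n * n))) × (Q × (Fin k → Fin (n * n)))) :=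
    fun i => Finset.univ.filter (fun x => L.core τ x.2.1 ∈ touch L (PP i) (am s T x.1) (am s T (x.1 + 1)) ∧
        x.2.2.1 = PP i (am s T x.1) ∧ x.2.2.2 = PP i (am s T (x.1 + 1)))
  have hE : ∀ i ∈ Gd, (E i).card ≤ c := by
    intro i hi
    simp only [hGd, Finset.mem_filter, Finset.mem_univ, true_and] at hi
    refine le_trans ?_ hi.2
    refine Finset.card_le_card_of_injOn (fun x => (x.1 : ℕ)) ?_ ?_
    · intro x hx
      simp only [E, Finset.coe_filter, Finset.mem_univ, true_and, Set.mem_setOf_eq] at hx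
      simp only [Finset.coe_filter, Finset.mem_range, Set.mem_setOf_eq]
      exact ⟨x.1.2, x.2.1, hx.1⟩
    · intro x hx y hy hxy
      simp only [E, Finset.coe_filter, Finset.mem_univ, true_and, Set.mem_setOf_eq] at hx hy
      have h1 : x.1 = y.1 := Fin.ext hxy
      have h2 : x.2.1 = y.2.1 := by
        refine hi.1 x.1 x.1.2 _ _ hx.1 ?_
        rw [h1]; exact hy.1
      refine Prod.ext h1 (Prod.ext h2 (Prod.ext ?_ ?_))
      · rw [hx.2.1, hy.2.1, h1]
      · rw [hx.2.2, hy.2.2, h1]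
  have hfib : ∀ E0, (Gd.filter (fun i => E i = E0)).card * 2 ^ t ≤ Fintype.card (Inst t 512) := by
    intro E0
    refine fiber_bound (N := N) L M T hM (am s T) (am_mono s T) (am_zero s T) haN τ r E0 _ PP
      (fun i => hP0 _) ?_ (fun i => hPa _) ?_
    · intro i s' hs'
      have := hPs (e.symm (i, r)) s' hs'
      rw [hins i] at this
      exact this
    · intro i hi
      simp only [hGd, Finset.mem_filter, Finset.mem_univ, true_and] at hi
      refine ⟨?_, ?_⟩
      · intro j e1 e2 he1 he2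
        exact hi.1.1 j j.2 e1 e2 he1 he2
      · intro x
        rw [← hi.2]
        simp only [E, Finset.mem_filter, Finset.mem_univ, true_and]
  have htot : Gd.card * 2 ^ t ≤ (3 * N * (Fintype.card Q * (n * n) ^ k) ^ 2 + 1) ^ c * Fintype.card (Inst t 512) := by
    have hmaps : ∀ i ∈ Gd, E i ∈ (Finset.univ : Finset (Finset (Fin N × Fin 3 × (Q × (Fin k → Fin (n * n))) × (Q × (Fin k → Fin (n * n)))))).filter (fun E => E.card ≤ c) := by
      intro i hi
      simp only [Finset.mem_filter, Finset.mem_univ, true_and]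
      exact hE i hi
    rw [Finset.card_eq_sum_card_fiberwise hmaps, Finset.sum_mul]
    refine (Finset.sum_le_sum (fun E0 _ => hfib E0)).trans ?_
    rw [Finset.sum_const, smul_eq_mul]
    refine Nat.mul_le_mul_right _ ?_
    refine (small_finsets _ c).trans ?_
    refine Nat.pow_le_pow_left ?_ c
    simp only [Fintype.card_prod, Fintype.card_fin, Fintype.card_pi, Finset.prod_const, Finset.card_univ]
    apply le_of_eq
    ring
  have hpos : 0 < Fintype.card (Inst t 512) := Fintype.card_pos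
  have hfinal : Fintype.card (Inst t 512) * 2 ^ t ≤
      (2 * (3 * N * (Fintype.card Q * (n * n) ^ k) ^ 2 + 1) ^ c) * Fintype.card (Inst t 512) := by
    calc Fintype.card (Inst t 512) * 2 ^ t ≤ (2 * Gd.card) * 2 ^ t := Nat.mul_le_mul_right _ hr
      _ = 2 * (Gd.card * 2 ^ t) := by ring
      _ ≤ 2 * ((3 * N * (Fintype.card Q * (n * n) ^ k) ^ 2 + 1) ^ c * Fintype.card (Inst t 512)) :=
          Nat.mul_le_mul_left _ htot
      _ = _ := by ring
  rw [mul_comm] at hfinal
  exact Nat.le_of_mul_le_mul_right hfinal hpos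

end Pool.Agent.Lib_helper21.Seq
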