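import Mathlib
import Pool.Agent.Lib_helper21.SeqSim
import Pool.Agent.Lib_helper21.SeqRead

namespace Pool.Agent.Lib_helper21.Seq

open Finset Nof Real

noncomputable def EE (n : ℕ) : ℝ := Real.exp (4 * √(Real.log n))

lemma EE_pos (n : ℕ) : 0 < EE n := Real.exp_pos _

lemma one_le_EE (n : ℕ) : 1 ≤ EE n := by
  unfold EE
  rw [← Real.exp_zero]
  apply Real.exp_le_exp.2
  positivity

lemma roth_ge {m n : ℕ} (hm : 1 ≤ m) (hmn : m ≤ n) : (m : ℝ) / EE n ≤ rothNumberNat m := by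
  refine le_trans ?_ (Behrend.roth_lower_bound (N := m))
  rw [div_eq_mul_inv]
  apply mul_le_mul_of_nonneg_left _ (Nat.cast_nonneg m)
  unfold EE
  rw [← Real.exp_neg]
  apply Real.exp_le_exp.2
  have h1 : Real.log m ≤ Real.log n := Real.log_le_log (by exact_mod_cast hm) (by exact_mod_cast hmn)
  have h2 : √(Real.log m) ≤ √(Real.log n) := Real.sqrt_le_sqrt h1
  linarith

lemma floor_half (a b : ℕ) (hb : 0 < b) (h : b ≤ a) : (a : ℝ) / (2 * b) ≤ ((a / b : ℕ) : ℝ) := by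
  have h1 : 1 ≤ a / b := (Nat.one_le_div_iff hb).2 h
  have h2 : a < (a / b + 1) * b := by
    have := Nat.lt_div_mul_add (a := a) hb
    rw [Nat.add_mul, one_mul]; exact this
  have h3 : (a : ℝ) < (((a / b : ℕ) : ℝ) + 1) * b := by exact_mod_cast h2
  have h1' : (1 : ℝ) ≤ ((a / b : ℕ) : ℝ) := by exact_mod_cast h1
  have hb' : (0 : ℝ) < b := by exact_mod_cast hb
  rw [div_le_iff₀ (by positivity)]
  nlinarith

lemma layout_exists (n g : ℕ) (hg : 1 ≤ g) (h24 : 24 * g ≤ n)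
    (hv : 4 * 2 ^ 31 * EE n * (g : ℝ) ^ 2 ≤ (n : ℝ) ^ 2) :
    ∃ t, ∃ L : Layout n t, L.g = g ∧ L.w = n / (24 * g) ∧ (g : ℝ) / EE n ≤ L.A.card ∧
      (n : ℝ) ^ 2 / (2 ^ 31 * EE n * (g : ℝ) ^ 2) ≤ t ∧ (n : ℝ) / (48 * g) ≤ L.w := by
  set w := n / (24 * g) with hw
  have hg0 : 0 < g := hg
  have hw1 : 1 ≤ w := (Nat.one_le_div_iff (by omega)).2 h24
  have hwn : w ≤ n := Nat.div_le_self _ _
  have hgn : g ≤ n := by omega
  obtain ⟨A, hAs, hAc, hAf⟩ := rothNumberNat_spec g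
  obtain ⟨B, hBs, hBc, hBf⟩ := rothNumberNat_spec w
  have hE := EE_pos n
  have hwlow : (n : ℝ) / (48 * g) ≤ (w : ℝ) := by
    have := floor_half n (24 * g) (by omega) h24
    refine le_trans (le_of_eq ?_) this
    push_cast
    ring
  have hn0 : (0 : ℝ) < n := by
    have : 0 < n := by omega
    exact_mod_cast this
  have hgr : (0 : ℝ) < g := by exact_mod_cast hg0
  have hrw : (w : ℝ) / EE n ≤ rothNumberNat w := roth_ge hw1 hwn
  have hprod : (n : ℝ) ^ 2 / (2304 * EE n * (g : ℝ) ^ 2) ≤ ((w * rothNumberNat w : ℕ) : ℝ) := by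
    push_cast
    have h1 : (n : ℝ) ^ 2 / (2304 * EE n * (g : ℝ) ^ 2) = ((n : ℝ) / (48 * g)) * (((n : ℝ) / (48 * g)) / EE n) := by
      field_simp
      ring
    rw [h1]
    have h0 : (0 : ℝ) ≤ (n : ℝ) / (48 * g) := by positivity
    apply mul_le_mul hwlow _ (by positivity) (by positivity)
    refine le_trans ?_ hrw
    exact div_le_div_of_nonneg_right hwlow hE.le
  have hbig : 2 ^ 18 ≤ w * rothNumberNat w := by
    have h1 : (2 ^ 18 : ℝ) ≤ (n : ℝ) ^ 2 / (2304 * EE n * (g : ℝ) ^ 2) := by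
      rw [le_div_iff₀ (by positivity)]
      refine le_trans ?_ hv
      have : 0 ≤ EE n * (g : ℝ) ^ 2 := by positivity
      nlinarith
    exact_mod_cast h1.trans hprod
  set t := w * rothNumberNat w / 2 ^ 18 with ht
  have htlow : (n : ℝ) ^ 2 / (2 ^ 31 * EE n * (g : ℝ) ^ 2) ≤ (t : ℝ) := by
    have h1 := floor_half (w * rothNumberNat w) (2 ^ 18) (by norm_num) hbig
    refine le_trans ?_ h1
    have h2 : (n : ℝ) ^ 2 / (2304 * EE n * (g : ℝ) ^ 2) / (2 * (2 ^ 18 : ℕ)) ≤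
        ((w * rothNumberNat w : ℕ) : ℝ) / (2 * (2 ^ 18 : ℕ)) :=
      div_le_div_of_nonneg_right hprod (by positivity)
    refine le_trans ?_ h2
    rw [div_div]
    apply div_le_div_of_nonneg_left (by positivity) (by positivity)
    have : 0 ≤ EE n * (g : ℝ) ^ 2 := by positivity
    push_cast
    nlinarith
  have hemb : Nonempty (Coord t ↪ (Fin w × B)) := by
    apply Function.Embedding.nonempty_of_card_le
    simp only [Fintype.card_prod, Fintype.card_fin, Fintype.card_coe, hBc]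
    have := Nat.div_mul_le_self (w * rothNumberNat w) (2 ^ 18)
    rw [← ht] at this
    calc t * (512 * 512) = t * 2 ^ 18 := by norm_num
      _ ≤ _ := this
  refine ⟨t, ⟨g, w, A, B, fun a ha => Finset.mem_range.1 (hAs ha), fun b hb => Finset.mem_range.1 (hBs hb),
    hAf, hBf, ?_, hemb.some⟩, rfl, rfl, ?_, htlow, hwlow⟩
  · have := Nat.mul_div_le n (24 * g)
    rw [← hw] at this
    exact this
  · show (g : ℝ) / EE n ≤ A.card
    rw [hAc]
    exact roth_ge hg hgn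

/-- algebra of case B -/
lemma algB {n k T s b g E ℓ F : ℝ} (hn : 1 ≤ n) (hk : 1 ≤ k) (hT : 0 ≤ T) (hs : 0 < s) (hE : 1 ≤ E)
    (hℓ : 1 ≤ ℓ) (hb : b = 10 * ℓ * s) (hg : 1 ≤ g) (hneg : T ^ 3 * k ^ 5 * s * F < n ^ 8)
    (hF : 2 ^ 170 * ℓ * E ^ 5 ≤ F) (hB : k ^ 2 * b * (2 ^ 70 * E ^ 2) ≤ n ^ 2)
    (hg1 : g ^ 3 * b ≤ n ^ 2 * k) (hg2 : n ^ 2 * k < 8 * g ^ 3 * b) :
    384 * E * k ^ 2 * T ≤ g * n ^ 2 ∧ 768 * 2 ^ 31 * E * g ^ 2 * k * b * T ≤ n ^ 4 ∧
      16 * 2 ^ 31 * E * k * b * g ≤ n ^ 2 ∧ 8 * E * k ^ 2 ≤ g ^ 2 := by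
  have hb0 : 0 < b := by rw [hb]; positivity
  have hk0 : 0 < k := by linarith
  have hg0 : 0 < g := by linarith
  have hn0 : 0 < n := by linarith
  have hE0 : 0 < E := by linarith
  have hE3 : E ^ 3 ≤ E ^ 5 := pow_le_pow_right₀ hE (by norm_num)
  have hE34 : E ^ 3 ≤ E ^ 4 := pow_le_pow_right₀ hE (by norm_num)
  have hBsq : k ^ 4 * b ^ 2 * (2 ^ 140 * E ^ 4) ≤ n ^ 4 := by
    have := pow_le_pow_left₀ (by positivity) hB 2
    calc k ^ 4 * b ^ 2 * (2 ^ 140 * E ^ 4) = (k ^ 2 * b * (2 ^ 70 * E ^ 2)) ^ 2 := by ring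
      _ ≤ (n ^ 2) ^ 2 := this
      _ = n ^ 4 := by ring
  refine ⟨?_, ?_, ?_, ?_⟩
  · have h3 : (384 * E * k ^ 2 * T) ^ 3 ≤ (g * n ^ 2) ^ 3 := by
      have hF1 : 80 * ℓ * (384 ^ 3 * E ^ 3) ≤ F := by
        refine le_trans ?_ hF
        have : ℓ * E ^ 3 ≤ ℓ * E ^ 5 := mul_le_mul_of_nonneg_left hE3 (by linarith)
        nlinarith [mul_pos (by linarith : (0:ℝ) < ℓ) (pow_pos hE0 5)]
      have e1 : T ^ 3 * k ^ 6 * s * F ≤ n ^ 8 * k := by
        have := mul_le_mul_of_nonneg_right hneg.le hk0.le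
        calc T ^ 3 * k ^ 6 * s * F = T ^ 3 * k ^ 5 * s * F * k := by ring
          _ ≤ n ^ 8 * k := this
      have e2 : n ^ 8 * k ≤ n ^ 6 * (8 * g ^ 3 * (10 * ℓ * s)) := by
        have := mul_le_mul_of_nonneg_left hg2.le (by positivity : (0:ℝ) ≤ n ^ 6)
        rw [hb] at this
        calc n ^ 8 * k = n ^ 6 * (n ^ 2 * k) := by ring
          _ ≤ _ := this
      have e3 : T ^ 3 * k ^ 6 * s * (80 * ℓ * (384 ^ 3 * E ^ 3)) ≤ T ^ 3 * k ^ 6 * s * F :=
        mul_le_mul_of_nonneg_left hF1 (by positivity)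
      have e4 : (80 * ℓ * s) * ((384 * E * k ^ 2 * T) ^ 3) ≤ (80 * ℓ * s) * ((g * n ^ 2) ^ 3) := by
        calc (80 * ℓ * s) * ((384 * E * k ^ 2 * T) ^ 3) = T ^ 3 * k ^ 6 * s * (80 * ℓ * (384 ^ 3 * E ^ 3)) := by ring
          _ ≤ T ^ 3 * k ^ 6 * s * F := e3
          _ ≤ n ^ 8 * k := e1
          _ ≤ n ^ 6 * (8 * g ^ 3 * (10 * ℓ * s)) := e2
          _ = _ := by ring
      exact le_of_mul_le_mul_left e4 (by positivity)
    exact le_of_pow_le_pow_left₀ (by norm_num) (by positivity) h3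
  · have h3 : (768 * 2 ^ 31 * E * g ^ 2 * k * b * T) ^ 3 ≤ (n ^ 4) ^ 3 := by
      have hF1 : 10 * ℓ * ((768 * 2 ^ 31) ^ 3 * E ^ 3) ≤ F := by
        refine le_trans ?_ hF
        have : ℓ * E ^ 3 ≤ ℓ * E ^ 5 := mul_le_mul_of_nonneg_left hE3 (by linarith)
        nlinarith [mul_pos (by linarith : (0:ℝ) < ℓ) (pow_pos hE0 5)]
      have e1 : g ^ 6 * b ^ 2 ≤ n ^ 4 * k ^ 2 := by
        have := pow_le_pow_left₀ (by positivity) hg1 2
        calc g ^ 6 * b ^ 2 = (g ^ 3 * b) ^ 2 := by ring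
          _ ≤ (n ^ 2 * k) ^ 2 := this
          _ = _ := by ring
      calc (768 * 2 ^ 31 * E * g ^ 2 * k * b * T) ^ 3
          = ((768 * 2 ^ 31) ^ 3 * E ^ 3 * k ^ 3 * b * T ^ 3) * (g ^ 6 * b ^ 2) := by ring
        _ ≤ ((768 * 2 ^ 31) ^ 3 * E ^ 3 * k ^ 3 * b * T ^ 3) * (n ^ 4 * k ^ 2) :=
            mul_le_mul_of_nonneg_left e1 (by positivity)
        _ = n ^ 4 * (T ^ 3 * k ^ 5 * s * (10 * ℓ * ((768 * 2 ^ 31) ^ 3 * E ^ 3))) := by rw [hb]; ring
        _ ≤ n ^ 4 * (T ^ 3 * k ^ 5 * s * F) := by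
            apply mul_le_mul_of_nonneg_left _ (by positivity)
            exact mul_le_mul_of_nonneg_left hF1 (by positivity)
        _ ≤ n ^ 4 * n ^ 8 := mul_le_mul_of_nonneg_left hneg.le (by positivity)
        _ = _ := by ring
    exact le_of_pow_le_pow_left₀ (by norm_num) (by positivity) h3
  · have h3 : (16 * 2 ^ 31 * E * k * b * g) ^ 3 ≤ (n ^ 2) ^ 3 := by
      calc (16 * 2 ^ 31 * E * k * b * g) ^ 3 = ((16 * 2 ^ 31) ^ 3 * E ^ 3 * k ^ 3 * b ^ 2) * (g ^ 3 * b) := by ring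
        _ ≤ ((16 * 2 ^ 31) ^ 3 * E ^ 3 * k ^ 3 * b ^ 2) * (n ^ 2 * k) :=
            mul_le_mul_of_nonneg_left hg1 (by positivity)
        _ = n ^ 2 * (k ^ 4 * b ^ 2 * ((16 * 2 ^ 31) ^ 3 * E ^ 3)) := by ring
        _ ≤ n ^ 2 * (k ^ 4 * b ^ 2 * (2 ^ 140 * E ^ 4)) := by
            apply mul_le_mul_of_nonneg_left _ (by positivity)
            apply mul_le_mul_of_nonneg_left _ (by positivity)
            nlinarith [pow_pos hE0 4]
        _ ≤ n ^ 2 * n ^ 4 := mul_le_mul_of_nonneg_left hBsq (by positivity)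
        _ = _ := by ring
    exact le_of_pow_le_pow_left₀ (by norm_num) (by positivity) h3
  · have h3 : (8 * E * k ^ 2) ^ 3 ≤ (g ^ 2) ^ 3 := by
      have e1 : n ^ 4 * k ^ 2 ≤ 64 * g ^ 6 * b ^ 2 := by
        have := pow_le_pow_left₀ (by positivity) hg2.le 2
        calc n ^ 4 * k ^ 2 = (n ^ 2 * k) ^ 2 := by ring
          _ ≤ (8 * g ^ 3 * b) ^ 2 := this
          _ = _ := by ring
      have e2 : b ^ 2 * (8 * E * k ^ 2) ^ 3 ≤ b ^ 2 * (g ^ 2) ^ 3 := by
        have e3 : 64 * (b ^ 2 * (8 * E * k ^ 2) ^ 3) ≤ 64 * (b ^ 2 * (g ^ 2) ^ 3) := by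
          calc 64 * (b ^ 2 * (8 * E * k ^ 2) ^ 3) = k ^ 2 * (k ^ 4 * b ^ 2 * (64 * 512 * E ^ 3)) := by ring
            _ ≤ k ^ 2 * (k ^ 4 * b ^ 2 * (2 ^ 140 * E ^ 4)) := by
                apply mul_le_mul_of_nonneg_left _ (by positivity)
                apply mul_le_mul_of_nonneg_left _ (by positivity)
                nlinarith [pow_pos hE0 4]
            _ ≤ k ^ 2 * n ^ 4 := mul_le_mul_of_nonneg_left hBsq (by positivity)
            _ = n ^ 4 * k ^ 2 := by ring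
            _ ≤ 64 * g ^ 6 * b ^ 2 := e1
            _ = _ := by ring
        exact le_of_mul_le_mul_left e3 (by norm_num)
      exact le_of_mul_le_mul_left e2 (by positivity)
    exact le_of_pow_le_pow_left₀ (by norm_num) (by positivity) h3

lemma beta_bound {n k S N cq : ℕ} (hn : 2 ≤ n) (hk : 1 ≤ k) (hN : N ≤ n ^ 3) (hcq : cq ≤ 2 ^ S) :
    ((3 * N * (cq * (n * n) ^ k) ^ 2 + 1 : ℕ) : ℝ) ≤
      (2 : ℝ) ^ (10 * Real.logb 2 n * ((S : ℝ) + k)) := by
  have hn0 : (0 : ℝ) < n := by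
    have : 0 < n := by omega
    exact_mod_cast this
  have hℓ : 1 ≤ Real.logb 2 n := by
    rw [Real.le_logb_iff_rpow_le (by norm_num) hn0, Real.rpow_one]
    exact_mod_cast hn
  have h1 : 3 * N * (cq * (n * n) ^ k) ^ 2 + 1 ≤ n ^ (5 + 4 * k) * 2 ^ (2 * S) := by
    have e1 : (cq * (n * n) ^ k) ^ 2 ≤ (2 ^ S * (n * n) ^ k) ^ 2 :=
      Nat.pow_le_pow_left (Nat.mul_le_mul_right _ hcq) 2
    have e2 : (2 ^ S * (n * n) ^ k) ^ 2 = n ^ (4 * k) * 2 ^ (2 * S) := by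
      rw [mul_pow, ← pow_mul, ← sq, ← pow_mul, ← pow_mul]
      ring
    have e3 : 1 ≤ n ^ 3 * (n ^ (4 * k) * 2 ^ (2 * S)) := by
      apply Nat.one_le_iff_ne_zero.2
      positivity
    calc 3 * N * (cq * (n * n) ^ k) ^ 2 + 1 ≤ 3 * n ^ 3 * (n ^ (4 * k) * 2 ^ (2 * S)) + 1 := by
          rw [← e2]
          gcongr
      _ ≤ 3 * n ^ 3 * (n ^ (4 * k) * 2 ^ (2 * S)) + n ^ 3 * (n ^ (4 * k) * 2 ^ (2 * S)) := by omega
      _ = 4 * (n ^ 3 * (n ^ (4 * k) * 2 ^ (2 * S))) := by ring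
      _ ≤ n ^ 2 * (n ^ 3 * (n ^ (4 * k) * 2 ^ (2 * S))) := by
          apply Nat.mul_le_mul_right
          nlinarith
      _ = _ := by ring
  have h2 : ((3 * N * (cq * (n * n) ^ k) ^ 2 + 1 : ℕ) : ℝ) ≤ ((n ^ (5 + 4 * k) * 2 ^ (2 * S) : ℕ) : ℝ) := by
    exact_mod_cast h1
  refine h2.trans ?_
  have h3 : (n : ℝ) = (2 : ℝ) ^ (Real.logb 2 n) := (Real.rpow_logb (by norm_num) (by norm_num) hn0).symm
  have h4 : ((n ^ (5 + 4 * k) * 2 ^ (2 * S) : ℕ) : ℝ) =
      (2 : ℝ) ^ (Real.logb 2 n * (5 + 4 * k) + 2 * S) := by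
    push_cast
    rw [Real.rpow_add (by norm_num), Real.rpow_mul (by norm_num), ← h3]
    congr 1
    · rw [← Real.rpow_natCast]
      push_cast
      rfl
    · rw [← Real.rpow_natCast]
      push_cast
      rfl
  rw [h4]
  apply Real.rpow_le_rpow_of_exponent_le (by norm_num)
  have hk' : (1 : ℝ) ≤ k := by exact_mod_cast hk
  have hS : (0 : ℝ) ≤ S := Nat.cast_nonneg S
  nlinarith [mul_nonneg (sub_nonneg.2 hℓ) hS]

set_option maxHeartbeats 4000000 in
/-- the main finite inequality -/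
theorem main_finite (n : ℕ) (F : ℝ) (hn : 2 ^ 20 ≤ n) (hslack : 2 ^ 170 * Real.logb 2 n * EE n ^ 5 ≤ F)
    (hslack2 : (4 * 2 ^ 31 * EE n) ^ 3 ≤ (n : ℝ) ^ 2)
    (k S T : ℕ) (hk : 1 ≤ k) (Q : Type) [Fintype Q] (hQ : Fintype.card Q ≤ 2 ^ S)
    (M : Machine n k Q) (hM : RecognisesTriangleFree M T) :
    (n : ℝ) ^ 8 ≤ (T : ℝ) ^ 3 * (k : ℝ) ^ 5 * ((S : ℝ) + k) * F := by
  by_contra hcon
  push Not at hcon
  have hM' : ∀ G, AcceptsAt (idle M) T G ↔ G.CliqueFree 3 := fun G => (idle_iff M T G).trans (hM G)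
  set E := EE n with hE
  set ℓ := Real.logb 2 n with hℓd
  set s : ℝ := (S : ℝ) + k with hs
  have hE1 : 1 ≤ E := one_le_EE n
  have hE0 : 0 < E := EE_pos n
  have hn1 : (1 : ℝ) ≤ n := by
    have : 1 ≤ n := by omega
    exact_mod_cast this
  have hn0 : (0 : ℝ) < n := by linarith
  have hℓ1 : 1 ≤ ℓ := by
    rw [hℓd, Real.le_logb_iff_rpow_le (by norm_num) hn0, Real.rpow_one]
    have : 2 ≤ n := by omega
    exact_mod_cast this
  have hkr : (1 : ℝ) ≤ k := by exact_mod_cast hk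
  have hs0 : 0 < s := by rw [hs]; positivity
  have hks : (k : ℝ) ≤ s := by rw [hs]; linarith [Nat.cast_nonneg (α := ℝ) S]
  have hT0 : (0 : ℝ) ≤ T := Nat.cast_nonneg T
  have hF1 : 1 ≤ F := by
    refine le_trans ?_ hslack
    have h1 : 1 ≤ E ^ 5 := one_le_pow₀ hE1
    nlinarith [mul_le_mul hℓ1 h1 (by norm_num) (by linarith)]
  set b : ℝ := 10 * ℓ * s with hb
  have hb0 : 0 < b := by rw [hb]; positivity
  have hkb : (k : ℝ) ≤ b := by
    rw [hb]
    nlinarith [mul_le_mul hℓ1 hks (by linarith) (by linarith)]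
  by_cases hcase : (k : ℝ) ^ 2 * b * (2 ^ 70 * E ^ 2) ≤ (n : ℝ) ^ 2
  · -- case B
    set x : ℝ := (n : ℝ) ^ 2 * k / b with hx
    have hx1 : 1 ≤ x := by
      rw [hx, le_div_iff₀ hb0, one_mul]
      have h1 : b ≤ (k : ℝ) ^ 2 * b * (2 ^ 70 * E ^ 2) := by
        have h2 : (1 : ℝ) ≤ (k : ℝ) ^ 2 * (2 ^ 70 * E ^ 2) := by
          have h3 : (1 : ℝ) ≤ (k : ℝ) ^ 2 := one_le_pow₀ hkr
          have h4 : (1 : ℝ) ≤ E ^ 2 := one_le_pow₀ hE1
          nlinarith [mul_le_mul h3 h4 (by norm_num) (by positivity)]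
        calc b = 1 * b := by ring
          _ ≤ ((k : ℝ) ^ 2 * (2 ^ 70 * E ^ 2)) * b := mul_le_mul_of_nonneg_right h2 hb0.le
          _ = _ := by ring
      have h5 : (n : ℝ) ^ 2 ≤ (n : ℝ) ^ 2 * k := by nlinarith [pow_pos hn0 2]
      linarith
    set g : ℕ := ⌊x ^ ((1 : ℝ) / 3)⌋₊ with hg
    have hy1 : 1 ≤ x ^ ((1 : ℝ) / 3) := Real.one_le_rpow hx1 (by norm_num)
    have hcube : (x ^ ((1 : ℝ) / 3)) ^ 3 = x := by
      rw [← Real.rpow_natCast, ← Real.rpow_mul (by linarith)]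
      norm_num
    have hg1 : 1 ≤ g := by
      rw [hg]
      exact Nat.le_floor (by exact_mod_cast hy1)
    have hgr : (1 : ℝ) ≤ g := by exact_mod_cast hg1
    have hgle : (g : ℝ) ≤ x ^ ((1 : ℝ) / 3) := Nat.floor_le (by linarith)
    have hglt : x ^ ((1 : ℝ) / 3) < 2 * g := by
      have := Nat.lt_floor_add_one (x ^ ((1 : ℝ) / 3))
      rw [← hg] at this
      linarith
    have hg3 : (g : ℝ) ^ 3 ≤ x := by
      rw [← hcube]
      exact pow_le_pow_left₀ (by linarith) hgle 3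
    have hg3' : x < 8 * (g : ℝ) ^ 3 := by
      have := pow_lt_pow_left₀ hglt (by linarith) (n := 3) (by norm_num)
      rw [hcube] at this
      calc x < (2 * (g : ℝ)) ^ 3 := this
        _ = _ := by ring
    have hga : (g : ℝ) ^ 3 * b ≤ (n : ℝ) ^ 2 * k := by
      have := mul_le_mul_of_nonneg_right hg3 hb0.le
      rwa [hx, div_mul_cancel₀ _ hb0.ne'] at this
    have hgb : (n : ℝ) ^ 2 * k < 8 * (g : ℝ) ^ 3 * b := by
      have := mul_lt_mul_of_pos_right hg3' hb0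
      rwa [hx, div_mul_cancel₀ _ hb0.ne'] at this
    have hg3n : (g : ℝ) ^ 3 ≤ (n : ℝ) ^ 2 := by
      have h1 : (g : ℝ) ^ 3 * b ≤ (n : ℝ) ^ 2 * b := hga.trans (mul_le_mul_of_nonneg_left hkb (by positivity))
      exact le_of_mul_le_mul_right h1 hb0
    have hv : 4 * 2 ^ 31 * E * (g : ℝ) ^ 2 ≤ (n : ℝ) ^ 2 := by
      have h1 : (4 * 2 ^ 31 * E * (g : ℝ) ^ 2) ^ 3 ≤ ((n : ℝ) ^ 2) ^ 3 := by
        calc (4 * 2 ^ 31 * E * (g : ℝ) ^ 2) ^ 3 = (4 * 2 ^ 31 * E) ^ 3 * ((g : ℝ) ^ 3) ^ 2 := by ring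
          _ ≤ (n : ℝ) ^ 2 * ((n : ℝ) ^ 2) ^ 2 := by
              apply mul_le_mul hslack2 _ (by positivity) (by positivity)
              exact pow_le_pow_left₀ (by positivity) hg3n 2
          _ = _ := by ring
      exact le_of_pow_le_pow_left₀ (by norm_num) (by positivity) h1
    have h24 : 24 * g ≤ n := by
      have h1 : (24 * (g : ℝ)) ^ 3 ≤ (n : ℝ) ^ 3 := by
        calc (24 * (g : ℝ)) ^ 3 = 13824 * (g : ℝ) ^ 3 := by ring
          _ ≤ 13824 * (n : ℝ) ^ 2 := by linarith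
          _ ≤ n * (n : ℝ) ^ 2 := by
              apply mul_le_mul_of_nonneg_right _ (by positivity)
              have : 13824 ≤ n := by omega
              exact_mod_cast this
          _ = _ := by ring
      have h2 : 24 * (g : ℝ) ≤ n := le_of_pow_le_pow_left₀ (by norm_num) (by positivity) h1
      exact_mod_cast h2
    obtain ⟨t, L, hLg, hLw, hLA, hLt, hLw2⟩ := layout_exists n g hg1 h24 hv
    rw [← hE] at hLA hLt
    obtain ⟨c1, c2, c3, c4⟩ := algB (n := n) (k := k) (T := T) (s := s) (b := b) (g := g) (E := E)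
      (ℓ := ℓ) (F := F) hn1 hkr hT0 hs0 hE1 hℓ1 hb hgr hcon hslack hcase hga hgb
    have hw1 : 1 ≤ L.w := by
      rw [hLw]
      exact (Nat.one_le_div_iff (by omega)).2 h24
    have hwr : (0 : ℝ) < L.w := by exact_mod_cast hw1
    set N : ℕ := T / (L.w * n) + 1 with hN
    have hnpos : 0 < n := by omega
    have hwn : 0 < L.w * n := Nat.mul_pos hw1 hnpos
    have hNT : T ≤ N * (L.w * n) := by
      have := Nat.lt_div_mul_add (a := T) hwn
      rw [hN, Nat.add_mul, one_mul]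
      exact this.le
    have hNr : (N : ℝ) ≤ 48 * g * T / (n : ℝ) ^ 2 + 1 := by
      rw [hN]
      push_cast
      have h1 : ((T / (L.w * n) : ℕ) : ℝ) ≤ (T : ℝ) / ((L.w * n : ℕ) : ℝ) := Nat.cast_div_le
      have h2 : (T : ℝ) / ((L.w * n : ℕ) : ℝ) ≤ 48 * g * T / (n : ℝ) ^ 2 := by
        push_cast
        rw [div_le_div_iff₀ (by positivity) (by positivity)]
        have h3 : (n : ℝ) ≤ 48 * g * L.w := by
          rw [div_le_iff₀ (by positivity)] at hLw2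
          linarith
        calc (T : ℝ) * (n : ℝ) ^ 2 = (T * n) * n := by ring
          _ ≤ (T * n) * (48 * g * L.w) := mul_le_mul_of_nonneg_left h3 (by positivity)
          _ = _ := by ring
      linarith
    have hg0 : (0 : ℝ) < g := by linarith
    -- hypothesis 1
    have hh1 : 4 * (N * k ^ 2) ≤ L.g * L.A.card := by
      have hr : (4 : ℝ) * (N * (k : ℝ) ^ 2) ≤ g * ((g : ℝ) / E) := by
        have e1 : (4 : ℝ) * (N * (k : ℝ) ^ 2) ≤ 4 * ((48 * g * T / (n : ℝ) ^ 2 + 1) * (k : ℝ) ^ 2) := by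
          apply mul_le_mul_of_nonneg_left _ (by norm_num)
          exact mul_le_mul_of_nonneg_right hNr (by positivity)
        have e2 : 192 * (k : ℝ) ^ 2 * g * T / (n : ℝ) ^ 2 ≤ (g : ℝ) ^ 2 / (2 * E) := by
          rw [div_le_div_iff₀ (by positivity) (by positivity)]
          have := mul_le_mul_of_nonneg_left c1 hg0.le
          nlinarith [this]
        have e3 : 4 * (k : ℝ) ^ 2 ≤ (g : ℝ) ^ 2 / (2 * E) := by
          rw [le_div_iff₀ (by positivity)]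
          nlinarith [c4]
        have e4 : 4 * ((48 * g * T / (n : ℝ) ^ 2 + 1) * (k : ℝ) ^ 2) =
            192 * (k : ℝ) ^ 2 * g * T / (n : ℝ) ^ 2 + 4 * (k : ℝ) ^ 2 := by ring
        have e5 : (g : ℝ) * ((g : ℝ) / E) = (g : ℝ) ^ 2 / (2 * E) + (g : ℝ) ^ 2 / (2 * E) := by
          field_simp
          ring
        rw [e5]
        rw [e4] at e1
        linarith
      have hr2 : (g : ℝ) * ((g : ℝ) / E) ≤ (L.g : ℝ) * L.A.card := by
        rw [hLg]
        exact mul_le_mul_of_nonneg_left hLA hg0.le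
      exact_mod_cast hr.trans hr2
    set c : ℕ := 4 * (N * k) / g with hc
    have hh2 : 4 * (N * k) < (c + 1) * L.g := by
      rw [hLg, hc]
      have := Nat.lt_div_mul_add (a := 4 * (N * k)) (b := g) hg1
      calc 4 * (N * k) < 4 * (N * k) / g * g + g := this
        _ = (4 * (N * k) / g + 1) * g := by ring
    have hA0 : 0 < L.A.card := by
      have : (0 : ℝ) < L.A.card := lt_of_lt_of_le (by positivity) hLA
      exact_mod_cast this
    have hsim := sim_bound L (idle M) T N c hM' hNT hh1 hh2 hA0 (by rw [hLg]; exact hg1)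
    -- N ≤ n ^ 3
    have hTn : T < n ^ 3 := by
      have h1 : (T : ℝ) ^ 3 < ((n : ℝ) ^ 3) ^ 3 := by
        have h2 : (T : ℝ) ^ 3 ≤ (T : ℝ) ^ 3 * (k : ℝ) ^ 5 * s * F := by
          have a1 : (1 : ℝ) ≤ (k : ℝ) ^ 5 := one_le_pow₀ hkr
          have a2 : (1 : ℝ) ≤ s := hkr.trans hks
          have a3 : (1 : ℝ) ≤ (k : ℝ) ^ 5 * s := by nlinarith
          have a4 : (1 : ℝ) ≤ (k : ℝ) ^ 5 * s * F := by nlinarith
          calc (T : ℝ) ^ 3 = (T : ℝ) ^ 3 * 1 := by ring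
            _ ≤ (T : ℝ) ^ 3 * ((k : ℝ) ^ 5 * s * F) := mul_le_mul_of_nonneg_left a4 (by positivity)
            _ = _ := by ring
        have h3 : (n : ℝ) ^ 8 ≤ ((n : ℝ) ^ 3) ^ 3 := by
          rw [← pow_mul]
          exact pow_le_pow_right₀ hn1 (by norm_num)
        linarith
      have h2 : (T : ℝ) < (n : ℝ) ^ 3 := lt_of_pow_lt_pow_left₀ 3 (by positivity) h1
      exact_mod_cast h2
    have hNn : N ≤ n ^ 3 := by
      rw [hN]
      have : T / (L.w * n) ≤ T := Nat.div_le_self _ _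
      omega
    have hbeta := beta_bound (n := n) (k := k) (S := S) (N := N) (cq := Fintype.card Q) (by omega) hk hNn hQ
    have hpow : (2 : ℝ) ^ (t : ℝ) ≤ (2 : ℝ) ^ (1 + b * c) := by
      have h1 : ((2 ^ t : ℕ) : ℝ) ≤ ((2 * (3 * N * (Fintype.card Q * (n * n) ^ k) ^ 2 + 1) ^ c : ℕ) : ℝ) := by
        exact_mod_cast hsim
      rw [Real.rpow_natCast]
      push_cast at h1
      refine h1.trans ?_
      rw [Real.rpow_add (by norm_num), Real.rpow_one, Real.rpow_mul (by norm_num), Real.rpow_natCast]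
      apply mul_le_mul_of_nonneg_left _ (by norm_num)
      apply pow_le_pow_left₀ (by positivity)
      have h2 := hbeta
      push_cast at h2
      rw [hb, hs]
      exact h2
    have htle : (t : ℝ) ≤ 1 + b * c := by
      exact (Real.rpow_le_rpow_left_iff (by norm_num)).1 hpow
    set u : ℝ := (n : ℝ) ^ 2 / (4 * 2 ^ 31 * E * (g : ℝ) ^ 2) with hu
    have hu1 : 1 ≤ u := by
      rw [hu, le_div_iff₀ (by positivity), one_mul]
      exact hv
    have htu : 4 * u ≤ t := by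
      refine le_trans (le_of_eq ?_) hLt
      rw [hu]
      field_simp
    have hcr : (c : ℝ) ≤ 4 * (N * k) / g := by
      rw [hc]
      refine (Nat.cast_div_le).trans ?_
      push_cast
      exact le_rfl
    have hbc : b * c ≤ 2 * u := by
      have e1 : b * c ≤ b * (4 * ((48 * g * T / (n : ℝ) ^ 2 + 1) * k) / g) := by
        apply mul_le_mul_of_nonneg_left _ hb0.le
        refine hcr.trans ?_
        apply div_le_div_of_nonneg_right _ hg0.le
        apply mul_le_mul_of_nonneg_left _ (by norm_num)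
        exact mul_le_mul_of_nonneg_right hNr (by positivity)
      have e2 : b * (4 * ((48 * g * T / (n : ℝ) ^ 2 + 1) * k) / g) =
          192 * k * b * T / (n : ℝ) ^ 2 + 4 * k * b / g := by
        field_simp
        ring
      have e3 : 192 * k * b * T / (n : ℝ) ^ 2 ≤ u := by
        rw [hu, div_le_div_iff₀ (by positivity) (by positivity)]
        calc 192 * (k : ℝ) * b * T * (4 * 2 ^ 31 * E * (g : ℝ) ^ 2)
            = 768 * 2 ^ 31 * E * (g : ℝ) ^ 2 * k * b * T := by ring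
          _ ≤ (n : ℝ) ^ 4 := c2
          _ = _ := by ring
      have e4 : 4 * k * b / g ≤ u := by
        rw [hu, div_le_div_iff₀ (by positivity) (by positivity)]
        calc 4 * (k : ℝ) * b * (4 * 2 ^ 31 * E * (g : ℝ) ^ 2)
            = (16 * 2 ^ 31 * E * k * b * g) * g := by ring
          _ ≤ (n : ℝ) ^ 2 * g := mul_le_mul_of_nonneg_right c3 hg0.le
      rw [e2] at e1
      linarith
    linarith
  · -- case A
    push Not at hcase
    have hv : 4 * 2 ^ 31 * E * ((1 : ℕ) : ℝ) ^ 2 ≤ (n : ℝ) ^ 2 := by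
      have h1 : (4 * 2 ^ 31 * E) ≤ (4 * 2 ^ 31 * E) ^ 3 := by
        have : 1 ≤ 4 * 2 ^ 31 * E := by nlinarith
        calc (4 * 2 ^ 31 * E) = (4 * 2 ^ 31 * E) ^ 1 := by ring
          _ ≤ _ := pow_le_pow_right₀ this (by norm_num)
      push_cast
      linarith
    obtain ⟨t, L, hLg, hLw, hLA, hLt, hLw2⟩ := layout_exists n 1 le_rfl (by omega) hv
    have hread := read_bound L (idle M) T hM'
    have hA1 : 1 ≤ L.A.card := by
      have : (0 : ℝ) < L.A.card := lt_of_lt_of_le (by positivity) hLA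
      exact_mod_cast this
    have htT : t ≤ T * k := by
      rw [hLg] at hread
      calc t = 1 * 1 * t := by ring
        _ ≤ 1 * L.A.card * t := by gcongr
        _ ≤ _ := hread
    have htr : (n : ℝ) ^ 2 / (2 ^ 31 * E) ≤ T * k := by
      have h1 : (t : ℝ) ≤ T * k := by exact_mod_cast htT
      refine le_trans ?_ h1
      simpa using hLt
    have h3 : ((n : ℝ) ^ 2 / (2 ^ 31 * E)) ^ 3 ≤ (T * k) ^ 3 := pow_le_pow_left₀ (by positivity) htr 3
    rw [div_pow, div_le_iff₀ (by positivity)] at h3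
    -- n^8 < T^3 k^5 s * (10 ℓ 2^93 E^3 2^70 E^2)
    have h5 : (n : ℝ) ^ 8 ≤ (T : ℝ) ^ 3 * (k : ℝ) ^ 5 * s * (2 ^ 170 * ℓ * E ^ 5) := by
      calc (n : ℝ) ^ 8 = ((n : ℝ) ^ 2) ^ 3 * (n : ℝ) ^ 2 := by ring
        _ ≤ ((T * k) ^ 3 * (2 ^ 31 * E) ^ 3) * ((k : ℝ) ^ 2 * b * (2 ^ 70 * E ^ 2)) := by
            apply mul_le_mul h3 hcase.le (by positivity) (by positivity)
        _ = ((T : ℝ) ^ 3 * (k : ℝ) ^ 5 * s) * (10 * 2 ^ 163 * ℓ * E ^ 5) := by rw [hb]; ring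
        _ ≤ ((T : ℝ) ^ 3 * (k : ℝ) ^ 5 * s) * (2 ^ 170 * ℓ * E ^ 5) := by
            apply mul_le_mul_of_nonneg_left _ (by positivity)
            have : 0 ≤ ℓ * E ^ 5 := by positivity
            nlinarith
    have h6 : (T : ℝ) ^ 3 * (k : ℝ) ^ 5 * s * (2 ^ 170 * ℓ * E ^ 5) ≤ (T : ℝ) ^ 3 * (k : ℝ) ^ 5 * s * F :=
      mul_le_mul_of_nonneg_left hslack (by positivity)
    linarith

lemma slack (ε : ℝ) (hε : 0 < ε) : ∃ n0 : ℕ, ∀ n ≥ n0, 2 ^ 20 ≤ n ∧
    2 ^ 170 * Real.logb 2 n * EE n ^ 5 ≤ (n : ℝ) ^ ε ∧ (4 * 2 ^ 31 * EE n) ^ 3 ≤ (n : ℝ) ^ 2 := by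
  set Y : ℝ := max (193 / ε) 56 with hY
  refine ⟨⌈Real.exp (Y ^ 2)⌉₊ + 2 ^ 20, fun n hn => ?_⟩
  have hn20 : 2 ^ 20 ≤ n := by omega
  have hnpos : (0 : ℝ) < n := by
    have : 0 < n := by omega
    exact_mod_cast this
  have hnexp : Real.exp (Y ^ 2) ≤ n := by
    refine (Nat.le_ceil _).trans ?_
    have : ⌈Real.exp (Y ^ 2)⌉₊ ≤ n := by omega
    exact_mod_cast this
  have hlog : Y ^ 2 ≤ Real.log n := by
    rw [Real.le_log_iff_exp_le hnpos]
    exact hnexp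
  have hY56 : (56 : ℝ) ≤ Y := le_max_right _ _
  have hYε : 193 / ε ≤ Y := le_max_left _ _
  set y : ℝ := √(Real.log n) with hy
  have hlog0 : 0 ≤ Real.log n := le_trans (sq_nonneg _) hlog
  have hyy : y ^ 2 = Real.log n := Real.sq_sqrt hlog0
  have hyY : Y ≤ y := by
    rw [hy]
    exact Real.le_sqrt_of_sq_le hlog
  have hy56 : 56 ≤ y := hY56.trans hyY
  have hyε : 193 ≤ ε * y := by
    have := hYε.trans hyY
    rw [div_le_iff₀ hε] at this
    linarith
  have hE : EE n = Real.exp (4 * y) := rfl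
  have hpow : (n : ℝ) ^ ε = Real.exp (ε * y ^ 2) := by
    rw [Real.rpow_def_of_pos hnpos, hyy, mul_comm]
  have hn2 : (n : ℝ) ^ 2 = Real.exp (2 * y ^ 2) := by
    rw [hyy, mul_comm, Real.exp_mul, Real.exp_log hnpos]
    norm_num
  have two_le : (2 : ℝ) ≤ Real.exp 1 := by
    have := Real.add_one_le_exp (1 : ℝ)
    linarith
  refine ⟨hn20, ?_, ?_⟩
  · rw [hpow, hE]
    have hlb : Real.logb 2 n ≤ 2 * Real.exp (2 * y) := by
      rw [Real.logb, ← hyy, div_le_iff₀ (Real.log_pos (by norm_num))]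
      have h1 : y ≤ Real.exp y := by linarith [Real.add_one_le_exp y]
      have h2 : y ^ 2 ≤ Real.exp (2 * y) := by
        have := pow_le_pow_left₀ (by linarith) h1 2
        rwa [← Real.exp_nat_mul] at this
      have h3 : (0.5 : ℝ) ≤ Real.log 2 := by linarith [Real.log_two_gt_d9]
      nlinarith [Real.exp_pos (2 * y)]
    calc 2 ^ 170 * Real.logb 2 n * Real.exp (4 * y) ^ 5
        ≤ 2 ^ 170 * (2 * Real.exp (2 * y)) * Real.exp (4 * y) ^ 5 := by
          gcongr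
      _ = 2 ^ 171 * Real.exp (22 * y) := by
          have e1 : Real.exp (4 * y) ^ 5 = Real.exp (20 * y) := by
            rw [← Real.exp_nat_mul]
            congr 1
            push_cast
            ring
          have e2 : Real.exp (22 * y) = Real.exp (2 * y) * Real.exp (20 * y) := by
            rw [← Real.exp_add]
            congr 1
            ring
          rw [e1, e2]
          ring
      _ ≤ Real.exp 1 ^ 171 * Real.exp (22 * y) := by
          gcongr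
      _ = Real.exp (171 + 22 * y) := by
          rw [← Real.exp_nat_mul, ← Real.exp_add]
          norm_num
      _ ≤ Real.exp (ε * y ^ 2) := by
          apply Real.exp_le_exp.2
          nlinarith
  · rw [hn2, hE]
    calc (4 * 2 ^ 31 * Real.exp (4 * y)) ^ 3 = 2 ^ 99 * Real.exp (12 * y) := by
          rw [mul_pow, ← Real.exp_nat_mul]
          congr 1
          · norm_num
          · congr 1
            push_cast
            ring
      _ ≤ Real.exp 1 ^ 99 * Real.exp (12 * y) := by gcongr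
      _ = Real.exp (99 + 12 * y) := by
          rw [← Real.exp_nat_mul, ← Real.exp_add]
          norm_num
      _ ≤ Real.exp (2 * y ^ 2) := by
          apply Real.exp_le_exp.2
          nlinarith

theorem main (ε : ℝ) (hε : 0 < ε) : ∃ n0 : ℕ, ∀ n ≥ n0, ∀ k S T : ℕ, 1 ≤ k →
    ∀ (Q : Type) [Fintype Q], Fintype.card Q ≤ 2 ^ S → ∀ M : Machine n k Q,
      RecognisesTriangleFree M T →
      (n : ℝ) ^ (8 - ε) ≤ (T : ℝ) ^ 3 * (k : ℝ) ^ 5 * ((S : ℝ) + k) := by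
  obtain ⟨n0, hn0⟩ := slack ε hε
  refine ⟨n0, fun n hn k S T hk Q _ hQ M hM => ?_⟩
  obtain ⟨h1, h2, h3⟩ := hn0 n hn
  have h := main_finite n ((n : ℝ) ^ ε) h1 h2 h3 k S T hk Q hQ M hM
  have hnpos : (0 : ℝ) < n := by
    have : 0 < n := by omega
    exact_mod_cast this
  have hpos : 0 < (n : ℝ) ^ ε := Real.rpow_pos_of_pos hnpos ε
  rw [Real.rpow_sub hnpos, div_le_iff₀ hpos]
  refine le_trans (le_of_eq ?_) h
  rw [← Real.rpow_natCast]
  norm_num

end Pool.Agent.Lib_helper21.Seq
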