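import Mathlib

/-!
Constant-depth circuits for graph properties: the model.
-/

namespace Pool.Agent.Lib_helper21.TriCircuit

/-- A Boolean circuit (an acyclic network of gates with unbounded fan-out) whose input variables
are indexed by `ι`. A node is an input variable or a gate; `fanin g` is the set of nodes feeding
the gate `g`, and `fn g` computes the output of `g` from the values of the nodes. Each gate is
either of AND/OR type with unbounded fan-in (it outputs `o` exactly when at least one node `u`
feeding it has the value `κ u`; this covers AND, OR, NAND and NOR with arbitrary negations on the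
wires), or an arbitrary Boolean function of at most `b` nodes. Gates feeding `g` have a smaller
level than `g`, so a circuit all of whose levels are smaller than `d` has depth at most `d`. -/
structure Circuit (ι : Type) (b : ℕ) where
  size : ℕ
  fanin : Fin size → Finset (ι ⊕ Fin size)
  fn : Fin size → (ι ⊕ Fin size → Bool) → Bool
  level : Fin size → ℕ
  out : Fin size
  acyclic : ∀ g h, Sum.inr h ∈ fanin g → level h < level g
  kind : ∀ g,
    (∃ (κ : ι ⊕ Fin size → Bool) (o : Bool), ∀ v, fn g v = o ↔ ∃ u ∈ fanin g, v u = κ u) ∨
    ((fanin g).card ≤ b ∧ ∀ v w, (∀ u ∈ fanin g, v u = w u) → fn g v = fn g w)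

/-- `v` is the assignment of values to the gates produced by the input `x`. (It exists and is
unique for every `x`, see `Circuit.existsUnique_run`.) -/
def Circuit.Run {ι : Type} {b : ℕ} (C : Circuit ι b) (x : ι → Bool) (v : Fin C.size → Bool) :
    Prop :=
  ∀ g, v g = C.fn g (Sum.elim x v)

open Classical in
/-- The circuit, reading one bit for every pair of vertices, outputs `true` exactly on the graphs
on `n` vertices that contain a triangle. -/
def Circuit.DetectsTriangles {n b : ℕ} (C : Circuit (Sym2 (Fin n)) b) : Prop :=
  ∀ G : SimpleGraph (Fin n), ∃ v, C.Run (fun e => decide (e ∈ G.edgeSet)) v ∧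
    (v C.out = true ↔ ¬ G.CliqueFree 3)

end Pool.Agent.Lib_helper21.TriCircuit
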