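import Pool.Agent.Lib_helper21.TriRoundF
import Pool.Agent.Lib_helper21.TriCircuitDefs

/-!
Superlinear lower bound for constant-depth circuits detecting triangles.
-/

namespace Pool.Agent.Lib_helper21.TriCircuit

open Finset Pool.Agent.Lib_helper21.TriRound

lemma bool_eq {a b o : Bool} (h1 : a = o → b = o) (h2 : b = o → a = o) : a = b := by
  cases a <;> cases b <;> cases o <;> simp_all

lemma fn_congr {ι : Type} {b : ℕ} (C : Circuit ι b) (g : Fin C.size)
    (v w : ι ⊕ Fin C.size → Bool) (h : ∀ u ∈ C.fanin g, v u = w u) : C.fn g v = C.fn g w := by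
  rcases C.kind g with ⟨κ, o, hk⟩ | ⟨_, hk⟩
  · have : C.fn g v = o ↔ C.fn g w = o := by
      rw [hk, hk]
      constructor
      · rintro ⟨u, hu, hv⟩; exact ⟨u, hu, by rw [← h u hu]; exact hv⟩
      · rintro ⟨u, hu, hv⟩; exact ⟨u, hu, by rw [h u hu]; exact hv⟩
    exact bool_eq this.1 this.2
  · exact hk v w h

/-- Every input has exactly one run. -/
theorem Circuit.existsUnique_run {ι : Type} {b : ℕ} (C : Circuit ι b) (x : ι → Bool) :
    ∃! v, C.Run x v := by
  classical
  -- synchronous evaluation
  let ev : ℕ → Fin C.size → Bool := fun k =>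
    Nat.rec (fun _ => false) (fun _ v g => C.fn g (Sum.elim x v)) k
  have hev : ∀ k g, ev (k + 1) g = C.fn g (Sum.elim x (ev k)) := fun k g => rfl
  have stab : ∀ L k k' g, C.level g < L → L ≤ k → L ≤ k' → ev k g = ev k' g := by
    intro L
    induction L with
    | zero => intro k k' g h; omega
    | succ L ih =>
      intro k k' g hg hk hk'
      obtain ⟨k, rfl⟩ : ∃ m, k = m + 1 := ⟨k - 1, by omega⟩
      obtain ⟨k', rfl⟩ : ∃ m, k' = m + 1 := ⟨k' - 1, by omega⟩
      rw [hev, hev]
      apply fn_congr
      intro u hu
      rcases u with i | h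
      · rfl
      · have := C.acyclic g h hu
        exact ih k k' h (by omega) (by omega) (by omega)
  obtain ⟨D, hD⟩ : ∃ D, ∀ g, C.level g < D := by
    refine ⟨(univ.sup C.level) + 1, fun g => ?_⟩
    have : C.level g ≤ univ.sup C.level := le_sup (f := C.level) (mem_univ g)
    omega
  refine ⟨ev D, ?_, ?_⟩
  · intro g
    rw [stab D D (D + 1) g (hD g) le_rfl (by omega), hev]
  · intro w hw
    have : ∀ L g, C.level g < L → w g = ev D g := by
      intro L
      induction L with
      | zero => intro g h; omega
      | succ L ih =>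
        intro g hg
        rw [hw g, stab D D (D + 1) g (hD g) le_rfl (by omega), hev]
        apply fn_congr
        intro u hu
        rcases u with i | h
        · rfl
        · have := C.acyclic g h hu
          exact ih h (by omega)
    funext g
    exact this (C.level g + 1) g (by omega)

lemma stage_diag {n : ℕ} (st : Stage n) {x : Inp n} (hx : st.Cube x) (e : Sym2 (Fin n))
    (he : e.IsDiag) : x e = false := by
  rw [hx e (fun h => st.nodiag e h he)]
  exact st.diagβ e he

/-- the graph of an input -/
def graphOf {n : ℕ} (x : Inp n) : SimpleGraph (Fin n) :=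
  SimpleGraph.fromEdgeSet {e | x e = true}

lemma mem_graphOf {n : ℕ} {x : Inp n} (hx : ∀ e : Sym2 (Fin n), e.IsDiag → x e = false)
    (e : Sym2 (Fin n)) : e ∈ (graphOf x).edgeSet ↔ x e = true := by
  unfold graphOf
  rw [SimpleGraph.edgeSet_fromEdgeSet]
  constructor
  · rintro ⟨h, _⟩; exact h
  · intro h
    refine ⟨h, fun hd => ?_⟩
    have := hx e hd
    rw [h] at this
    exact absurd this (by simp)

lemma cliqueFree_iff {n : ℕ} (x : Inp n) (hx : ∀ e : Sym2 (Fin n), e.IsDiag → x e = false) :
    (¬ (graphOf x).CliqueFree 3) ↔ HasTri x := by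
  have hadj : ∀ a b, (graphOf x).Adj a b ↔ x s(a, b) = true := by
    intro a b
    rw [← SimpleGraph.mem_edgeSet, mem_graphOf hx]
  unfold SimpleGraph.CliqueFree
  push Not
  constructor
  · rintro ⟨s, hs⟩
    rw [SimpleGraph.is3Clique_iff] at hs
    obtain ⟨a, b, c, h1, h2, h3, _⟩ := hs
    exact ⟨a, b, c, (hadj a b).1 h1, (hadj b c).1 h3, (hadj a c).1 h2⟩
  · rintro ⟨a, b, c, h1, h2, h3⟩
    refine ⟨{a, b, c}, ?_⟩
    rw [SimpleGraph.is3Clique_iff]
    exact ⟨a, b, c, (hadj a b).2 h1, (hadj a c).2 h3, (hadj b c).2 h2, rfl⟩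

lemma input_eq {n : ℕ} (x : Inp n) (hx : ∀ e : Sym2 (Fin n), e.IsDiag → x e = false)
    [∀ e, Decidable (e ∈ (graphOf x).edgeSet)] :
    (fun e => decide (e ∈ (graphOf x).edgeSet)) = x := by
  funext e
  by_cases h : x e = true
  · rw [h]; simpa using (mem_graphOf hx e).2 h
  · have : x e = false := by simpa using h
    rw [this]
    simp only [decide_eq_false_iff_not, mem_graphOf hx]
    exact h

/-- The lower bound. -/
theorem main (n d b : ℕ) (hd : 1 ≤ d) (hn : 1024 ^ 4 ^ (d - 1) ≤ n)
    (C : Circuit (Sym2 (Fin n)) b) (hC : ∀ g, C.level g < d) (hT : C.DetectsTriangles) :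
    (n : ℝ) ^ (2 + 1 / (4 : ℝ) ^ (d - 1)) ≤
      1024 * ((max (576 * (Nat.log 2 n + 1) ^ 2) b : ℕ) : ℝ) ^ 2 * C.size := by
  classical
  by_contra hcon
  push Not at hcon
  set Δ : ℕ := max (576 * (Nat.log 2 n + 1) ^ 2) b with hΔ
  have hN : (C.size : ℝ) * Δ ^ 2 * 1024 < (n : ℝ) ^ (2 + 1 / (4 : ℝ) ^ (d - 1)) := by
    calc (C.size : ℝ) * Δ ^ 2 * 1024 = 1024 * (Δ : ℝ) ^ 2 * C.size := by ring
      _ < _ := hcon
  obtain ⟨hM, hMn, hbad, hn0, hs⟩ := numeric n d C.size Δ hn (le_max_left _ _) hN
  -- the runs
  have hv : ∀ x : Inp n, ∃ v : Fin C.size → Bool, (∀ e : Sym2 (Fin n), e.IsDiag → x e = false) →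
      C.Run x v ∧ (v C.out = true ↔ HasTri x) := by
    intro x
    by_cases hx : ∀ e : Sym2 (Fin n), e.IsDiag → x e = false
    · obtain ⟨v, h1, h2⟩ := hT (graphOf x)
      rw [input_eq x hx] at h1
      refine ⟨v, fun _ => ⟨h1, ?_⟩⟩
      rw [h2, cliqueFree_iff x hx]
    · exact ⟨fun _ => false, fun h => absurd h hx⟩
  choose v hv using hv
  have hstep : ∀ i < d, ∀ st : Stage n, (∀ g, C.level g < i → st.DepOne (fun x => v x g)) →
      96 * Mpar n d ≤ (tri st.L).card →
      ∃ st' : Stage n, (∀ g, C.level g < i + 1 → st'.DepOne (fun x => v x g)) ∧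
        ((tri st.L).card : ℝ) ^ 4 / (256 * n * Mpar n d) ^ 3 ≤ (tri st'.L).card := by
    intro i hi st hgood h96
    set O : Finset (Fin C.size) := univ.filter (fun g => C.level g = i) with hO
    have hOc : (O.card : ℝ) ≤ C.size := by
      have : O.card ≤ C.size := by
        calc O.card ≤ (univ : Finset (Fin C.size)).card := card_le_univ _
          _ = C.size := by simp
      exact_mod_cast this
    have hMO : (O.card : ℝ) * Δ ^ 2 ≤ Mpar n d :=
      le_trans (mul_le_mul_of_nonneg_right hOc (by positivity)) hM
    have hbO : (O.card : ℝ) * (5 / 6) ^ (12 * (Nat.log 2 n + 1)) ≤ 1 / 144 :=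
      le_trans (mul_le_mul_of_nonneg_right hOc (by positivity)) hbad
    -- node functions
    have hnode : ∀ g, C.level g = i → ∀ u ∈ C.fanin g, st.DepOne (fun x => Sum.elim x (v x) u) := by
      intro g hg u hu
      rcases u with e | h
      · exact ⟨e, fun x y _ _ hxy => hxy⟩
      · have := C.acyclic g h hu
        exact hgood h (by omega)
    have hP : ∀ g ∈ O, ∃ (S : Finset (Sym2 (Fin n))) (κ : Sym2 (Fin n) → Bool) (big : Prop),
        S ⊆ st.L ∧ S.card ≤ Δ ∧ (big → 4 * (12 * (Nat.log 2 n + 1)) ^ 2 ≤ S.card) ∧
        ∀ x y, st.Cube x → st.Cube y → (big → ∃ e ∈ S, x e = κ e) → (∀ e ∈ S, x e = y e) →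
          (fun g x => v x g) g x = (fun g x => v x g) g y := by
      intro g hg
      rw [hO, mem_filter] at hg
      have hgi := hg.2
      have hch : ∀ u, ∃ e, u ∈ C.fanin g → ∀ x y, st.Cube x → st.Cube y → x e = y e →
          Sum.elim x (v x) u = Sum.elim y (v y) u := by
        intro u
        by_cases hu : u ∈ C.fanin g
        · obtain ⟨e, he⟩ := hnode g hgi u hu
          exact ⟨e, fun _ => he⟩
        · exact ⟨s(⟨0, hn0⟩, ⟨0, hn0⟩), fun h => absurd h hu⟩
      choose ε hε using hch
      have hrun : ∀ x, st.Cube x → v x g = C.fn g (Sum.elim x (v x)) :=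
        fun x hx => (hv x (fun e he => stage_diag st hx e he)).1 g
      -- agreement on the live variables of the fan-in suffices
      have hagree : ∀ (T : Finset (Sym2 (Fin n))), (∀ u ∈ C.fanin g, ε u ∈ st.L → ε u ∈ T) →
          ∀ x y, st.Cube x → st.Cube y → (∀ e ∈ T, x e = y e) → v x g = v y g := by
        intro T hT' x y hx hy hxy
        rw [hrun x hx, hrun y hy]
        apply fn_congr
        intro u hu
        apply hε u hu x y hx hy
        by_cases hL : ε u ∈ st.L
        · exact hxy _ (hT' u hu hL)
        · rw [hx _ hL, hy _ hL]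
      rcases C.kind g with ⟨κ, o, hk⟩ | ⟨hcard, _⟩
      · -- AND/OR type
        by_cases hconst : ∃ u ∈ C.fanin g, ∀ x, st.Cube x → Sum.elim x (v x) u = κ u
        · obtain ⟨u, hu, hc⟩ := hconst
          refine ⟨∅, fun _ => false, False, empty_subset _, by simp, fun h => h.elim, ?_⟩
          intro x y hx hy _ _
          change v x g = v y g
          rw [hrun x hx, hrun y hy, (hk _).2 ⟨u, hu, hc x hx⟩, (hk _).2 ⟨u, hu, hc y hy⟩]
        · push Not at hconst
          -- nodes that can have the value `κ`
          set T := (C.fanin g).filter (fun u => ∃ x, st.Cube x ∧ Sum.elim x (v x) u = κ u) with hTdef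
          have hTlive : ∀ u ∈ T, ε u ∈ st.L := by
            intro u hu
            rw [hTdef, mem_filter] at hu
            obtain ⟨huf, x, hx, hxu⟩ := hu
            obtain ⟨y, hy, hyu⟩ := hconst u huf
            by_contra hL
            apply hyu
            rw [← hxu]
            apply hε u huf y x hy hx
            rw [hx _ hL, hy _ hL]
          -- value of the live variable that kills
          have hkill : ∀ u, ∃ c : Bool, u ∈ T → ∀ x, st.Cube x → x (ε u) = c →
              Sum.elim x (v x) u = κ u := by
            intro u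
            by_cases hu : u ∈ T
            · have hu' := hu
              rw [hTdef, mem_filter] at hu'
              obtain ⟨huf, x, hx, hxu⟩ := hu'
              refine ⟨x (ε u), fun _ y hy hyx => ?_⟩
              rw [← hxu]
              exact hε u huf y x hy hx hyx
            · exact ⟨false, fun h => absurd h hu⟩
          choose c hc using hkill
          set SF := T.image ε with hSF
          have hSFL : SF ⊆ st.L := by
            intro e he
            rw [hSF, mem_image] at he
            obtain ⟨u, hu, rfl⟩ := he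
            exact hTlive u hu
          by_cases hsmall : SF.card ≤ Δ
          · refine ⟨SF, fun _ => false, False, hSFL, hsmall, fun h => h.elim, ?_⟩
            intro x y hx hy _ hxy
            change v x g = v y g
            rw [hrun x hx, hrun y hy]
            have hiff : ∀ x y, st.Cube x → st.Cube y → (∀ e ∈ SF, x e = y e) →
                C.fn g (Sum.elim x (v x)) = o → C.fn g (Sum.elim y (v y)) = o := by
              intro x y hx hy hxy h
              rw [hk] at h ⊢
              obtain ⟨u, huf, hxu⟩ := h
              refine ⟨u, huf, ?_⟩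
              have huT : u ∈ T := by
                rw [hTdef, mem_filter]; exact ⟨huf, x, hx, hxu⟩
              rw [← hxu]
              exact hε u huf y x hy hx (hxy _ (mem_image_of_mem ε huT)).symm
            exact bool_eq (hiff x y hx hy hxy) (hiff y x hy hx (fun e he => (hxy e he).symm))
          · push Not at hsmall
            obtain ⟨S, hSsub, hScard⟩ := exists_subset_card_eq hsmall.le
            -- choose nodes for the elements of S
            have hpre : ∀ e, ∃ u, e ∈ S → u ∈ T ∧ ε u = e := by
              intro e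
              by_cases he : e ∈ S
              · have := hSsub he
                rw [hSF, mem_image] at this
                obtain ⟨u, hu, hue⟩ := this
                exact ⟨u, fun _ => ⟨hu, hue⟩⟩
              · exact ⟨Sum.inl e, fun h => absurd h he⟩
            choose w hw using hpre
            refine ⟨S, fun e => c (w e), True, hSsub.trans hSFL, hScard.le, fun _ => ?_, ?_⟩
            · rw [hScard]; exact hs
            · intro x y hx hy hbig hxy
              obtain ⟨e, heS, hxe⟩ := hbig trivial
              obtain ⟨hwT, hwe⟩ := hw e heS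
              have hwf : w e ∈ C.fanin g := by
                rw [hTdef, mem_filter] at hwT; exact hwT.1
              have h1 : Sum.elim x (v x) (w e) = κ (w e) := by
                apply hc (w e) hwT x hx; rw [hwe]; exact hxe
              have h2 : Sum.elim y (v y) (w e) = κ (w e) := by
                apply hc (w e) hwT y hy; rw [hwe, ← hxy e heS]; exact hxe
              change v x g = v y g
              rw [hrun x hx, hrun y hy, (hk _).2 ⟨w e, hwf, h1⟩, (hk _).2 ⟨w e, hwf, h2⟩]
      · -- small gates
        refine ⟨((C.fanin g).image ε).filter (fun e => e ∈ st.L), fun _ => false, False,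
          fun e he => (mem_filter.1 he).2, ?_, fun h => h.elim, ?_⟩
        · calc (((C.fanin g).image ε).filter (fun e => e ∈ st.L)).card
              ≤ ((C.fanin g).image ε).card := card_filter_le _ _
            _ ≤ (C.fanin g).card := card_image_le
            _ ≤ b := hcard
            _ ≤ Δ := le_max_right _ _
        · intro x y hx hy _ hxy
          exact hagree _ (fun u hu hL => mem_filter.2 ⟨mem_image_of_mem ε hu, hL⟩) x y hx hy hxy
    obtain ⟨st', hcube, hbound, hdep⟩ := step st O (fun g x => v x g) Δ
      (12 * (Nat.log 2 n + 1)) (Mpar n d) hMO hMn hbO h96 hn0 hP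
    refine ⟨st', ?_, hbound⟩
    intro g hg
    rcases Nat.lt_or_ge (C.level g) i with h | h
    · obtain ⟨e, he⟩ := hgood g h
      exact ⟨e, fun x y hx hy hxy => he x y (hcube x hx) (hcube y hy) hxy⟩
    · apply hdep g
      rw [hO, mem_filter]
      exact ⟨mem_univ _, by omega⟩
  obtain ⟨st, hgood, htri⟩ := run n d hd hn
    (fun i st => ∀ g, C.level g < i → st.DepOne (fun x => v x g))
    (by intro g hg; omega) hstep
  refine final st htri (fun x => v x C.out) ?_ (hgood _ (hC _))
  intro x hx
  exact (hv x (fun e he => stage_diag st hx e he)).2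

end Pool.Agent.Lib_helper21.TriCircuit
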