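import Mathlib

/-!
Concurrent-read concurrent-write parallel random access machines with priority write resolution
and unrestricted words, local states, instruction set and addressing.
-/

namespace Pool.Agent.Lib_helper21.TriPRAM

/-- A PRIORITY CRCW PRAM for inputs that are graphs on `n` vertices. The shared memory consists
of one input cell for every unordered pair of vertices and of arbitrarily many other cells, indexed
by `Aux`. Words and local states come from arbitrary types, and every processor may compute
arbitrary functions of its local state (which may store everything it has read so far) and of the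
time. In step `t` processor `j` reads the cell `read t j q`, where `q` is its state, moves to the
state `next t j q w`, where `w` is the word read, and then may write a word into a cell, as told
by `write t j` applied to the new state. After the last step the machine accepts if the word in
the cell `outCell` satisfies `accept`. -/
structure PRAM (n : ℕ) where
  procs : ℕ
  State : Type
  Word : Type
  Aux : Type
  bit : Bool → Word
  init : Fin procs → State
  mem0 : Aux → Word
  read : ℕ → Fin procs → State → Sym2 (Fin n) ⊕ Aux
  next : ℕ → Fin procs → State → Word → State
  write : ℕ → Fin procs → State → Option ((Sym2 (Fin n) ⊕ Aux) × Word)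
  outCell : Sym2 (Fin n) ⊕ Aux
  accept : Word → Prop

/-- `q t j` is the state of processor `j` and `m t c` is the content of the cell `c` after `t`
steps of the computation on the input `x`. If several processors write into the same cell in the
same step, then the processor with the smallest number succeeds. -/
structure PRAM.Run {n : ℕ} (M : PRAM n) (x : Sym2 (Fin n) → Bool)
    (q : ℕ → Fin M.procs → M.State) (m : ℕ → (Sym2 (Fin n) ⊕ M.Aux) → M.Word) : Prop where
  state_zero : ∀ j, q 0 j = M.init j
  input : ∀ e, m 0 (Sum.inl e) = M.bit (x e)
  aux : ∀ a, m 0 (Sum.inr a) = M.mem0 a
  compute : ∀ t j, q (t + 1) j = M.next t j (q t j) (m t (M.read t j (q t j)))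
  written : ∀ t c j w, M.write t j (q (t + 1) j) = some (c, w) →
    (∀ j' < j, ∀ w', M.write t j' (q (t + 1) j') ≠ some (c, w')) → m (t + 1) c = w
  unwritten : ∀ t c, (∀ j w, M.write t j (q (t + 1) j) ≠ some (c, w)) → m (t + 1) c = m t c

open Classical in
/-- The machine decides in `T` steps whether a graph on `n` vertices contains a triangle. -/
def PRAM.DetectsTriangles {n : ℕ} (M : PRAM n) (T : ℕ) : Prop :=
  ∀ G : SimpleGraph (Fin n), ∃ q m, M.Run (fun e => decide (e ∈ G.edgeSet)) q m ∧
    (M.accept (m T M.outCell) ↔ ¬ G.CliqueFree 3)

end Pool.Agent.Lib_helper21.TriPRAM
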