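import Pool.Agent.Lib_helper21.TriCircuitProof
import Pool.Agent.Lib_helper21.TriPRAMDefs

/-!
Lower bound for constant-time PRAMs detecting triangles.
-/

namespace Pool.Agent.Lib_helper21.TriPRAM

open Finset Pool.Agent.Lib_helper21.TriRound

variable {n : ℕ}

/-- Every machine has a run on every input. -/
theorem PRAM.exists_run (M : PRAM n) (x : Sym2 (Fin n) → Bool) : ∃ q m, M.Run x q m := by
  classical
  let stepQ : ℕ → ((Fin M.procs → M.State) × ((Sym2 (Fin n) ⊕ M.Aux) → M.Word)) →
      (Fin M.procs → M.State) := fun t c j => M.next t j (c.1 j) (c.2 (M.read t j (c.1 j)))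
  let stepM : ℕ → (Fin M.procs → M.State) → ((Sym2 (Fin n) ⊕ M.Aux) → M.Word) →
      ((Sym2 (Fin n) ⊕ M.Aux) → M.Word) := fun t q m c =>
    if h : ∃ jw : Fin M.procs × M.Word, M.write t jw.1 (q jw.1) = some (c, jw.2) ∧
        ∀ j' < jw.1, ∀ w', M.write t j' (q j') ≠ some (c, w')
    then (Classical.choose h).2 else m c
  let cfg : ℕ → ((Fin M.procs → M.State) × ((Sym2 (Fin n) ⊕ M.Aux) → M.Word)) := fun t =>
    Nat.rec (M.init, Sum.elim (fun e => M.bit (x e)) M.mem0)
      (fun t c => (stepQ t c, stepM t (stepQ t c) c.2)) t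
  have hcfg : ∀ t, cfg (t + 1) = (stepQ t (cfg t), stepM t (stepQ t (cfg t)) (cfg t).2) :=
    fun t => rfl
  refine ⟨fun t => (cfg t).1, fun t => (cfg t).2, ?_⟩
  constructor
  · intro j; rfl
  · intro e; rfl
  · intro a; rfl
  · intro t j
    rw [hcfg]
  · intro t c j w hw hfirst
    rw [hcfg] at hw hfirst ⊢
    change stepM t (stepQ t (cfg t)) (cfg t).2 c = w
    have hex : ∃ jw : Fin M.procs × M.Word, M.write t jw.1 (stepQ t (cfg t) jw.1) = some (c, jw.2) ∧
        ∀ j' < jw.1, ∀ w', M.write t j' (stepQ t (cfg t) j') ≠ some (c, w') := ⟨(j, w), hw, hfirst⟩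
    have e1 : stepM t (stepQ t (cfg t)) (cfg t).2 c = (Classical.choose hex).2 := dif_pos hex
    rw [e1]
    obtain ⟨h1, h2⟩ := Classical.choose_spec hex
    set jw := Classical.choose hex with hjw
    have hj : jw.1 = j := by
      rcases lt_trichotomy jw.1 j with h | h | h
      · exact absurd h1 (hfirst _ h _)
      · exact h
      · exact absurd hw (h2 _ h _)
    rw [hj] at h1
    have : some (c, w) = some (c, jw.2) := by rw [← hw]; exact h1
    simp only [Option.some.injEq, Prod.mk.injEq, true_and] at this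
    exact this.symm
  · intro t c hno
    rw [hcfg] at hno ⊢
    change stepM t (stepQ t (cfg t)) (cfg t).2 c = (cfg t).2 c
    apply dif_neg
    rintro ⟨jw, h1, _⟩
    exact hno _ _ h1

/-- the read half of a step -/
lemma phaseA (st : Stage n) (M : PRAM n) (q : Inp n → ℕ → Fin M.procs → M.State)
    (m : Inp n → ℕ → (Sym2 (Fin n) ⊕ M.Aux) → M.Word)
    (hrun : ∀ x, st.Cube x → M.Run x (q x) (m x)) (t : ℕ)
    (hq : ∀ j, st.DepOne (fun x => q x t j)) (hm : ∀ c, st.DepOne (fun x => m x t c))
    (Δ s : ℕ) (hΔ : 3 ≤ Δ) (j : Fin M.procs) :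
    ∃ (S : Finset (Sym2 (Fin n))) (κ : Sym2 (Fin n) → Bool) (big : Prop),
      S ⊆ st.L ∧ S.card ≤ Δ ∧ (big → 4 * s ^ 2 ≤ S.card) ∧
      ∀ x y, st.Cube x → st.Cube y → (big → ∃ e ∈ S, x e = κ e) → (∀ e ∈ S, x e = y e) →
        q x (t + 1) j = q y (t + 1) j := by
  classical
  obtain ⟨e0, he0⟩ := hq j
  choose ε hε using hm
  let adr : Bool → (Sym2 (Fin n) ⊕ M.Aux) := fun b =>
    if h : ∃ x, st.Cube x ∧ x e0 = b then M.read t j (q (Classical.choose h) t j) else M.outCell
  have hadr : ∀ x, st.Cube x → adr (x e0) = M.read t j (q x t j) := by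
    intro x hx
    have h : ∃ y, st.Cube y ∧ y e0 = x e0 := ⟨x, hx, rfl⟩
    have e1 : adr (x e0) = M.read t j (q (Classical.choose h) t j) := dif_pos h
    rw [e1]
    obtain ⟨h1, h2⟩ := Classical.choose_spec h
    have := he0 _ _ h1 hx h2
    simp only at this
    rw [this]
  refine ⟨({e0, ε (adr true), ε (adr false)} : Finset (Sym2 (Fin n))).filter (fun e => e ∈ st.L),
    fun _ => false, False, fun e he => (mem_filter.1 he).2, ?_, fun h => h.elim, ?_⟩
  · refine (card_filter_le _ _).trans (card_le_three.trans hΔ)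
  · intro x y hx hy _ hxy
    have agree : ∀ e ∈ ({e0, ε (adr true), ε (adr false)} : Finset (Sym2 (Fin n))),
        x e = y e := by
      intro e he
      by_cases hL : e ∈ st.L
      · exact hxy e (mem_filter.2 ⟨he, hL⟩)
      · rw [hx e hL, hy e hL]
    have h0 : x e0 = y e0 := agree e0 (by simp)
    have hqq : q x t j = q y t j := he0 x y hx hy h0
    rw [(hrun x hx).compute t j, (hrun y hy).compute t j, ← hqq]
    congr 1
    apply hε _ x y hx hy
    rw [← hadr x hx]
    apply agree
    cases x e0 <;> simp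

/-- the write half of a step -/
lemma phaseB (st : Stage n) (M : PRAM n) (q : Inp n → ℕ → Fin M.procs → M.State)
    (m : Inp n → ℕ → (Sym2 (Fin n) ⊕ M.Aux) → M.Word)
    (hrun : ∀ x, st.Cube x → M.Run x (q x) (m x)) (t : ℕ)
    (hq : ∀ j, st.DepOne (fun x => q x (t + 1) j)) (hm : ∀ c, st.DepOne (fun x => m x t c))
    (Δ s : ℕ) (hΔ : 1 ≤ Δ) (hs : 4 * s ^ 2 ≤ Δ) (c : Sym2 (Fin n) ⊕ M.Aux) :
    ∃ (S : Finset (Sym2 (Fin n))) (κ : Sym2 (Fin n) → Bool) (big : Prop),
      S ⊆ st.L ∧ S.card ≤ Δ ∧ (big → 4 * s ^ 2 ≤ S.card) ∧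
      ∀ x y, st.Cube x → st.Cube y → (big → ∃ e ∈ S, x e = κ e) → (∀ e ∈ S, x e = y e) →
        m x (t + 1) c = m y (t + 1) c := by
  classical
  choose η hη using hq
  obtain ⟨ε, hε⟩ := hm c
  -- processor `j` writes into `c`
  set Wr : Inp n → Fin M.procs → Prop := fun x j => ∃ w, M.write t j (q x (t + 1) j) = some (c, w)
    with hWr
  have hWrc : ∀ x y j, st.Cube x → st.Cube y → x (η j) = y (η j) → Wr x j → Wr y j := by
    intro x y j hx hy hxy ⟨w, hw⟩
    refine ⟨w, ?_⟩
    have := hη j x y hx hy hxy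
    simp only at this
    rw [← this]; exact hw
  -- comparison of first writers
  have hfirst : ∀ x y j, st.Cube x → st.Cube y → Wr x j → (∀ j' < j, ¬ Wr x j') →
      q x (t + 1) j = q y (t + 1) j → (∀ j' < j, ¬ Wr y j') → m x (t + 1) c = m y (t + 1) c := by
    intro x y j hx hy ⟨w, hw⟩ hfx hqq hfy
    rw [(hrun x hx).written t c j w hw (fun j' hj' w' h => hfx j' hj' ⟨w', h⟩)]
    rw [(hrun y hy).written t c j w (by rw [← hqq]; exact hw)
      (fun j' hj' w' h => hfy j' hj' ⟨w', h⟩)]
  have hexfirst : ∀ x, (∃ j, Wr x j) → ∃ j, Wr x j ∧ ∀ j' < j, ¬ Wr x j' := by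
    intro x ⟨j, hj⟩
    have hne : (univ.filter (fun j => Wr x j)).Nonempty := ⟨j, by simpa using hj⟩
    refine ⟨(univ.filter (fun j => Wr x j)).min' hne, ?_, ?_⟩
    · have := min'_mem _ hne
      rw [mem_filter] at this
      exact this.2
    · intro j' hj' hw
      have := min'_le (univ.filter (fun j => Wr x j)) j' (by simpa using hw)
      exact absurd (lt_of_lt_of_le hj' this) (lt_irrefl _)
  -- processors that always write, and the relevant conditional writers
  set A := univ.filter (fun j => ∀ x, st.Cube x → Wr x j) with hA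
  set R := univ.filter (fun j => (∃ x, st.Cube x ∧ Wr x j) ∧ (∃ x, st.Cube x ∧ ¬ Wr x j) ∧
    ∀ a ∈ A, j < a) with hR
  have hRL : ∀ j ∈ R, η j ∈ st.L := by
    intro j hj
    rw [hR, mem_filter] at hj
    obtain ⟨_, ⟨x, hx, hxw⟩, ⟨y, hy, hyw⟩, _⟩ := hj
    by_contra hL
    exact hyw (hWrc x y j hx hy (by rw [hx _ hL, hy _ hL]) hxw)
  -- a writer below all permanent writers is in `R` unless it is permanent
  have hinR : ∀ x j, st.Cube x → Wr x j → j ∉ A → (∀ a ∈ A, j < a) → j ∈ R := by
    intro x j hx hw hjA hlt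
    rw [hR, mem_filter]
    refine ⟨mem_univ _, ⟨x, hx, hw⟩, ?_, hlt⟩
    by_contra hcon
    push Not at hcon
    exact hjA (by rw [hA, mem_filter]; exact ⟨mem_univ _, hcon⟩)
  have hAw : ∀ a ∈ A, ∀ x, st.Cube x → Wr x a := by
    intro a ha
    rw [hA, mem_filter] at ha
    exact ha.2
  -- the tail
  set Z : Finset (Sym2 (Fin n)) := if h : A.Nonempty then {η (A.min' h)} else {ε} with hZ
  have hZc : Z.card ≤ 1 := by
    rw [hZ]; split_ifs <;> simp
  by_cases hsmall : (R.image η).card + 1 ≤ Δ
  · -- small case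
    refine ⟨R.image η ∪ Z.filter (fun e => e ∈ st.L), fun _ => false, False, ?_, ?_,
      fun h => h.elim, ?_⟩
    · intro e he
      rcases mem_union.1 he with he | he
      · obtain ⟨j, hj, rfl⟩ := mem_image.1 he
        exact hRL j hj
      · exact (mem_filter.1 he).2
    · calc (R.image η ∪ Z.filter (fun e => e ∈ st.L)).card
          ≤ (R.image η).card + (Z.filter (fun e => e ∈ st.L)).card := card_union_le _ _
        _ ≤ (R.image η).card + 1 := by
            gcongr
            exact (card_filter_le _ _).trans hZc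
        _ ≤ Δ := hsmall
    · intro x y hx hy _ hxy
      have agR : ∀ j ∈ R, x (η j) = y (η j) := fun j hj =>
        hxy _ (mem_union_left _ (mem_image_of_mem η hj))
      have agZ : ∀ e ∈ Z, x e = y e := by
        intro e he
        by_cases hL : e ∈ st.L
        · exact hxy e (mem_union_right _ (mem_filter.2 ⟨he, hL⟩))
        · rw [hx e hL, hy e hL]
      by_cases hw : ∃ j, Wr x j
      · obtain ⟨j, hj, hjf⟩ := hexfirst x hw
        by_cases hjA : j ∈ A
        · have hAne : A.Nonempty := ⟨j, hjA⟩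
          have hjmin : j = A.min' hAne := by
            apply le_antisymm
            · by_contra hlt
              push Not at hlt
              exact hjf _ hlt (hAw _ (min'_mem A hAne) x hx)
            · exact min'_le A j hjA
          have hagj : x (η j) = y (η j) := by
            apply agZ
            rw [hZ, dif_pos hAne, ← hjmin]; simp
          refine hfirst x y j hx hy hj hjf (hη j x y hx hy hagj) ?_
          intro j' hj' hwy
          have hj'A : j' ∉ A := by
            intro h
            have := min'_le A j' h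
            rw [← hjmin] at this
            exact absurd (lt_of_lt_of_le hj' this) (lt_irrefl _)
          have hlt : ∀ a ∈ A, j' < a := by
            intro a ha
            have := min'_le A a ha
            rw [← hjmin] at this
            exact lt_of_lt_of_le hj' this
          have hj'R := hinR y j' hy hwy hj'A hlt
          exact hjf j' hj' (hWrc y x j' hy hx (agR j' hj'R).symm hwy)
        · have hlt : ∀ a ∈ A, j < a := by
            intro a ha
            rcases lt_trichotomy j a with h | h | h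
            · exact h
            · exact absurd (h ▸ ha) hjA
            · exact absurd (hAw a ha x hx) (hjf a h)
          have hjR := hinR x j hx hj hjA hlt
          refine hfirst x y j hx hy hj hjf (hη j x y hx hy (agR j hjR)) ?_
          intro j' hj' hwy
          have hj'A : j' ∉ A := fun h => absurd (hlt j' h) (not_lt.2 hj'.le)
          have hj'R := hinR y j' hy hwy hj'A (fun a ha => lt_trans hj' (hlt a ha))
          exact hjf j' hj' (hWrc y x j' hy hx (agR j' hj'R).symm hwy)
      · push Not at hw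
        have hAe : ¬ A.Nonempty := by
          rintro ⟨a, ha⟩
          exact hw a (hAw a ha x hx)
        have hwy : ∀ j, ¬ Wr y j := by
          intro j hj
          have hjA : j ∉ A := fun h => hAe ⟨j, h⟩
          have hjR := hinR y j hy hj hjA (fun a ha => absurd ⟨a, ha⟩ hAe)
          exact hw j (hWrc y x j hy hx (agR j hjR).symm hj)
        rw [(hrun x hx).unwritten t c (fun j w h => hw j ⟨w, h⟩),
          (hrun y hy).unwritten t c (fun j w h => hwy j ⟨w, h⟩)]
        apply hε x y hx hy
        apply agZ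
        rw [hZ, dif_neg hAe]; simp
  · -- big case
    push Not at hsmall
    set g : ℕ → ℕ := fun k => ((R.filter (fun j : Fin M.procs => (j : ℕ) < k)).image η).card with hg
    have hgP : Δ ≤ g M.procs := by
      have : R.filter (fun j : Fin M.procs => (j : ℕ) < M.procs) = R := by
        apply filter_true_of_mem
        intro j _; exact j.2
      rw [hg]; simp only [this]; omega
    have hg0 : g 0 = 0 := by
      rw [hg]; simp
    have hgs : ∀ k, g (k + 1) ≤ g k + 1 := by
      intro k
      rw [hg]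
      simp only
      have hsub : (R.filter (fun j : Fin M.procs => (j : ℕ) < k + 1)).image η ⊆
          ((R.filter (fun j : Fin M.procs => (j : ℕ) < k)).image η) ∪
            ((univ.filter (fun j : Fin M.procs => (j : ℕ) = k)).image η) := by
        intro e he
        obtain ⟨j, hj, rfl⟩ := mem_image.1 he
        rw [mem_filter] at hj
        rcases Nat.lt_succ_iff_lt_or_eq.1 hj.2 with h | h
        · exact mem_union_left _ (mem_image_of_mem η (mem_filter.2 ⟨hj.1, h⟩))
        · exact mem_union_right _ (mem_image_of_mem η (mem_filter.2 ⟨mem_univ _, h⟩))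
      refine (card_le_card hsub).trans ((card_union_le _ _).trans ?_)
      gcongr
      refine card_image_le.trans ?_
      rw [card_le_one]
      intro a ha b hb
      rw [mem_filter] at ha hb
      exact Fin.ext (ha.2.trans hb.2.symm)
    have hexk : ∃ k, Δ ≤ g k := ⟨_, hgP⟩
    set k := Nat.find hexk with hk
    have hkge : Δ ≤ g k := Nat.find_spec hexk
    have hk0 : k ≠ 0 := by
      intro h
      rw [h, hg0] at hkge
      omega
    obtain ⟨k', hk'⟩ : ∃ k', k = k' + 1 := ⟨k - 1, by omega⟩
    have hklt : g k' < Δ := by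
      have := Nat.find_min hexk (m := k') (by omega)
      omega
    have hkeq : g k = Δ := by
      have := hgs k'
      rw [← hk'] at this
      omega
    set S := (R.filter (fun j : Fin M.procs => (j : ℕ) < k)).image η with hS
    have hSc : S.card = Δ := hkeq
    have hpre : ∀ e, ∃ (b : Bool), e ∈ S → ∃ j ∈ R, (j : ℕ) < k ∧ ∀ x, st.Cube x → x e = b →
        Wr x j := by
      intro e
      by_cases he : e ∈ S
      · obtain ⟨j, hj, hje⟩ := mem_image.1 he
        rw [mem_filter] at hj
        have hjR := hj.1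
        rw [hR, mem_filter] at hjR
        obtain ⟨_, ⟨x0, hx0, hx0w⟩, _⟩ := hjR
        refine ⟨x0 e, fun _ => ⟨j, hj.1, hj.2, fun x hx hxe => ?_⟩⟩
        exact hWrc x0 x j hx0 hx (by rw [hje]; exact hxe.symm) hx0w
      · exact ⟨false, fun h => absurd h he⟩
    choose κ hκ using hpre
    refine ⟨S, κ, True, ?_, hSc.le, fun _ => by rw [hSc]; exact hs, ?_⟩
    · intro e he
      obtain ⟨j, hj, rfl⟩ := mem_image.1 he
      exact hRL j (mem_filter.1 hj).1
    · intro x y hx hy hbig hxy
      obtain ⟨e, heS, hxe⟩ := hbig trivial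
      obtain ⟨j1, hj1R, hj1k, hj1w⟩ := hκ e heS
      have hw1 : Wr x j1 := hj1w x hx hxe
      have hj1lt : ∀ a ∈ A, j1 < a := by
        rw [hR, mem_filter] at hj1R
        exact hj1R.2.2.2
      obtain ⟨j, hj, hjf⟩ := hexfirst x ⟨j1, hw1⟩
      have hjle : j ≤ j1 := by
        by_contra h
        push Not at h
        exact hjf j1 h hw1
      have hlt : ∀ a ∈ A, j < a := fun a ha => lt_of_le_of_lt hjle (hj1lt a ha)
      have hjA : j ∉ A := fun h => absurd (hlt j h) (lt_irrefl _)
      have hjR := hinR x j hx hj hjA hlt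
      have hjk : (j : ℕ) < k := lt_of_le_of_lt hjle hj1k
      have agR : ∀ j' ∈ R, (j' : ℕ) < k → x (η j') = y (η j') := fun j' hj' hj'k =>
        hxy _ (mem_image_of_mem η (mem_filter.2 ⟨hj', hj'k⟩))
      refine hfirst x y j hx hy hj hjf (hη j x y hx hy (agR j hjR hjk)) ?_
      intro j' hj' hwy
      have hj'A : j' ∉ A := fun h => absurd (hlt j' h) (not_lt.2 hj'.le)
      have hj'R := hinR y j' hy hwy hj'A (fun a ha => lt_trans hj' (hlt a ha))
      have hj'k : (j' : ℕ) < k := lt_trans hj' hjk
      exact hjf j' hj' (hWrc y x j' hy hx (agR j' hj'R hj'k).symm hwy)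

/-- The lower bound. -/
theorem main (n T : ℕ) (hT : 1 ≤ T) (hn : 1024 ^ 4 ^ (2 * T - 1) ≤ n) (M : PRAM n)
    (hM : M.DetectsTriangles T) :
    (n : ℝ) ^ (2 + 1 / (4 : ℝ) ^ (2 * T - 1)) ≤
      2048 * (576 * ((Nat.log 2 n : ℝ) + 1) ^ 2) ^ 2 * M.procs := by
  classical
  by_contra hcon
  push Not at hcon
  set Δ : ℕ := 576 * (Nat.log 2 n + 1) ^ 2 with hΔ
  have hN : ((2 * M.procs : ℕ) : ℝ) * Δ ^ 2 * 1024 < (n : ℝ) ^ (2 + 1 / (4 : ℝ) ^ (2 * T - 1)) := by
    have e1 : (Δ : ℝ) = 576 * ((Nat.log 2 n : ℝ) + 1) ^ 2 := by rw [hΔ]; push_cast; ring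
    rw [← e1] at hcon
    calc ((2 * M.procs : ℕ) : ℝ) * Δ ^ 2 * 1024 = 2048 * (Δ : ℝ) ^ 2 * M.procs := by
          push_cast; ring
      _ < _ := hcon
  obtain ⟨hMp, hMn, hbad, hn0, hs⟩ := numeric n (2 * T) (2 * M.procs) Δ hn le_rfl hN
  have hΔ3 : 3 ≤ Δ := by
    have : 1 ≤ (Nat.log 2 n + 1) ^ 2 := Nat.one_le_pow _ _ (by omega)
    omega
  -- the runs
  have hv : ∀ x : Inp n, ∃ (q : ℕ → Fin M.procs → M.State)
      (m : ℕ → (Sym2 (Fin n) ⊕ M.Aux) → M.Word),
      (∀ e : Sym2 (Fin n), e.IsDiag → x e = false) →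
      M.Run x q m ∧ (M.accept (m T M.outCell) ↔ HasTri x) := by
    intro x
    by_cases hx : ∀ e : Sym2 (Fin n), e.IsDiag → x e = false
    · obtain ⟨q, m, h1, h2⟩ := hM (TriCircuit.graphOf x)
      rw [TriCircuit.input_eq x hx] at h1
      refine ⟨q, m, fun _ => ⟨h1, ?_⟩⟩
      rw [h2, TriCircuit.cliqueFree_iff x hx]
    · obtain ⟨q, m, _⟩ := M.exists_run x
      exact ⟨q, m, fun h => absurd h hx⟩
  choose q m hv using hv
  have hrun : ∀ (st : Stage n) (x : Inp n), st.Cube x → M.Run x (q x) (m x) :=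
    fun st x hx => (hv x (fun e he => TriCircuit.stage_diag st hx e he)).1
  have hsub : ∀ (st st' : Stage n), (∀ x, st'.Cube x → st.Cube x) → ∀ {α : Type} (f : Inp n → α),
      st.DepOne f → st'.DepOne f := by
    intro st st' hcube α f ⟨e, he⟩
    exact ⟨e, fun x y hx hy hxy => he x y (hcube x hx) (hcube y hy) hxy⟩
  have hdiag0 : Nonempty (Sym2 (Fin n)) := ⟨s(⟨0, hn0⟩, ⟨0, hn0⟩)⟩
  have hstep : ∀ i < 2 * T, ∀ st : Stage n,
      ((∀ j, st.DepOne (fun x => q x ((i + 1) / 2) j)) ∧
        (∀ c, st.DepOne (fun x => m x (i / 2) c))) →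
      96 * Mpar n (2 * T) ≤ (tri st.L).card →
      ∃ st' : Stage n, ((∀ j, st'.DepOne (fun x => q x ((i + 1 + 1) / 2) j)) ∧
        (∀ c, st'.DepOne (fun x => m x ((i + 1) / 2) c))) ∧
        ((tri st.L).card : ℝ) ^ 4 / (256 * n * Mpar n (2 * T)) ^ 3 ≤ (tri st'.L).card := by
    intro i hi st hgood h96
    obtain ⟨hq, hm⟩ := hgood
    rcases Nat.even_or_odd' i with ⟨t, ht | ht⟩
    · -- read phase
      have e1 : (i + 1) / 2 = t := by omega
      have e2 : i / 2 = t := by omega
      have e3 : (i + 1 + 1) / 2 = t + 1 := by omega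
      rw [e1] at hq
      rw [e2] at hm
      rw [e3, e1]
      have hOc : ((univ : Finset (Fin M.procs)).card : ℝ) ≤ ((2 * M.procs : ℕ) : ℝ) := by
        rw [card_univ, Fintype.card_fin]
        exact_mod_cast (by omega : M.procs ≤ 2 * M.procs)
      obtain ⟨st', hcube, hbound, hdep⟩ := step st (univ : Finset (Fin M.procs))
        (fun j x => q x (t + 1) j) Δ (12 * (Nat.log 2 n + 1)) (Mpar n (2 * T))
        (le_trans (mul_le_mul_of_nonneg_right hOc (by positivity)) hMp) hMn
        (le_trans (mul_le_mul_of_nonneg_right hOc (by positivity)) hbad) h96 hn0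
        (fun j _ => phaseA st M q m (hrun st) t hq hm Δ _ hΔ3 j)
      refine ⟨st', ⟨fun j => hdep j (mem_univ _), fun c => hsub st st' hcube _ (hm c)⟩, hbound⟩
    · -- write phase
      have e1 : (i + 1) / 2 = t + 1 := by omega
      have e2 : i / 2 = t := by omega
      have e3 : (i + 1 + 1) / 2 = t + 1 := by omega
      rw [e1] at hq
      rw [e2] at hm
      rw [e3, e1]
      -- the cells that may be written
      choose η hη using hq
      let cellOf : Fin M.procs × Bool → Option (Sym2 (Fin n) ⊕ M.Aux) := fun p =>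
        if h : ∃ x, st.Cube x ∧ x (η p.1) = p.2 then
          (M.write t p.1 (q (Classical.choose h) (t + 1) p.1)).map Prod.fst else none
      have hcell : ∀ x j c w, st.Cube x → M.write t j (q x (t + 1) j) = some (c, w) →
          cellOf (j, x (η j)) = some c := by
        intro x j c w hx hw
        have h : ∃ y, st.Cube y ∧ y (η j) = x (η j) := ⟨x, hx, rfl⟩
        have e1 : cellOf (j, x (η j))
            = (M.write t j (q (Classical.choose h) (t + 1) j)).map Prod.fst := dif_pos h
        rw [e1]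
        obtain ⟨h1, h2⟩ := Classical.choose_spec h
        have := hη j _ _ h1 hx h2
        simp only at this
        rw [this, hw]; rfl
      set O : Finset (Sym2 (Fin n) ⊕ M.Aux) :=
        (univ : Finset (Fin M.procs × Bool)).biUnion (fun p => (cellOf p).toFinset) with hO
      have hOcard : O.card ≤ 2 * M.procs := by
        calc O.card ≤ ∑ p : Fin M.procs × Bool, (cellOf p).toFinset.card := card_biUnion_le
          _ ≤ ∑ p : Fin M.procs × Bool, 1 := by
              refine sum_le_sum fun p _ => ?_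
              cases cellOf p <;> simp
          _ = 2 * M.procs := by
              simp [mul_comm]
      have hOc : (O.card : ℝ) ≤ ((2 * M.procs : ℕ) : ℝ) := by exact_mod_cast hOcard
      obtain ⟨st', hcube, hbound, hdep⟩ := step st O
        (fun c x => m x (t + 1) c) Δ (12 * (Nat.log 2 n + 1)) (Mpar n (2 * T))
        (le_trans (mul_le_mul_of_nonneg_right hOc (by positivity)) hMp) hMn
        (le_trans (mul_le_mul_of_nonneg_right hOc (by positivity)) hbad) h96 hn0
        (fun c _ => phaseB st M q m (hrun st) t (fun j => ⟨η j, hη j⟩) hm Δ _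
          (by omega) hs c)
      refine ⟨st', ⟨fun j => hsub st st' hcube _ ⟨η j, hη j⟩, fun c => ?_⟩, hbound⟩
      by_cases hc : c ∈ O
      · exact hdep c hc
      · obtain ⟨e, he⟩ := hsub st st' hcube _ (hm c)
        have hun : ∀ x, st'.Cube x → m x (t + 1) c = m x t c := by
          intro x hx
          apply (hrun st x (hcube x hx)).unwritten t c
          intro j w hw
          apply hc
          rw [hO, mem_biUnion]
          refine ⟨(j, x (η j)), mem_univ _, ?_⟩
          rw [hcell x j c w (hcube x hx) hw]; simp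
        refine ⟨e, fun x y hx hy hxy => ?_⟩
        change m x (t + 1) c = m y (t + 1) c
        rw [hun x hx, hun y hy]
        exact he x y hx hy hxy
  have hbase : (∀ j, (initStage n).DepOne (fun x => q x ((0 + 1) / 2) j)) ∧
      (∀ c, (initStage n).DepOne (fun x => m x (0 / 2) c)) := by
    obtain ⟨e0⟩ := hdiag0
    refine ⟨fun j => ⟨e0, fun x y hx hy _ => ?_⟩, fun c => ?_⟩
    · change q x 0 j = q y 0 j
      rw [(hrun _ x hx).state_zero, (hrun _ y hy).state_zero]
    · rcases c with e | a
      · refine ⟨e, fun x y hx hy hxy => ?_⟩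
        change m x 0 (Sum.inl e) = m y 0 (Sum.inl e)
        rw [(hrun _ x hx).input, (hrun _ y hy).input, hxy]
      · refine ⟨e0, fun x y hx hy _ => ?_⟩
        change m x 0 (Sum.inr a) = m y 0 (Sum.inr a)
        rw [(hrun _ x hx).aux, (hrun _ y hy).aux]
  obtain ⟨st, hgood, htri⟩ := run n (2 * T) (by omega) hn
    (fun i st => (∀ j, st.DepOne (fun x => q x ((i + 1) / 2) j)) ∧
        (∀ c, st.DepOne (fun x => m x (i / 2) c))) hbase hstep
  have h2T : 2 * T / 2 = T := by omega
  obtain ⟨e, he⟩ := hgood.2 M.outCell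
  rw [h2T] at he
  refine final st htri (fun x => decide (M.accept (m x T M.outCell))) ?_
    ⟨e, fun x y hx hy hxy => ?_⟩
  · intro x hx
    rw [decide_eq_true_iff]
    exact (hv x (fun e he => TriCircuit.stage_diag st hx e he)).2
  · have := he x y hx hy hxy
    simp only at this
    simp only [this]

end Pool.Agent.Lib_helper21.TriPRAM
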