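import Mathlib

/-!
Counting lemmas for random restrictions of triangle detection.
-/

namespace Pool.Agent.Lib_helper21.TriRound

open Finset

/-- functions with prescribed values on `Z` -/
lemma card_agree {V α : Type*} [Fintype V] [DecidableEq V] [Fintype α] [DecidableEq α]
    (Z : Finset V) (σ : V → α) :
    (univ.filter (fun τ : V → α => ∀ v ∈ Z, τ v = σ v)).card
      = (Fintype.card α) ^ (Fintype.card V - Z.card) := by
  classical
  have h : (univ.filter (fun τ : V → α => ∀ v ∈ Z, τ v = σ v))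
      = Fintype.piFinset (fun v => if v ∈ Z then ({σ v} : Finset α) else univ) := by
    ext τ
    simp only [mem_filter, mem_univ, true_and, Fintype.mem_piFinset]
    constructor
    · intro h v
      by_cases hv : v ∈ Z
      · simp [hv, h v hv]
      · simp [hv]
    · intro h v hv
      have := h v
      simpa [hv] using this
  rw [h, Fintype.card_piFinset]
  have h2 : ∀ v, (if v ∈ Z then ({σ v} : Finset α) else univ).card
      = if v ∈ Z then 1 else Fintype.card α := by
    intro v
    by_cases hv : v ∈ Z <;> simp [hv]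
  rw [Finset.prod_congr rfl (fun v _ => h2 v), Finset.prod_ite]
  simp only [prod_const_one, one_mul, prod_const]
  congr 1
  have : (univ.filter (fun v => v ∉ Z)) = Zᶜ := by ext v; simp
  rw [this, Finset.card_compl]

/-- the pairs of types that stay live -/
def liveT : Finset (Sym2 (Fin 6)) := {s(0, 1), s(0, 2), s(1, 2)}

/-- the pairs of types that are set to one -/
def oneT : Finset (Sym2 (Fin 6)) := {s(0, 3), s(1, 4), s(2, 5)}

lemma one_add3 (t : Fin 6) : s(t + 3, t) ∈ oneT := by
  revert t; decide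

lemma diag_not_one (t : Fin 6) : s(t, t) ∉ oneT := by
  revert t; decide

lemma diag_not_live (t : Fin 6) : s(t, t) ∉ liveT := by
  revert t; decide

lemma live_not_one {e : Sym2 (Fin 6)} (h : e ∈ liveT) : e ∉ oneT := by
  revert e; decide

/-- the type assignment gives the edge `e` the value `κ` -/
def Hit {n : ℕ} (τ : Fin n → Fin 6) (κ : Bool) (e : Sym2 (Fin n)) : Prop :=
  (κ = true ∧ e.map τ ∈ oneT) ∨ (κ = false ∧ e.map τ ∉ oneT ∧ e.map τ ∉ liveT)

instance {n : ℕ} (τ : Fin n → Fin 6) (κ : Bool) (e : Sym2 (Fin n)) : Decidable (Hit τ κ e) := by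
  unfold Hit; infer_instance

lemma card_types {n : ℕ} (a b c : Fin n) (hab : a ≠ b) (hbc : b ≠ c) (hac : a ≠ c) :
    (univ.filter (fun τ : Fin n → Fin 6 => s(τ a, τ b) ∈ liveT ∧ s(τ b, τ c) ∈ liveT ∧
      s(τ a, τ c) ∈ liveT)).card = 6 ^ (n - 2) := by
  classical
  have hn : 3 ≤ n := by
    have h3 : ({a, b, c} : Finset (Fin n)).card = 3 := by
      rw [Finset.card_insert_of_notMem, Finset.card_insert_of_notMem, Finset.card_singleton]
      · simpa using hbc
      · simp [hab, hac]
    have := Finset.card_le_univ ({a, b, c} : Finset (Fin n))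
    rw [h3] at this
    simpa using this
  set P : Finset (Fin 6 × Fin 6 × Fin 6) := univ.filter (fun p =>
    s(p.1, p.2.1) ∈ liveT ∧ s(p.2.1, p.2.2) ∈ liveT ∧ s(p.1, p.2.2) ∈ liveT) with hP
  have hPc : P.card = 6 := by rw [hP]; decide
  have hmaps : ∀ τ ∈ (univ.filter (fun τ : Fin n → Fin 6 => s(τ a, τ b) ∈ liveT ∧
      s(τ b, τ c) ∈ liveT ∧ s(τ a, τ c) ∈ liveT)), (τ a, τ b, τ c) ∈ P := by
    intro τ hτ
    simp only [mem_filter, mem_univ, true_and] at hτ
    simp only [hP, mem_filter, mem_univ, true_and]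
    exact hτ
  rw [Finset.card_eq_sum_card_fiberwise hmaps]
  have hfib : ∀ p ∈ P, ((univ.filter (fun τ : Fin n → Fin 6 => s(τ a, τ b) ∈ liveT ∧
      s(τ b, τ c) ∈ liveT ∧ s(τ a, τ c) ∈ liveT)).filter
        (fun τ => (τ a, τ b, τ c) = p)).card = 6 ^ (n - 3) := by
    intro p hp
    obtain ⟨x, y, z⟩ := p
    simp only [hP, mem_filter, mem_univ, true_and] at hp
    have h3 : ({a, b, c} : Finset (Fin n)).card = 3 := by
      rw [Finset.card_insert_of_notMem, Finset.card_insert_of_notMem, Finset.card_singleton]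
      · simpa using hbc
      · simp [hab, hac]
    have hk := card_agree ({a, b, c} : Finset (Fin n))
      (fun v => if v = a then x else if v = b then y else z)
    rw [h3] at hk
    simp only [Fintype.card_fin] at hk
    rw [← hk]
    congr 1
    ext τ
    simp only [mem_filter, mem_univ, true_and, Prod.mk.injEq, mem_insert, mem_singleton]
    constructor
    · rintro ⟨_, h1, h2, h3⟩ v hv
      rcases hv with rfl | rfl | rfl
      · simp [h1]
      · simp [h2, hab.symm]
      · simp [h3, hac.symm, hbc.symm]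
    · intro h
      have h1 := h a (Or.inl rfl)
      have h2 := h b (Or.inr (Or.inl rfl))
      have h3 := h c (Or.inr (Or.inr rfl))
      simp only [if_true] at h1
      simp only [hab.symm, if_false, if_true] at h2
      simp only [hac.symm, hbc.symm, if_false] at h3
      rw [h1, h2, h3]
      exact ⟨hp, rfl, rfl, rfl⟩
  rw [Finset.sum_congr rfl hfib, Finset.sum_const, hPc, smul_eq_mul]
  obtain ⟨m, rfl⟩ : ∃ m, n = m + 3 := ⟨n - 3, by omega⟩
  have : m + 3 - 2 = m + 3 - 3 + 1 := by omega
  rw [this, pow_succ]; ring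

/-- Every set of at least `4 s^2` non-diagonal pairs contains `s` leaves. -/
lemma exists_leaves {n : ℕ} (S : Finset (Sym2 (Fin n))) (hS : ∀ e ∈ S, ¬ e.IsDiag) (s : ℕ)
    (hs : 4 * s ^ 2 ≤ S.card) :
    ∃ (Λ : Finset (Fin n)) (u : Fin n → Fin n), Λ.card = s ∧
      ∀ v ∈ Λ, u v ∉ Λ ∧ s(v, u v) ∈ S := by
  classical
  set K : Finset (Fin n) := univ.filter (fun v => ∃ w, s(v, w) ∈ S) with hK
  have hSK : S ⊆ (K ×ˢ K).image (fun p => s(p.1, p.2)) := by
    intro e he
    induction e using Sym2.ind with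
    | _ x y =>
      refine mem_image.2 ⟨(x, y), mem_product.2 ⟨?_, ?_⟩, rfl⟩
      · simp only [hK, mem_filter, mem_univ, true_and]
        exact ⟨y, he⟩
      · simp only [hK, mem_filter, mem_univ, true_and]
        exact ⟨x, by rw [Sym2.eq_swap]; exact he⟩
  have hcard : S.card ≤ K.card ^ 2 := by
    calc S.card ≤ ((K ×ˢ K).image (fun p => s(p.1, p.2))).card := card_le_card hSK
      _ ≤ (K ×ˢ K).card := card_image_le
      _ = K.card ^ 2 := by rw [card_product, sq]
  have h2s : 2 * s ≤ K.card := by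
    have : (2 * s) ^ 2 ≤ K.card ^ 2 := by
      calc (2 * s) ^ 2 = 4 * s ^ 2 := by ring
        _ ≤ _ := hs.trans hcard
    exact (Nat.pow_le_pow_iff_left (by norm_num)).1 this
  -- maximal independent set
  set F : Finset (Finset (Fin n)) := K.powerset.filter
    (fun I => ∀ v ∈ I, ∀ w ∈ I, s(v, w) ∉ S) with hF
  have hFne : F.Nonempty := ⟨∅, by simp [hF]⟩
  obtain ⟨I, hI⟩ := F.exists_maximal hFne
  have hIF : I ∈ F := hI.1
  have hIK : I ⊆ K := by
    have := (mem_filter.1 hIF).1
    exact mem_powerset.1 this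
  have hind : ∀ v ∈ I, ∀ w ∈ I, s(v, w) ∉ S := (mem_filter.1 hIF).2
  have hA : ∀ v ∈ I, ∃ w, w ∉ I ∧ s(v, w) ∈ S := by
    intro v hv
    have := hIK hv
    simp only [hK, mem_filter, mem_univ, true_and] at this
    obtain ⟨w, hw⟩ := this
    exact ⟨w, fun hwI => hind v hv w hwI hw, hw⟩
  have hB : ∀ v ∈ K \ I, ∃ w, w ∉ K \ I ∧ s(v, w) ∈ S := by
    intro v hv
    rw [mem_sdiff] at hv
    by_contra hcon
    push Not at hcon
    have hins : insert v I ∈ F := by
      rw [hF, mem_filter]
      refine ⟨?_, ?_⟩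
      · rw [mem_powerset]
        intro x hx
        rcases mem_insert.1 hx with rfl | hx
        · exact hv.1
        · exact hIK hx
      · intro x hx y hy
        rcases mem_insert.1 hx with hxv | hxI
        · rcases mem_insert.1 hy with hyv | hyI
          · rw [hxv, hyv]
            intro h; exact hS _ h (by simp)
          · rw [hxv]
            exact hcon y (fun h => (mem_sdiff.1 h).2 hyI)
        · rcases mem_insert.1 hy with hyv | hyI
          · rw [hyv]
            have := hcon x (fun h => (mem_sdiff.1 h).2 hxI)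
            rwa [Sym2.eq_swap]
          · exact hind x hxI y hyI
    have hle := hI.2 hins (subset_insert v I)
    exact hv.2 (hle (mem_insert_self v I))
  have key : ∃ Λ : Finset (Fin n), s ≤ Λ.card ∧ ∀ v ∈ Λ, ∃ w, w ∉ Λ ∧ s(v, w) ∈ S := by
    by_cases h : s ≤ I.card
    · exact ⟨I, h, hA⟩
    · refine ⟨K \ I, ?_, hB⟩
      rw [card_sdiff_of_subset hIK]
      omega
  obtain ⟨Λ, hΛ, hΛu⟩ := key
  obtain ⟨Λ', hsub, hcard'⟩ := exists_subset_card_eq hΛ
  have hu : ∀ v, ∃ w, v ∈ Λ → w ∉ Λ ∧ s(v, w) ∈ S := by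
    intro v
    by_cases hv : v ∈ Λ
    · obtain ⟨w, hw⟩ := hΛu v hv
      exact ⟨w, fun _ => hw⟩
    · exact ⟨v, fun h => absurd h hv⟩
  choose u hu using hu
  exact ⟨Λ', u, hcard', fun v hv => ⟨fun h => (hu v (hsub hv)).1 (hsub h), (hu v (hsub hv)).2⟩⟩

lemma card_avoid {n : ℕ} (Λ : Finset (Fin n)) (u : Fin n → Fin n) (hu : ∀ v ∈ Λ, u v ∉ Λ)
    (φ : Fin n → Fin 6 → Fin 6) :
    (univ.filter (fun τ : Fin n → Fin 6 => ∀ v ∈ Λ, τ v ≠ φ v (τ (u v)))).card
      ≤ 5 ^ Λ.card * 6 ^ (n - Λ.card) := by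
  classical
  have h0 : (univ.filter (fun σ : Fin n → Fin 6 => ∀ v ∈ Λ, σ v ≠ 0)).card
      = 5 ^ Λ.card * 6 ^ (n - Λ.card) := by
    have h : (univ.filter (fun σ : Fin n → Fin 6 => ∀ v ∈ Λ, σ v ≠ 0))
        = Fintype.piFinset (fun v => if v ∈ Λ then (univ.erase (0 : Fin 6)) else univ) := by
      ext τ
      simp only [mem_filter, mem_univ, true_and, Fintype.mem_piFinset]
      constructor
      · intro h v
        by_cases hv : v ∈ Λ
        · simp [hv, h v hv]
        · simp [hv]
      · intro h v hv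
        have := h v
        simpa [hv] using this
    rw [h, Fintype.card_piFinset]
    have h2 : ∀ v, (if v ∈ Λ then (univ.erase (0 : Fin 6)) else univ).card
        = if v ∈ Λ then 5 else 6 := by
      intro v
      by_cases hv : v ∈ Λ <;> simp [hv]
    rw [Finset.prod_congr rfl (fun v _ => h2 v), Finset.prod_ite]
    simp only [prod_const]
    have e1 : (univ.filter (fun v => v ∈ Λ)) = Λ := by ext v; simp
    have e2 : (univ.filter (fun v => v ∉ Λ)) = Λᶜ := by ext v; simp
    rw [e1, e2, Finset.card_compl, Fintype.card_fin]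
  rw [← h0]
  refine Finset.card_le_card_of_injOn
    (fun τ v => if v ∈ Λ then τ v - φ v (τ (u v)) else τ v) ?_ ?_
  · intro τ hτ
    rw [mem_coe, mem_filter] at hτ ⊢
    refine ⟨mem_univ _, fun v hv => ?_⟩
    simp only [hv, if_true]
    exact sub_ne_zero.2 (hτ.2 v hv)
  · intro τ _ τ' _ h
    have hout : ∀ v, v ∉ Λ → τ v = τ' v := by
      intro v hv
      have := congrFun h v
      simpa [hv] using this
    funext v
    by_cases hv : v ∈ Λ
    · have := congrFun h v
      simp only [hv, if_true] at this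
      rw [hout (u v) (hu v hv)] at this
      exact sub_left_inj.1 this
    · exact hout v hv

lemma card_bad {n : ℕ} (S : Finset (Sym2 (Fin n))) (hS : ∀ e ∈ S, ¬ e.IsDiag) (s : ℕ)
    (hs : 4 * s ^ 2 ≤ S.card) (κ : Sym2 (Fin n) → Bool) :
    (univ.filter (fun τ : Fin n → Fin 6 => ∀ e ∈ S, ¬ Hit τ (κ e) e)).card
      ≤ 5 ^ s * 6 ^ (n - s) := by
  classical
  obtain ⟨Λ, u, hcard, hu⟩ := exists_leaves S hS s hs
  have h1 := card_avoid Λ u (fun v hv => (hu v hv).1)
    (fun v t => if κ s(v, u v) = true then t + 3 else t)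
  rw [hcard] at h1
  refine le_trans (card_le_card ?_) h1
  intro τ hτ
  simp only [mem_filter, mem_univ, true_and] at hτ ⊢
  intro v hv heq
  apply hτ _ (hu v hv).2
  unfold Hit
  rw [Sym2.map_mk]
  by_cases hk : κ s(v, u v) = true
  · left
    refine ⟨hk, ?_⟩
    simp only [hk, if_true] at heq
    rw [heq]
    exact one_add3 _
  · right
    have hk' : κ s(v, u v) = false := by simpa using hk
    rw [if_neg hk] at heq
    refine ⟨hk', ?_, ?_⟩
    · rw [heq]; exact diag_not_one _
    · rw [heq]; exact diag_not_live _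

end Pool.Agent.Lib_helper21.TriRound
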