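import Pool.Agent.Lib_helper21.TriRoundA

/-!
The averaging argument for one round of random restrictions.
-/

namespace Pool.Agent.Lib_helper21.TriRound

open Finset

/-- ordered triangles of the edge set `L` -/
def tri {n : ℕ} (L : Finset (Sym2 (Fin n))) : Finset (Fin n × Fin n × Fin n) :=
  univ.filter (fun p => s(p.1, p.2.1) ∈ L ∧ s(p.2.1, p.2.2) ∈ L ∧ s(p.1, p.2.2) ∈ L)

/-- the three edges of an ordered triangle -/
def edges {n : ℕ} (p : Fin n × Fin n × Fin n) : Finset (Sym2 (Fin n)) :=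
  {s(p.1, p.2.1), s(p.2.1, p.2.2), s(p.1, p.2.2)}

lemma mem_tri {n : ℕ} {L : Finset (Sym2 (Fin n))} {p : Fin n × Fin n × Fin n} :
    p ∈ tri L ↔ s(p.1, p.2.1) ∈ L ∧ s(p.2.1, p.2.2) ∈ L ∧ s(p.1, p.2.2) ∈ L := by
  simp [tri]

lemma mem_edges {n : ℕ} {e : Sym2 (Fin n)} {p : Fin n × Fin n × Fin n} :
    e ∈ edges p ↔ e = s(p.1, p.2.1) ∨ e = s(p.2.1, p.2.2) ∨ e = s(p.1, p.2.2) := by
  simp [edges]

lemma tri_ne {n : ℕ} {L : Finset (Sym2 (Fin n))} (hL : ∀ e ∈ L, ¬ e.IsDiag)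
    {p : Fin n × Fin n × Fin n} (hp : p ∈ tri L) :
    p.1 ≠ p.2.1 ∧ p.2.1 ≠ p.2.2 ∧ p.1 ≠ p.2.2 := by
  rw [mem_tri] at hp
  refine ⟨fun h => hL _ hp.1 ?_, fun h => hL _ hp.2.1 ?_, fun h => hL _ hp.2.2 ?_⟩
  · simpa using h
  · simpa using h
  · simpa using h

lemma card_edges {n : ℕ} {p : Fin n × Fin n × Fin n}
    (h : p.1 ≠ p.2.1 ∧ p.2.1 ≠ p.2.2 ∧ p.1 ≠ p.2.2) : (edges p).card = 3 := by
  obtain ⟨a, b, c⟩ := p
  simp only at h
  obtain ⟨h1, h2, h3⟩ := h
  unfold edges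
  rw [card_insert_of_notMem, card_insert_of_notMem, card_singleton]
  · simp only [mem_singleton, Sym2.eq_iff]
    rintro (⟨h, -⟩ | ⟨h, h'⟩)
    · exact h1 h.symm
    · exact h2 h
  · simp only [mem_insert, mem_singleton, Sym2.eq_iff]
    rintro ((⟨h, -⟩ | ⟨h, -⟩) | (⟨-, h⟩ | ⟨h, -⟩))
    · exact h1 h
    · exact h3 h
    · exact h2 h
    · exact h3 h

lemma pair_card {n : ℕ} (e : Sym2 (Fin n)) :
    (univ.filter (fun q : Fin n × Fin n => s(q.1, q.2) = e)).card ≤ 2 := by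
  classical
  induction e using Sym2.ind with
  | _ x y =>
    refine le_trans (card_le_card (t := {(x, y), (y, x)}) ?_) card_le_two
    intro q hq
    simp only [mem_filter, mem_univ, true_and, Sym2.eq_iff] at hq
    simp only [mem_insert, mem_singleton, Prod.ext_iff]
    exact hq

/-- the number of ordered triangles through a given edge -/
lemma card_through {n : ℕ} (L : Finset (Sym2 (Fin n))) (e : Sym2 (Fin n)) :
    ((tri L).filter (fun p => e ∈ edges p)).card ≤ 6 * n := by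
  classical
  set P := univ.filter (fun q : Fin n × Fin n => s(q.1, q.2) = e) with hP
  have hPc : P.card ≤ 2 := pair_card e
  set A := (P ×ˢ (univ : Finset (Fin n))) with hA
  have hAc : A.card ≤ 2 * n := by
    rw [hA, card_product, card_univ, Fintype.card_fin]
    exact Nat.mul_le_mul_right n hPc
  have hsub : (tri L).filter (fun p => e ∈ edges p) ⊆
      A.image (fun x => (x.1.1, x.1.2, x.2)) ∪ A.image (fun x => (x.2, x.1.1, x.1.2)) ∪
        A.image (fun x => (x.1.1, x.2, x.1.2)) := by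
    intro p hp
    rw [mem_filter, mem_edges] at hp
    obtain ⟨a, b, c⟩ := p
    simp only at hp
    simp only [mem_union, mem_image, hA, mem_product, hP, mem_filter, mem_univ, true_and,
      and_true]
    rcases hp.2 with h | h | h
    · left; left; exact ⟨((a, b), c), h.symm, rfl⟩
    · left; right; exact ⟨((b, c), a), h.symm, rfl⟩
    · right; exact ⟨((a, c), b), h.symm, rfl⟩
  calc ((tri L).filter (fun p => e ∈ edges p)).card
      ≤ _ := card_le_card hsub
    _ ≤ (A.image (fun x => (x.1.1, x.1.2, x.2)) ∪ A.image (fun x => (x.2, x.1.1, x.1.2))).card +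
        (A.image (fun x => (x.1.1, x.2, x.1.2))).card := card_union_le _ _
    _ ≤ ((A.image (fun x => (x.1.1, x.1.2, x.2))).card +
        (A.image (fun x => (x.2, x.1.1, x.1.2))).card) +
        (A.image (fun x => (x.1.1, x.2, x.1.2))).card := by
          gcongr; exact card_union_le _ _
    _ ≤ (A.card + A.card) + A.card := by
          gcongr <;> exact card_image_le
    _ ≤ 6 * n := by omega

/-- the number of ordered triangles through two given distinct edges -/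
lemma card_through_two {n : ℕ} (L : Finset (Sym2 (Fin n)))
    (e f : Sym2 (Fin n)) (hef : e ≠ f) :
    ((tri L).filter (fun p => e ∈ edges p ∧ f ∈ edges p)).card ≤ 12 := by
  classical
  -- the six ordered positions
  have key : ∀ (g : Fin n × Fin n × Fin n → Sym2 (Fin n)) (h : Fin n × Fin n × Fin n → Sym2 (Fin n))
      (π : Fin n × Fin n × Fin n → Fin n × Fin n),
      (∀ p, g p = s((π p).1, (π p).2)) →
      (∀ p ∈ tri L, ∀ p' ∈ tri L, π p = π p' → h p = h p' → p = p') →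
      ((tri L).filter (fun p => g p = e ∧ h p = f)).card ≤ 2 := by
    intro g h π hg hinj
    refine le_trans (card_le_card_of_injOn π ?_ ?_) (pair_card e)
    · intro p hp
      rw [mem_coe, mem_filter] at hp ⊢
      exact ⟨mem_univ _, by rw [← hg]; exact hp.2.1⟩
    · intro p hp p' hp' hπ
      rw [mem_coe, mem_filter] at hp hp'
      exact hinj p hp.1 p' hp'.1 hπ (by rw [hp.2.2, hp'.2.2])
  have k1 := key (fun p => s(p.1, p.2.1)) (fun p => s(p.2.1, p.2.2)) (fun p => (p.1, p.2.1))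
    (fun p => rfl) (by
      rintro ⟨a, b, c⟩ _ ⟨a', b', c'⟩ _ h1 h2
      simp only [Prod.mk.injEq] at h1 h2 ⊢
      obtain ⟨rfl, rfl⟩ := h1
      exact ⟨rfl, rfl, Sym2.congr_right.1 h2⟩)
  have k2 := key (fun p => s(p.1, p.2.1)) (fun p => s(p.1, p.2.2)) (fun p => (p.1, p.2.1))
    (fun p => rfl) (by
      rintro ⟨a, b, c⟩ _ ⟨a', b', c'⟩ _ h1 h2
      simp only [Prod.mk.injEq] at h1 h2 ⊢
      obtain ⟨rfl, rfl⟩ := h1
      exact ⟨rfl, rfl, Sym2.congr_right.1 h2⟩)
  have k3 := key (fun p => s(p.2.1, p.2.2)) (fun p => s(p.1, p.2.1)) (fun p => (p.2.1, p.2.2))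
    (fun p => rfl) (by
      rintro ⟨a, b, c⟩ _ ⟨a', b', c'⟩ _ h1 h2
      simp only [Prod.mk.injEq] at h1 h2 ⊢
      obtain ⟨rfl, rfl⟩ := h1
      exact ⟨Sym2.congr_left.1 h2, rfl, rfl⟩)
  have k4 := key (fun p => s(p.2.1, p.2.2)) (fun p => s(p.1, p.2.2)) (fun p => (p.2.1, p.2.2))
    (fun p => rfl) (by
      rintro ⟨a, b, c⟩ _ ⟨a', b', c'⟩ _ h1 h2
      simp only [Prod.mk.injEq] at h1 h2 ⊢
      obtain ⟨rfl, rfl⟩ := h1
      exact ⟨Sym2.congr_left.1 h2, rfl, rfl⟩)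
  have k5 := key (fun p => s(p.1, p.2.2)) (fun p => s(p.1, p.2.1)) (fun p => (p.1, p.2.2))
    (fun p => rfl) (by
      rintro ⟨a, b, c⟩ _ ⟨a', b', c'⟩ _ h1 h2
      simp only [Prod.mk.injEq] at h1 h2 ⊢
      obtain ⟨rfl, rfl⟩ := h1
      exact ⟨rfl, Sym2.congr_right.1 h2, rfl⟩)
  have k6 := key (fun p => s(p.1, p.2.2)) (fun p => s(p.2.1, p.2.2)) (fun p => (p.1, p.2.2))
    (fun p => rfl) (by
      rintro ⟨a, b, c⟩ _ ⟨a', b', c'⟩ _ h1 h2
      simp only [Prod.mk.injEq] at h1 h2 ⊢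
      obtain ⟨rfl, rfl⟩ := h1
      exact ⟨rfl, Sym2.congr_left.1 h2, rfl⟩)
  have hsub : (tri L).filter (fun p => e ∈ edges p ∧ f ∈ edges p) ⊆
      ((((((tri L).filter (fun p => s(p.1, p.2.1) = e ∧ s(p.2.1, p.2.2) = f)) ∪
        ((tri L).filter (fun p => s(p.1, p.2.1) = e ∧ s(p.1, p.2.2) = f))) ∪
        ((tri L).filter (fun p => s(p.2.1, p.2.2) = e ∧ s(p.1, p.2.1) = f))) ∪
        ((tri L).filter (fun p => s(p.2.1, p.2.2) = e ∧ s(p.1, p.2.2) = f))) ∪
        ((tri L).filter (fun p => s(p.1, p.2.2) = e ∧ s(p.1, p.2.1) = f))) ∪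
        ((tri L).filter (fun p => s(p.1, p.2.2) = e ∧ s(p.2.1, p.2.2) = f)) := by
    intro p hp
    rw [mem_filter, mem_edges, mem_edges] at hp
    obtain ⟨hpt, he, hf⟩ := hp
    simp only [mem_union, mem_filter, hpt, true_and]
    rcases he with he | he | he <;> rcases hf with hf | hf | hf
    · exact absurd (he.trans hf.symm) hef
    · simp [he, hf]
    · simp [he, hf]
    · simp [he, hf]
    · exact absurd (he.trans hf.symm) hef
    · simp [he, hf]
    · simp [he, hf]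
    · simp [he, hf]
    · exact absurd (he.trans hf.symm) hef
  have h0 := card_le_card hsub
  have u1 := card_union_le (((((tri L).filter (fun p => s(p.1, p.2.1) = e ∧ s(p.2.1, p.2.2) = f)) ∪
        ((tri L).filter (fun p => s(p.1, p.2.1) = e ∧ s(p.1, p.2.2) = f))) ∪
        ((tri L).filter (fun p => s(p.2.1, p.2.2) = e ∧ s(p.1, p.2.1) = f))) ∪
        ((tri L).filter (fun p => s(p.2.1, p.2.2) = e ∧ s(p.1, p.2.2) = f)) ∪
        ((tri L).filter (fun p => s(p.1, p.2.2) = e ∧ s(p.1, p.2.1) = f)))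
        ((tri L).filter (fun p => s(p.1, p.2.2) = e ∧ s(p.2.1, p.2.2) = f))
  have u2 := card_union_le ((((tri L).filter (fun p => s(p.1, p.2.1) = e ∧ s(p.2.1, p.2.2) = f)) ∪
        ((tri L).filter (fun p => s(p.1, p.2.1) = e ∧ s(p.1, p.2.2) = f))) ∪
        ((tri L).filter (fun p => s(p.2.1, p.2.2) = e ∧ s(p.1, p.2.1) = f)) ∪
        ((tri L).filter (fun p => s(p.2.1, p.2.2) = e ∧ s(p.1, p.2.2) = f)))
        ((tri L).filter (fun p => s(p.1, p.2.2) = e ∧ s(p.1, p.2.1) = f))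
  have u3 := card_union_le (((tri L).filter (fun p => s(p.1, p.2.1) = e ∧ s(p.2.1, p.2.2) = f)) ∪
        ((tri L).filter (fun p => s(p.1, p.2.1) = e ∧ s(p.1, p.2.2) = f)) ∪
        ((tri L).filter (fun p => s(p.2.1, p.2.2) = e ∧ s(p.1, p.2.1) = f)))
        ((tri L).filter (fun p => s(p.2.1, p.2.2) = e ∧ s(p.1, p.2.2) = f))
  have u4 := card_union_le (((tri L).filter (fun p => s(p.1, p.2.1) = e ∧ s(p.2.1, p.2.2) = f)) ∪
        ((tri L).filter (fun p => s(p.1, p.2.1) = e ∧ s(p.1, p.2.2) = f)))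
        ((tri L).filter (fun p => s(p.2.1, p.2.2) = e ∧ s(p.1, p.2.1) = f))
  have u5 := card_union_le ((tri L).filter (fun p => s(p.1, p.2.1) = e ∧ s(p.2.1, p.2.2) = f))
        ((tri L).filter (fun p => s(p.1, p.2.1) = e ∧ s(p.1, p.2.2) = f))
  omega

end Pool.Agent.Lib_helper21.TriRound
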