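import Pool.Agent.Lib_helper21.TriRoundB

/-!
The averaging argument for one round of random restrictions.
-/

namespace Pool.Agent.Lib_helper21.TriRound

open Finset

/-- all three pairs of an ordered triple keep live types -/
def LiveTri {n : ℕ} (τ : Fin n → Fin 6) (p : Fin n × Fin n × Fin n) : Prop :=
  s(τ p.1, τ p.2.1) ∈ liveT ∧ s(τ p.2.1, τ p.2.2) ∈ liveT ∧ s(τ p.1, τ p.2.2) ∈ liveT

instance {n : ℕ} (τ : Fin n → Fin 6) (p : Fin n × Fin n × Fin n) : Decidable (LiveTri τ p) := by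
  unfold LiveTri; infer_instance

/-- colour zero on the triple, and no conflict with another edge of colour zero -/
def GoodCol {n : ℕ} {ι : Type*} (O : Finset ι) (S : ι → Finset (Sym2 (Fin n))) {r : ℕ}
    (c : Sym2 (Fin n) → Fin (r + 1)) (p : Fin n × Fin n × Fin n) : Prop :=
  (∀ e ∈ edges p, c e = 0) ∧
    ∀ o ∈ O, ∀ e ∈ S o, ∀ f ∈ S o, f ≠ e → e ∈ edges p → c f ≠ 0

noncomputable instance {n : ℕ} {ι : Type*} (O : Finset ι) (S : ι → Finset (Sym2 (Fin n)))
    {r : ℕ} (c : Sym2 (Fin n) → Fin (r + 1)) (p : Fin n × Fin n × Fin n) :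
    Decidable (GoodCol O S c p) := Classical.propDecidable _

/-- number of colourings that vanish on `Z` -/
lemma card_zero {α : Type*} [Fintype α] [DecidableEq α] (r : ℕ) (Z : Finset α) :
    (univ.filter (fun c : α → Fin (r + 1) => ∀ e ∈ Z, c e = 0)).card
      = (r + 1) ^ (Fintype.card α - Z.card) := by
  have := card_agree (α := Fin (r + 1)) Z (fun _ => 0)
  simpa using this

variable {n : ℕ} {ι : Type*}

/-- lower bound for the number of good colourings of a fixed triple -/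
lemma goodCol_count (O : Finset ι) (S : ι → Finset (Sym2 (Fin n))) (r : ℕ)
    (p : Fin n × Fin n × Fin n) (hp : p.1 ≠ p.2.1 ∧ p.2.1 ≠ p.2.2 ∧ p.1 ≠ p.2.2) :
    ((r + 1 : ℕ) : ℝ) ^ (Fintype.card (Sym2 (Fin n)) - 3)
      - ∑ o ∈ O, ∑ e ∈ S o, ∑ f ∈ S o, (if f ≠ e ∧ e ∈ edges p then
          (if f ∈ edges p then ((r + 1 : ℕ) : ℝ) ^ (Fintype.card (Sym2 (Fin n)) - 3)
            else ((r + 1 : ℕ) : ℝ) ^ (Fintype.card (Sym2 (Fin n)) - 4)) else 0)
      ≤ ((univ.filter (fun c : Sym2 (Fin n) → Fin (r + 1) => GoodCol O S c p)).card : ℝ) := by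
  classical
  have h3 := card_edges hp
  set Q := Fintype.card (Sym2 (Fin n)) with hQ
  -- zero on the triple
  have hz : ((univ.filter (fun c : Sym2 (Fin n) → Fin (r + 1) => ∀ e ∈ edges p, c e = 0)).card : ℝ)
      = ((r + 1 : ℕ) : ℝ) ^ (Q - 3) := by
    rw [card_zero, h3]; push_cast; rfl
  -- the damaged colourings
  set Bd := univ.filter (fun c : Sym2 (Fin n) → Fin (r + 1) => (∀ e ∈ edges p, c e = 0) ∧
    ∃ o ∈ O, ∃ e ∈ S o, ∃ f ∈ S o, f ≠ e ∧ e ∈ edges p ∧ c f = 0) with hBd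
  have hsplit : (univ.filter (fun c : Sym2 (Fin n) → Fin (r + 1) => ∀ e ∈ edges p, c e = 0))
      ⊆ (univ.filter (fun c : Sym2 (Fin n) → Fin (r + 1) => GoodCol O S c p)) ∪ Bd := by
    intro c hc
    simp only [mem_filter, mem_univ, true_and] at hc
    simp only [mem_union, mem_filter, mem_univ, true_and, hBd]
    by_cases h : ∃ o ∈ O, ∃ e ∈ S o, ∃ f ∈ S o, f ≠ e ∧ e ∈ edges p ∧ c f = 0
    · right; exact ⟨hc, h⟩
    · left
      refine ⟨hc, ?_⟩
      intro o ho e he f hf hfe hep hcf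
      exact h ⟨o, ho, e, he, f, hf, hfe, hep, hcf⟩
  have hBdcard : (Bd.card : ℝ) ≤ ∑ o ∈ O, ∑ e ∈ S o, ∑ f ∈ S o, (if f ≠ e ∧ e ∈ edges p then
          (if f ∈ edges p then ((r + 1 : ℕ) : ℝ) ^ (Q - 3)
            else ((r + 1 : ℕ) : ℝ) ^ (Q - 4)) else 0) := by
    have hsub : Bd ⊆ O.biUnion (fun o => (S o).biUnion (fun e => (S o).biUnion (fun f =>
        if f ≠ e ∧ e ∈ edges p then
          univ.filter (fun c : Sym2 (Fin n) → Fin (r + 1) => ∀ g ∈ insert f (edges p), c g = 0)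
        else ∅))) := by
      intro c hc
      simp only [hBd, mem_filter, mem_univ, true_and] at hc
      obtain ⟨hc0, o, ho, e, he, f, hf, hfe, hep, hcf⟩ := hc
      simp only [mem_biUnion]
      refine ⟨o, ho, e, he, f, hf, ?_⟩
      rw [if_pos ⟨hfe, hep⟩, mem_filter]
      refine ⟨mem_univ _, fun g hg => ?_⟩
      rcases mem_insert.1 hg with rfl | hg
      · exact hcf
      · exact hc0 g hg
    have h1 : Bd.card ≤ ∑ o ∈ O, ∑ e ∈ S o, ∑ f ∈ S o, (if f ≠ e ∧ e ∈ edges p then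
          (univ.filter (fun c : Sym2 (Fin n) → Fin (r + 1) =>
            ∀ g ∈ insert f (edges p), c g = 0)) else ∅).card := by
      refine (card_le_card hsub).trans (card_biUnion_le.trans (sum_le_sum fun o _ => ?_))
      refine card_biUnion_le.trans (sum_le_sum fun e _ => ?_)
      exact card_biUnion_le
    have h2 : (Bd.card : ℝ) ≤ ∑ o ∈ O, ∑ e ∈ S o, ∑ f ∈ S o, (((if f ≠ e ∧ e ∈ edges p then
          (univ.filter (fun c : Sym2 (Fin n) → Fin (r + 1) =>
            ∀ g ∈ insert f (edges p), c g = 0)) else ∅).card : ℕ) : ℝ) := by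
      exact_mod_cast h1
    refine h2.trans (le_of_eq ?_)
    refine sum_congr rfl fun o _ => sum_congr rfl fun e _ => sum_congr rfl fun f _ => ?_
    by_cases hc : f ≠ e ∧ e ∈ edges p
    · rw [if_pos hc, if_pos hc, card_zero]
      by_cases hf : f ∈ edges p
      · rw [if_pos hf, insert_eq_of_mem hf, h3]; push_cast; rfl
      · rw [if_neg hf, card_insert_of_notMem hf, h3]; push_cast; rfl
    · rw [if_neg hc, if_neg hc]; simp
  have h4 : ((univ.filter (fun c : Sym2 (Fin n) → Fin (r + 1) => ∀ e ∈ edges p, c e = 0)).card : ℝ)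
      ≤ ((univ.filter (fun c : Sym2 (Fin n) → Fin (r + 1) => GoodCol O S c p)).card : ℝ)
        + (Bd.card : ℝ) := by
    exact_mod_cast (card_le_card hsplit).trans (card_union_le _ _)
  rw [hz] at h4
  linarith

/-- the total damage -/
lemma damage_total (L : Finset (Sym2 (Fin n))) (O : Finset ι)
    (S : ι → Finset (Sym2 (Fin n))) (Δ : ℕ) (hΔ : ∀ o ∈ O, (S o).card ≤ Δ) (A B : ℝ)
    (hA : 0 ≤ A) (hB : 0 ≤ B) :
    ∑ p ∈ tri L, ∑ o ∈ O, ∑ e ∈ S o, ∑ f ∈ S o, (if f ≠ e ∧ e ∈ edges p then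
          (if f ∈ edges p then A else B) else 0)
      ≤ (O.card : ℝ) * Δ ^ 2 * (12 * A + 6 * n * B) := by
  classical
  have hswap : ∑ p ∈ tri L, ∑ o ∈ O, ∑ e ∈ S o, ∑ f ∈ S o, (if f ≠ e ∧ e ∈ edges p then
          (if f ∈ edges p then A else B) else 0)
      = ∑ o ∈ O, ∑ e ∈ S o, ∑ f ∈ S o, ∑ p ∈ tri L, (if f ≠ e ∧ e ∈ edges p then
          (if f ∈ edges p then A else B) else 0) := by
    rw [sum_comm]
    refine sum_congr rfl fun o _ => ?_
    rw [sum_comm]
    refine sum_congr rfl fun e _ => ?_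
    rw [sum_comm]
  rw [hswap]
  have hterm : ∀ o ∈ O, ∀ e ∈ S o, ∀ f ∈ S o, ∑ p ∈ tri L, (if f ≠ e ∧ e ∈ edges p then
          (if f ∈ edges p then A else B) else 0) ≤ 12 * A + 6 * n * B := by
    intro o _ e _ f _
    by_cases hfe : f = e
    · simp only [hfe, ne_eq, not_true_eq_false, false_and, if_false, sum_const_zero]
      positivity
    · have h1 : ∑ p ∈ tri L, (if f ≠ e ∧ e ∈ edges p then
          (if f ∈ edges p then A else B) else 0)
          ≤ ∑ p ∈ tri L, ((if e ∈ edges p ∧ f ∈ edges p then A else 0)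
            + (if e ∈ edges p then B else 0)) := by
        refine sum_le_sum fun p _ => ?_
        by_cases he : e ∈ edges p <;> by_cases hf : f ∈ edges p <;> simp [he, hf, hfe, hB]
      refine h1.trans ?_
      rw [sum_add_distrib, ← sum_filter, ← sum_filter, sum_const, sum_const, nsmul_eq_mul,
        nsmul_eq_mul]
      have c1 : (((tri L).filter (fun p => e ∈ edges p ∧ f ∈ edges p)).card : ℝ) ≤ 12 := by
        exact_mod_cast card_through_two L e f (Ne.symm hfe)
      have c2 : (((tri L).filter (fun p => e ∈ edges p)).card : ℝ) ≤ 6 * n := by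
        exact_mod_cast card_through L e
      gcongr
  calc ∑ o ∈ O, ∑ e ∈ S o, ∑ f ∈ S o, ∑ p ∈ tri L, (if f ≠ e ∧ e ∈ edges p then
          (if f ∈ edges p then A else B) else 0)
      ≤ ∑ o ∈ O, ∑ e ∈ S o, ∑ f ∈ S o, (12 * A + 6 * n * B) :=
        sum_le_sum fun o ho => sum_le_sum fun e he => sum_le_sum fun f hf => hterm o ho e he f hf
    _ = ∑ o ∈ O, ((S o).card : ℝ) * ((S o).card : ℝ) * (12 * A + 6 * n * B) := by
        refine sum_congr rfl fun o _ => ?_
        rw [sum_const, sum_const, nsmul_eq_mul, nsmul_eq_mul]; ring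
    _ ≤ ∑ o ∈ O, (Δ : ℝ) * (Δ : ℝ) * (12 * A + 6 * n * B) := by
        refine sum_le_sum fun o ho => ?_
        have : ((S o).card : ℝ) ≤ Δ := by exact_mod_cast hΔ o ho
        have h0 : 0 ≤ 12 * A + 6 * n * B := by positivity
        gcongr
    _ = (O.card : ℝ) * Δ ^ 2 * (12 * A + 6 * n * B) := by
        rw [sum_const, nsmul_eq_mul]; ring

end Pool.Agent.Lib_helper21.TriRound
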