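import Pool.Agent.Lib_helper21.TriRoundC

/-!
One round of random restrictions: existence of good types and colours.
-/

namespace Pool.Agent.Lib_helper21.TriRound

open Finset

variable {n : ℕ} {ι : Type*}

lemma card_bad_real (S : Finset (Sym2 (Fin n))) (hS : ∀ e ∈ S, ¬ e.IsDiag) (s : ℕ)
    (hs : 4 * s ^ 2 ≤ S.card) (κ : Sym2 (Fin n) → Bool) :
    ((univ.filter (fun τ : Fin n → Fin 6 => ∀ e ∈ S, ¬ Hit τ (κ e) e)).card : ℝ)
      ≤ (5 / 6 : ℝ) ^ s * 6 ^ n := by
  classical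
  obtain ⟨Λ, u, hcard, hu⟩ := exists_leaves S hS s hs
  have hsn : s ≤ n := by
    have := Finset.card_le_univ Λ
    rw [hcard, Fintype.card_fin] at this
    exact this
  have h1 := card_bad S hS s hs κ
  have h2 : ((univ.filter (fun τ : Fin n → Fin 6 => ∀ e ∈ S, ¬ Hit τ (κ e) e)).card : ℝ)
      ≤ (5 : ℝ) ^ s * 6 ^ (n - s) := by exact_mod_cast h1
  refine h2.trans (le_of_eq ?_)
  obtain ⟨m, rfl⟩ : ∃ m, n = s + m := ⟨n - s, by omega⟩
  rw [Nat.add_sub_cancel_left, pow_add, div_pow]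
  field_simp

lemma round_avg (L : Finset (Sym2 (Fin n))) (hL : ∀ e ∈ L, ¬ e.IsDiag) (O : Finset ι)
    (S : ι → Finset (Sym2 (Fin n))) (κ : ι → Sym2 (Fin n) → Bool) (big : ι → Prop)
    (Δ s r : ℕ) (hS : ∀ o ∈ O, ∀ e ∈ S o, ¬ e.IsDiag) (hΔ : ∀ o ∈ O, (S o).card ≤ Δ)
    (hbig : ∀ o ∈ O, big o → 4 * s ^ 2 ≤ (S o).card)
    (hbad : (O.card : ℝ) * (5 / 6) ^ s ≤ 1 / 144)
    (h1 : 96 * ((O.card : ℝ) * Δ ^ 2) ≤ (tri L).card)
    (h2 : 48 * n * ((O.card : ℝ) * Δ ^ 2) ≤ (tri L).card * (r + 1))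
    (ht : 0 < (tri L).card) :
    ∃ τ : Fin n → Fin 6, (∀ o ∈ O, big o → ∃ e ∈ S o, Hit τ (κ o e) e) ∧
      ∃ c : Sym2 (Fin n) → Fin (r + 1), ((tri L).card : ℝ) / (72 * (r + 1) ^ 3) ≤
        ((tri L).filter (fun p => LiveTri τ p ∧ GoodCol O S c p)).card := by
  classical
  -- `n ≥ 3`
  have hn : 3 ≤ n := by
    obtain ⟨p, hp⟩ := card_pos.1 ht
    have hne := tri_ne hL hp
    have h3 : ({p.1, p.2.1, p.2.2} : Finset (Fin n)).card = 3 := by
      rw [Finset.card_insert_of_notMem, Finset.card_insert_of_notMem, Finset.card_singleton]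
      · simpa using hne.2.1
      · simp [hne.1, hne.2.2]
    have := Finset.card_le_univ ({p.1, p.2.1, p.2.2} : Finset (Fin n))
    rw [h3] at this
    simpa using this
  set N := Fintype.card (Sym2 (Fin n)) with hN
  have hN4 : 4 ≤ N := by
    rw [hN, Sym2.card, Fintype.card_fin]
    have : (3 + 1).choose 2 ≤ (n + 1).choose 2 := Nat.choose_le_choose 2 (by omega)
    have h6 : (3 + 1).choose 2 = 6 := by decide
    omega
  set q : ℝ := ((r + 1 : ℕ) : ℝ) with hq
  have hqpos : 0 < q := by rw [hq]; positivity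
  have hqr : q = (r : ℝ) + 1 := by rw [hq]; push_cast; ring
  set Q3 := q ^ (N - 3) with hQ3
  set Q4 := q ^ (N - 4) with hQ4
  have hQ34 : Q3 = q * Q4 := by
    rw [hQ3, hQ4, ← pow_succ']; congr 1; omega
  have hQ3pos : 0 < Q3 := by positivity
  have hQ4pos : 0 < Q4 := by positivity
  have hQN : q ^ N = q ^ 3 * Q3 := by
    rw [hQ3, ← pow_add]; congr 1; omega
  set t : ℝ := ((tri L).card : ℝ) with htdef
  have htpos : 0 < t := by rw [htdef]; exact_mod_cast ht
  set K : ℝ := (O.card : ℝ) * Δ ^ 2 with hK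
  have hK0 : 0 ≤ K := by rw [hK]; positivity
  -- the counting function
  set F : (Fin n → Fin 6) → (Sym2 (Fin n) → Fin (r + 1)) → ℝ := fun τ c =>
    (((tri L).filter (fun p => LiveTri τ p ∧ GoodCol O S c p)).card : ℝ) with hF
  have hFsum : ∀ τ c, F τ c = ∑ p ∈ tri L,
      (if LiveTri τ p then (1 : ℝ) else 0) * (if GoodCol O S c p then (1 : ℝ) else 0) := by
    intro τ c
    rw [hF]
    simp only
    rw [card_filter]
    push_cast
    refine sum_congr rfl fun p _ => ?_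
    by_cases ha : LiveTri τ p <;> by_cases hb : GoodCol O S c p <;> simp [ha, hb]
  -- total sum
  have htotal : ∑ τ : Fin n → Fin 6, ∑ c : Sym2 (Fin n) → Fin (r + 1), F τ c
      = ∑ p ∈ tri L, (6 : ℝ) ^ (n - 2) *
        ((univ.filter (fun c : Sym2 (Fin n) → Fin (r + 1) => GoodCol O S c p)).card : ℝ) := by
    have e1 : ∑ τ : Fin n → Fin 6, ∑ c : Sym2 (Fin n) → Fin (r + 1), F τ c
        = ∑ p ∈ tri L, (∑ τ : Fin n → Fin 6, (if LiveTri τ p then (1 : ℝ) else 0)) *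
          (∑ c : Sym2 (Fin n) → Fin (r + 1), (if GoodCol O S c p then (1 : ℝ) else 0)) := by
      calc ∑ τ : Fin n → Fin 6, ∑ c : Sym2 (Fin n) → Fin (r + 1), F τ c
          = ∑ τ : Fin n → Fin 6, ∑ c : Sym2 (Fin n) → Fin (r + 1), ∑ p ∈ tri L,
            (if LiveTri τ p then (1 : ℝ) else 0) * (if GoodCol O S c p then (1 : ℝ) else 0) :=
            sum_congr rfl fun τ _ => sum_congr rfl fun c _ => hFsum τ c
        _ = ∑ τ : Fin n → Fin 6, ∑ p ∈ tri L, ∑ c : Sym2 (Fin n) → Fin (r + 1),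
            (if LiveTri τ p then (1 : ℝ) else 0) * (if GoodCol O S c p then (1 : ℝ) else 0) :=
            sum_congr rfl fun τ _ => sum_comm
        _ = ∑ p ∈ tri L, ∑ τ : Fin n → Fin 6, ∑ c : Sym2 (Fin n) → Fin (r + 1),
            (if LiveTri τ p then (1 : ℝ) else 0) * (if GoodCol O S c p then (1 : ℝ) else 0) :=
            sum_comm
        _ = _ := by
            refine sum_congr rfl fun p _ => ?_
            rw [sum_mul_sum]
    rw [e1]
    refine sum_congr rfl fun p hp => ?_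
    have hne := tri_ne hL hp
    congr 1
    · have := card_types p.1 p.2.1 p.2.2 hne.1 hne.2.1 hne.2.2
      rw [Finset.sum_boole]
      have h' : (univ.filter (fun τ : Fin n → Fin 6 => LiveTri τ p)).card = 6 ^ (n - 2) := by
        rw [← this]; rfl
      rw [h']; push_cast; rfl
    · rw [Finset.sum_boole]
  have hlow : (6 : ℝ) ^ (n - 2) * (t * Q3 * (3 / 4))
      ≤ ∑ τ : Fin n → Fin 6, ∑ c : Sym2 (Fin n) → Fin (r + 1), F τ c := by
    rw [htotal, ← mul_sum]
    refine mul_le_mul_of_nonneg_left ?_ (by positivity)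
    have hd := damage_total L O S Δ hΔ Q3 Q4 hQ3pos.le hQ4pos.le
    have hsum : ∑ p ∈ tri L, (Q3 - ∑ o ∈ O, ∑ e ∈ S o, ∑ f ∈ S o,
          (if f ≠ e ∧ e ∈ edges p then (if f ∈ edges p then Q3 else Q4) else 0))
        ≤ ∑ p ∈ tri L,
          ((univ.filter (fun c : Sym2 (Fin n) → Fin (r + 1) => GoodCol O S c p)).card : ℝ) :=
      sum_le_sum fun p hp => goodCol_count O S r p (tri_ne hL hp)
    refine le_trans ?_ hsum
    rw [sum_sub_distrib, sum_const, nsmul_eq_mul]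
    have hx : K * (12 * Q3 + 6 * n * Q4) ≤ t * Q3 * (1 / 4) := by
      have a1 : 12 * K ≤ t * (1 / 8) := by linarith
      have a2 : 6 * n * K ≤ t * q * (1 / 8) := by
        rw [hqr]; nlinarith
      have a3 : K * (12 * Q3 + 6 * n * Q4) = 12 * K * Q3 + 6 * n * K * Q4 := by ring
      rw [a3, hQ34]
      have a4 : 12 * K * (q * Q4) ≤ t * (1 / 8) * (q * Q4) :=
        mul_le_mul_of_nonneg_right a1 (by positivity)
      have a5 : 6 * n * K * Q4 ≤ t * q * (1 / 8) * Q4 :=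
        mul_le_mul_of_nonneg_right a2 hQ4pos.le
      nlinarith
    linarith
  -- bad types
  set Bd : Finset (Fin n → Fin 6) := univ.filter (fun τ => ∃ o ∈ O, big o ∧
    ∀ e ∈ S o, ¬ Hit τ (κ o e) e) with hBd
  have hBdcard : (Bd.card : ℝ) ≤ 6 ^ (n - 2) * (1 / 4) := by
    have hsub : Bd ⊆ O.biUnion (fun o => if big o then
        univ.filter (fun τ : Fin n → Fin 6 => ∀ e ∈ S o, ¬ Hit τ (κ o e) e) else ∅) := by
      intro τ hτ
      simp only [hBd, mem_filter, mem_univ, true_and] at hτ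
      obtain ⟨o, ho, hb, h⟩ := hτ
      rw [mem_biUnion]
      refine ⟨o, ho, ?_⟩
      rw [if_pos hb, mem_filter]
      exact ⟨mem_univ _, h⟩
    have h3 : (Bd.card : ℝ) ≤ ∑ o ∈ O, ((if big o then
        univ.filter (fun τ : Fin n → Fin 6 => ∀ e ∈ S o, ¬ Hit τ (κ o e) e) else ∅).card : ℝ) := by
      exact_mod_cast (card_le_card hsub).trans card_biUnion_le
    have h4 : ∑ o ∈ O, ((if big o then
        univ.filter (fun τ : Fin n → Fin 6 => ∀ e ∈ S o, ¬ Hit τ (κ o e) e) else ∅).card : ℝ)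
        ≤ ∑ o ∈ O, (5 / 6 : ℝ) ^ s * 6 ^ n := by
      refine sum_le_sum fun o ho => ?_
      by_cases hb : big o
      · rw [if_pos hb]
        exact card_bad_real (S o) (hS o ho) s (hbig o ho hb) (κ o)
      · rw [if_neg hb]; simp; positivity
    rw [sum_const, nsmul_eq_mul] at h4
    have h6 : (6 : ℝ) ^ n = 36 * 6 ^ (n - 2) := by
      obtain ⟨m, rfl⟩ : ∃ m, n = m + 2 := ⟨n - 2, by omega⟩
      rw [Nat.add_sub_cancel, pow_add]; ring
    have h7 : (O.card : ℝ) * ((5 / 6 : ℝ) ^ s * 6 ^ n) ≤ 1 / 144 * 6 ^ n := by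
      rw [← mul_assoc]
      exact mul_le_mul_of_nonneg_right hbad (by positivity)
    rw [h6] at h7 h4
    linarith
  have hbadsum : ∑ τ ∈ Bd, ∑ c : Sym2 (Fin n) → Fin (r + 1), F τ c ≤ Bd.card * (t * Q3) := by
    rw [← nsmul_eq_mul, ← sum_const]
    refine sum_le_sum fun τ _ => ?_
    have : ∀ c : Sym2 (Fin n) → Fin (r + 1), F τ c ≤ ∑ p ∈ tri L,
        (if (∀ e ∈ edges p, c e = 0) then (1 : ℝ) else 0) := by
      intro c
      rw [hFsum]
      refine sum_le_sum fun p _ => ?_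
      by_cases ha : LiveTri τ p
      · by_cases hb : GoodCol O S c p
        · have : ∀ e ∈ edges p, c e = 0 := hb.1
          rw [if_pos ha, if_pos hb, if_pos this]; norm_num
        · simp only [ha, hb, if_true, if_false, mul_zero]
          split_ifs <;> norm_num
      · simp only [ha, if_false, zero_mul]
        split_ifs <;> norm_num
    calc ∑ c : Sym2 (Fin n) → Fin (r + 1), F τ c
        ≤ ∑ c : Sym2 (Fin n) → Fin (r + 1), ∑ p ∈ tri L,
          (if (∀ e ∈ edges p, c e = 0) then (1 : ℝ) else 0) := sum_le_sum fun c _ => this c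
      _ = ∑ p ∈ tri L, ∑ c : Sym2 (Fin n) → Fin (r + 1),
          (if (∀ e ∈ edges p, c e = 0) then (1 : ℝ) else 0) := sum_comm
      _ = ∑ p ∈ tri L, Q3 := by
          refine sum_congr rfl fun p hp => ?_
          rw [Finset.sum_boole, card_zero, card_edges (tri_ne hL hp), ← hN]
          rw [hQ3, hq]; push_cast; rfl
      _ = t * Q3 := by rw [sum_const, nsmul_eq_mul]
  -- the good types
  set Gd : Finset (Fin n → Fin 6) := univ \ Bd with hGd
  have hsplit : ∑ τ ∈ Gd, ∑ c : Sym2 (Fin n) → Fin (r + 1), F τ c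
      = (∑ τ : Fin n → Fin 6, ∑ c : Sym2 (Fin n) → Fin (r + 1), F τ c)
        - ∑ τ ∈ Bd, ∑ c : Sym2 (Fin n) → Fin (r + 1), F τ c := by
    rw [eq_sub_iff_add_eq, hGd, sum_sdiff (subset_univ Bd)]
  have hgood : (6 : ℝ) ^ (n - 2) * (t * Q3 * (1 / 2))
      ≤ ∑ τ ∈ Gd, ∑ c : Sym2 (Fin n) → Fin (r + 1), F τ c := by
    rw [hsplit]
    have : (Bd.card : ℝ) * (t * Q3) ≤ 6 ^ (n - 2) * (1 / 4) * (t * Q3) :=
      mul_le_mul_of_nonneg_right hBdcard (by positivity)
    nlinarith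
  have h6n : (6 : ℝ) ^ n = 36 * 6 ^ (n - 2) := by
    obtain ⟨m, rfl⟩ : ∃ m, n = m + 2 := ⟨n - 2, by omega⟩
    rw [Nat.add_sub_cancel, pow_add]; ring
  have hGdcard : (Gd.card : ℝ) ≤ 6 ^ n := by
    have : Gd.card ≤ (univ : Finset (Fin n → Fin 6)).card := card_le_card (subset_univ _)
    rw [card_univ, Fintype.card_fun, Fintype.card_fin, Fintype.card_fin] at this
    exact_mod_cast this
  have hGdne : (Gd ×ˢ (univ : Finset (Sym2 (Fin n) → Fin (r + 1)))).Nonempty := by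
    rw [nonempty_product]
    refine ⟨?_, univ_nonempty⟩
    rw [nonempty_iff_ne_empty]
    intro h0
    rw [h0, sum_empty] at hgood
    have : 0 < (6 : ℝ) ^ (n - 2) * (t * Q3 * (1 / 2)) := by positivity
    linarith
  have hex : ∃ x ∈ Gd ×ˢ (univ : Finset (Sym2 (Fin n) → Fin (r + 1))),
      t / (72 * (r + 1) ^ 3) ≤ F x.1 x.2 := by
    refine exists_le_of_sum_le hGdne ?_
    rw [sum_const, nsmul_eq_mul, card_product, card_univ, Fintype.card_fun, Fintype.card_fin,
      ← hN, sum_product]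
    refine le_trans ?_ hgood
    push_cast
    rw [← hqr]
    have e1 : (Gd.card : ℝ) * q ^ N * (t / (72 * q ^ 3)) = Gd.card * (Q3 * t / 72) := by
      rw [hQN]; field_simp
    rw [e1]
    calc (Gd.card : ℝ) * (Q3 * t / 72) ≤ 6 ^ n * (Q3 * t / 72) :=
          mul_le_mul_of_nonneg_right hGdcard (by positivity)
      _ = _ := by rw [h6n]; ring
  obtain ⟨⟨τ, c⟩, hx, hval⟩ := hex
  have hτ : τ ∉ Bd := by
    rw [mem_product] at hx
    have := hx.1
    rw [hGd, mem_sdiff] at this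
    exact this.2
  refine ⟨τ, ?_, c, hval⟩
  intro o ho hb
  by_contra hcon
  push Not at hcon
  apply hτ
  rw [hBd, mem_filter]
  exact ⟨mem_univ _, o, ho, hb, hcon⟩

end Pool.Agent.Lib_helper21.TriRound
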