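import Pool.Agent.Lib_helper21.TriRoundD

/-!
One round of random restrictions, in the language of subcubes.
-/

namespace Pool.Agent.Lib_helper21.TriRound

open Finset

variable {n : ℕ} {ι : Type*}

lemma round_core (L : Finset (Sym2 (Fin n))) (hL : ∀ e ∈ L, ¬ e.IsDiag) (O : Finset ι)
    (S : ι → Finset (Sym2 (Fin n))) (κ : ι → Sym2 (Fin n) → Bool) (big : ι → Prop)
    (Δ s : ℕ) (M : ℝ) (hS : ∀ o ∈ O, ∀ e ∈ S o, ¬ e.IsDiag) (hΔ : ∀ o ∈ O, (S o).card ≤ Δ)
    (hbig : ∀ o ∈ O, big o → 4 * s ^ 2 ≤ (S o).card)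
    (hM : (O.card : ℝ) * Δ ^ 2 ≤ M) (hMn : (n : ℝ) ^ 2 ≤ M)
    (hbad : (O.card : ℝ) * (5 / 6) ^ s ≤ 1 / 144)
    (h96 : 96 * M ≤ (tri L).card) (hn : 0 < n) :
    ∃ (τ : Fin n → Fin 6) (L' : Finset (Sym2 (Fin n))), L' ⊆ L ∧
      (∀ e ∈ L', e.map τ ∈ liveT) ∧
      (∀ o ∈ O, big o → ∃ e ∈ S o, Hit τ (κ o e) e) ∧
      (∀ o ∈ O, ∀ e ∈ S o, ∀ f ∈ S o, e ∈ L' → f ∈ L' → e = f) ∧
      ((tri L).card : ℝ) ^ 4 / (256 * n * M) ^ 3 ≤ (tri L').card := by
  classical
  have hnR : (0 : ℝ) < n := by exact_mod_cast hn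
  have hMpos : 0 < M := lt_of_lt_of_le (by positivity) hMn
  set t : ℝ := ((tri L).card : ℝ) with ht
  have htpos : 0 < t := lt_of_lt_of_le (by positivity) h96
  have htle : t ≤ n * M := by
    have h1 : (tri L).card ≤ n ^ 3 := by
      calc (tri L).card ≤ (univ : Finset (Fin n × Fin n × Fin n)).card := card_le_univ _
        _ = n ^ 3 := by
          rw [card_univ, Fintype.card_prod, Fintype.card_prod, Fintype.card_fin]; ring
    have h2 : t ≤ (n : ℝ) ^ 3 := by rw [ht]; exact_mod_cast h1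
    nlinarith
  set X : ℝ := 48 * n * M / t with hX
  have hXpos : 0 ≤ X := by rw [hX]; positivity
  set r : ℕ := ⌊X⌋₊ with hr
  have hr1 : X < (r : ℝ) + 1 := Nat.lt_floor_add_one X
  have hr2 : (r : ℝ) ≤ X := Nat.floor_le hXpos
  have hr3 : (r : ℝ) + 1 ≤ 49 * n * M / t := by
    have h1 : 1 ≤ n * M / t := by rw [le_div_iff₀ htpos]; linarith
    have h2 : 49 * n * M / t = X + n * M / t := by rw [hX]; ring
    rw [h2]; linarith
  have h1 : 96 * ((O.card : ℝ) * Δ ^ 2) ≤ (tri L).card := by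
    rw [← ht]; linarith
  have h2 : 48 * n * ((O.card : ℝ) * Δ ^ 2) ≤ (tri L).card * ((r : ℝ) + 1) := by
    rw [← ht]
    have a1 : 48 * n * ((O.card : ℝ) * Δ ^ 2) ≤ 48 * n * M :=
      mul_le_mul_of_nonneg_left hM (by positivity)
    have a2 : 48 * n * M = t * X := by rw [hX]; field_simp
    have a3 : t * X ≤ t * ((r : ℝ) + 1) := mul_le_mul_of_nonneg_left hr1.le htpos.le
    linarith
  have ht0 : 0 < (tri L).card := by
    have : (0 : ℝ) < ((tri L).card : ℝ) := htpos
    exact_mod_cast this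
  obtain ⟨τ, hτ, c, hc⟩ := round_avg L hL O S κ big Δ s r hS hΔ hbig hbad h1 h2 ht0
  refine ⟨τ, L.filter (fun e => e.map τ ∈ liveT ∧ c e = 0 ∧
    ∀ o ∈ O, e ∈ S o → ∀ f ∈ S o, f ≠ e → c f ≠ 0), filter_subset _ _, ?_, hτ, ?_, ?_⟩
  · intro e he
    rw [mem_filter] at he
    exact he.2.1
  · intro o ho e he f hf heL hfL
    rw [mem_filter] at heL hfL
    by_contra hne
    exact heL.2.2.2 o ho he f hf (Ne.symm hne) hfL.2.2.1
  · have hsub : (tri L).filter (fun p => LiveTri τ p ∧ GoodCol O S c p) ⊆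
        tri (L.filter (fun e => e.map τ ∈ liveT ∧ c e = 0 ∧
          ∀ o ∈ O, e ∈ S o → ∀ f ∈ S o, f ≠ e → c f ≠ 0)) := by
      intro p hp
      rw [mem_filter] at hp
      obtain ⟨hpt, hlive, hcol⟩ := hp
      have hpt' := mem_tri.1 hpt
      rw [mem_tri]
      simp only [mem_filter]
      have key : ∀ e ∈ edges p, c e = 0 ∧ ∀ o ∈ O, e ∈ S o → ∀ f ∈ S o, f ≠ e → c f ≠ 0 := by
        intro e he
        exact ⟨hcol.1 e he, fun o ho heo f hf hfe => hcol.2 o ho e heo f hf hfe he⟩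
      refine ⟨⟨hpt'.1, ?_, key _ (mem_edges.2 (Or.inl rfl))⟩,
        ⟨hpt'.2.1, ?_, key _ (mem_edges.2 (Or.inr (Or.inl rfl)))⟩,
        ⟨hpt'.2.2, ?_, key _ (mem_edges.2 (Or.inr (Or.inr rfl)))⟩⟩
      · rw [Sym2.map_mk]; exact hlive.1
      · rw [Sym2.map_mk]; exact hlive.2.1
      · rw [Sym2.map_mk]; exact hlive.2.2
    have hle : (((tri L).filter (fun p => LiveTri τ p ∧ GoodCol O S c p)).card : ℝ) ≤
        ((tri (L.filter (fun e => e.map τ ∈ liveT ∧ c e = 0 ∧
          ∀ o ∈ O, e ∈ S o → ∀ f ∈ S o, f ≠ e → c f ≠ 0))).card : ℝ) := by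
      exact_mod_cast card_le_card hsub
    refine le_trans ?_ (hc.trans hle)
    rw [← ht]
    have hq : (0 : ℝ) < (r : ℝ) + 1 := by positivity
    have e1 : t / (72 * (49 * n * M / t) ^ 3) ≤ t / (72 * ((r : ℝ) + 1) ^ 3) := by
      gcongr
    refine le_trans ?_ e1
    have e2 : t / (72 * (49 * n * M / t) ^ 3) = t ^ 4 / (8470728 * (n * M) ^ 3) := by
      field_simp
      norm_num
    have e3 : (256 * n * M) ^ 3 = 16777216 * (n * M) ^ 3 := by ring
    rw [e2, e3]
    have hp : 0 < (n * M) ^ 3 := by positivity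
    gcongr
    norm_num

/-- Boolean inputs: a truth value for every unordered pair of vertices. -/
abbrev Inp (n : ℕ) := Sym2 (Fin n) → Bool

/-- A subcube of the space of graphs on which triangle detection is still a triangle detection
problem on the live pairs `L`; the other pairs are fixed by `β`. -/
structure Stage (n : ℕ) where
  L : Finset (Sym2 (Fin n))
  β : Inp n
  nodiag : ∀ e ∈ L, ¬ e.IsDiag
  diagβ : ∀ e : Sym2 (Fin n), e.IsDiag → β e = false
  closed : ∀ a b c : Fin n, (s(a, b) ∈ L ∨ β s(a, b) = true) → (s(b, c) ∈ L ∨ β s(b, c) = true) →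
    (s(a, c) ∈ L ∨ β s(a, c) = true) → s(a, b) ∈ L ∧ s(b, c) ∈ L ∧ s(a, c) ∈ L

/-- the inputs belonging to a stage -/
def Stage.Cube (st : Stage n) (x : Inp n) : Prop := ∀ e, e ∉ st.L → x e = st.β e

/-- `f` depends on at most one coordinate on the subcube -/
def Stage.DepOne {α : Type*} (st : Stage n) (f : Inp n → α) : Prop :=
  ∃ e, ∀ x y, st.Cube x → st.Cube y → x e = y e → f x = f y

lemma types_closed : ∀ x y z : Fin 6, (s(x, y) ∈ liveT ∨ s(x, y) ∈ oneT) →
    (s(y, z) ∈ liveT ∨ s(y, z) ∈ oneT) → (s(x, z) ∈ liveT ∨ s(x, z) ∈ oneT) →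
    s(x, y) ∈ liveT ∧ s(y, z) ∈ liveT ∧ s(x, z) ∈ liveT := by decide

/-- the main step -/
theorem step {α : Type*} (st : Stage n) (O : Finset ι) (f : ι → Inp n → α) (Δ s : ℕ) (M : ℝ)
    (hM : (O.card : ℝ) * Δ ^ 2 ≤ M) (hMn : (n : ℝ) ^ 2 ≤ M)
    (hbad : (O.card : ℝ) * (5 / 6) ^ s ≤ 1 / 144)
    (h96 : 96 * M ≤ (tri st.L).card) (hn : 0 < n)
    (hP : ∀ o ∈ O, ∃ (S : Finset (Sym2 (Fin n))) (κ : Sym2 (Fin n) → Bool) (big : Prop),
      S ⊆ st.L ∧ S.card ≤ Δ ∧ (big → 4 * s ^ 2 ≤ S.card) ∧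
      ∀ x y, st.Cube x → st.Cube y → (big → ∃ e ∈ S, x e = κ e) → (∀ e ∈ S, x e = y e) →
        f o x = f o y) :
    ∃ st' : Stage n, (∀ x, st'.Cube x → st.Cube x) ∧
      ((tri st.L).card : ℝ) ^ 4 / (256 * n * M) ^ 3 ≤ (tri st'.L).card ∧
      ∀ o ∈ O, st'.DepOne (f o) := by
  classical
  have hch : ∀ o, ∃ (S : Finset (Sym2 (Fin n))) (κ : Sym2 (Fin n) → Bool) (big : Prop), o ∈ O →
      S ⊆ st.L ∧ S.card ≤ Δ ∧ (big → 4 * s ^ 2 ≤ S.card) ∧
      ∀ x y, st.Cube x → st.Cube y → (big → ∃ e ∈ S, x e = κ e) → (∀ e ∈ S, x e = y e) →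
        f o x = f o y := by
    intro o
    by_cases ho : o ∈ O
    · obtain ⟨S, κ, big, h⟩ := hP o ho
      exact ⟨S, κ, big, fun _ => h⟩
    · exact ⟨∅, fun _ => false, False, fun h => absurd h ho⟩
  choose S κ big hSκ using hch
  obtain ⟨τ, L', hL'L, hlive, hhit, hone, htri⟩ := round_core st.L st.nodiag O S κ big Δ s M
    (fun o ho e he => st.nodiag e ((hSκ o ho).1 he)) (fun o ho => (hSκ o ho).2.1)
    (fun o ho hb => (hSκ o ho).2.2.1 hb) hM hMn hbad h96 hn
  set β' : Inp n := fun e => if e ∈ st.L then decide (e.map τ ∈ oneT) else st.β e with hβ'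
  have hclosed : ∀ a b c : Fin n, (s(a, b) ∈ L' ∨ β' s(a, b) = true) →
      (s(b, c) ∈ L' ∨ β' s(b, c) = true) → (s(a, c) ∈ L' ∨ β' s(a, c) = true) →
      s(a, b) ∈ L' ∧ s(b, c) ∈ L' ∧ s(a, c) ∈ L' := by
    intro a b c h1 h2 h3
    have conv : ∀ e : Sym2 (Fin n), (e ∈ L' ∨ β' e = true) → (e ∈ st.L ∨ st.β e = true) := by
      intro e he
      rcases he with he | he
      · left; exact hL'L he
      · by_cases heL : e ∈ st.L
        · left; exact heL
        · right
          rw [hβ'] at he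
          simpa [heL] using he
    obtain ⟨k1, k2, k3⟩ := st.closed a b c (conv _ h1) (conv _ h2) (conv _ h3)
    have conv2 : ∀ e : Sym2 (Fin n), e ∈ st.L → (e ∈ L' ∨ β' e = true) →
        (e.map τ ∈ liveT ∨ e.map τ ∈ oneT) := by
      intro e heL he
      rcases he with he | he
      · left; exact hlive e he
      · right
        rw [hβ'] at he
        simpa [heL] using he
    have m1 := conv2 _ k1 h1
    have m2 := conv2 _ k2 h2
    have m3 := conv2 _ k3 h3
    rw [Sym2.map_mk] at m1 m2 m3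
    obtain ⟨l1, l2, l3⟩ := types_closed _ _ _ m1 m2 m3
    have conv3 : ∀ e : Sym2 (Fin n), e ∈ st.L → e.map τ ∈ liveT → (e ∈ L' ∨ β' e = true) →
        e ∈ L' := by
      intro e heL hel he
      rcases he with he | he
      · exact he
      · exfalso
        rw [hβ'] at he
        simp only [heL, if_true, decide_eq_true_eq] at he
        exact live_not_one hel he
    exact ⟨conv3 _ k1 (by rw [Sym2.map_mk]; exact l1) h1,
      conv3 _ k2 (by rw [Sym2.map_mk]; exact l2) h2,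
      conv3 _ k3 (by rw [Sym2.map_mk]; exact l3) h3⟩
  let st' : Stage n :=
    { L := L'
      β := β'
      nodiag := fun e he => st.nodiag e (hL'L he)
      diagβ := by
        intro e he
        have : e ∉ st.L := fun h => st.nodiag e h he
        rw [hβ']
        simp only [this, if_false]
        exact st.diagβ e he
      closed := hclosed }
  have hcube : ∀ x, st'.Cube x → st.Cube x := by
    intro x hx e he
    have : e ∉ L' := fun h => he (hL'L h)
    have hx' := hx e this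
    rw [hx']
    change β' e = st.β e
    rw [hβ']
    simp [he]
  refine ⟨st', hcube, htri, ?_⟩
  intro o ho
  obtain ⟨hSL, hcard, hbigc, hf⟩ := hSκ o ho
  -- the only live variable
  by_cases hex : ∃ e ∈ S o, e ∈ L'
  · obtain ⟨e0, he0S, he0L⟩ := hex
    refine ⟨e0, fun x y hx hy hxy => hf x y (hcube x hx) (hcube y hy) ?_ ?_⟩
    · intro hb
      obtain ⟨e, heS, hhite⟩ := hhit o ho hb
      refine ⟨e, heS, ?_⟩
      have heL' : e ∉ L' := by
        intro h
        have hl := hlive e h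
        rcases hhite with ⟨_, h1⟩ | ⟨_, _, h2⟩
        · exact live_not_one hl h1
        · exact h2 hl
      rw [hx e heL']
      change β' e = κ o e
      rw [hβ']
      simp only [hSL heS, if_true]
      rcases hhite with ⟨h0, h1⟩ | ⟨h0, h1, _⟩
      · rw [h0]; simpa using h1
      · rw [h0]; simpa using h1
    · intro e heS
      by_cases heL' : e ∈ L'
      · have := hone o ho e heS e0 he0S heL' he0L
        rw [this]; exact hxy
      · rw [hx e heL', hy e heL']
  · push Not at hex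
    by_cases hV : Nonempty (Sym2 (Fin n))
    · obtain ⟨e0⟩ := hV
      refine ⟨e0, fun x y hx hy _ => hf x y (hcube x hx) (hcube y hy) ?_ ?_⟩
      · intro hb
        obtain ⟨e, heS, hhite⟩ := hhit o ho hb
        refine ⟨e, heS, ?_⟩
        have heL' : e ∉ L' := hex e heS
        rw [hx e heL']
        change β' e = κ o e
        rw [hβ']
        simp only [hSL heS, if_true]
        rcases hhite with ⟨h0, h1⟩ | ⟨h0, h1, _⟩
        · rw [h0]; simpa using h1
        · rw [h0]; simpa using h1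
      · intro e heS
        rw [hx e (hex e heS), hy e (hex e heS)]
    · exact absurd ⟨s(⟨0, hn⟩, ⟨0, hn⟩)⟩ hV

end Pool.Agent.Lib_helper21.TriRound
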