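import Pool.Agent.Lib_helper21.TriRoundE

/-!
Iterating the rounds.
-/

namespace Pool.Agent.Lib_helper21.TriRound

open Finset

variable {n : ℕ}

/-- the input of a stage in which exactly the live pairs in `A` are switched on -/
def Stage.inp (st : Stage n) (A : Finset (Sym2 (Fin n))) : Inp n :=
  fun e => if e ∈ st.L then decide (e ∈ A) else st.β e

lemma Stage.inp_cube (st : Stage n) (A : Finset (Sym2 (Fin n))) : st.Cube (st.inp A) := by
  intro e he
  simp [Stage.inp, he]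

/-- triangles in an input -/
def HasTri (x : Inp n) : Prop :=
  ∃ a b c : Fin n, x s(a, b) = true ∧ x s(b, c) = true ∧ x s(a, c) = true

lemma Stage.hasTri_inp (st : Stage n) (A : Finset (Sym2 (Fin n))) (hA : A ⊆ st.L) :
    HasTri (st.inp A) ↔ ∃ a b c : Fin n, s(a, b) ∈ A ∧ s(b, c) ∈ A ∧ s(a, c) ∈ A := by
  constructor
  · rintro ⟨a, b, c, h1, h2, h3⟩
    have conv : ∀ e : Sym2 (Fin n), st.inp A e = true → (e ∈ st.L ∨ st.β e = true) := by
      intro e he
      by_cases heL : e ∈ st.L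
      · left; exact heL
      · right
        simpa [Stage.inp, heL] using he
    obtain ⟨k1, k2, k3⟩ := st.closed a b c (conv _ h1) (conv _ h2) (conv _ h3)
    refine ⟨a, b, c, ?_, ?_, ?_⟩
    · simpa [Stage.inp, k1] using h1
    · simpa [Stage.inp, k2] using h2
    · simpa [Stage.inp, k3] using h3
  · rintro ⟨a, b, c, h1, h2, h3⟩
    refine ⟨a, b, c, ?_, ?_, ?_⟩
    · simp [Stage.inp, hA h1, h1]
    · simp [Stage.inp, hA h2, h2]
    · simp [Stage.inp, hA h3, h3]

/-- On a stage with a live triangle, triangle detection depends on at least two pairs. -/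
theorem final (st : Stage n) (h : 0 < (tri st.L).card) (F : Inp n → Bool)
    (hF : ∀ x, st.Cube x → (F x = true ↔ HasTri x)) (hdep : st.DepOne F) : False := by
  classical
  obtain ⟨p, hp⟩ := card_pos.1 h
  have hne := tri_ne st.nodiag hp
  have hp' := mem_tri.1 hp
  obtain ⟨e0, he0⟩ := hdep
  have hEL : edges p ⊆ st.L := by
    intro e he
    rcases mem_edges.1 he with rfl | rfl | rfl
    · exact hp'.1
    · exact hp'.2.1
    · exact hp'.2.2
  have htrue : F (st.inp (edges p)) = true := by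
    rw [hF _ (st.inp_cube _), st.hasTri_inp _ hEL]
    exact ⟨p.1, p.2.1, p.2.2, mem_edges.2 (Or.inl rfl), mem_edges.2 (Or.inr (Or.inl rfl)),
      mem_edges.2 (Or.inr (Or.inr rfl))⟩
  have hsmall : ∀ A : Finset (Sym2 (Fin n)), A ⊆ st.L → A.card ≤ 1 →
      F (st.inp A) = false := by
    intro A hA hc
    rw [Bool.eq_false_iff, ne_eq, hF _ (st.inp_cube _), st.hasTri_inp _ hA]
    rintro ⟨a, b, c, h1, h2, h3⟩
    have hab : a ≠ b := by
      intro hab; exact st.nodiag _ (hA h1) (by simpa using hab)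
    have hbc : b ≠ c := by
      intro hbc; exact st.nodiag _ (hA h2) (by simpa using hbc)
    have h12 : s(a, b) = s(b, c) := by
      rw [card_le_one] at hc
      exact hc _ h1 _ h2
    rw [Sym2.eq_iff] at h12
    rcases h12 with ⟨h, _⟩ | ⟨h, _⟩
    · exact hab h
    · have hac : a ≠ c := by
        intro hac; exact st.nodiag _ (hA h3) (by simpa using hac)
      exact hac h
  by_cases hmem : e0 ∈ edges p
  · have hsub : ({e0} : Finset (Sym2 (Fin n))) ⊆ st.L := by
      intro e he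
      rw [mem_singleton] at he
      rw [he]; exact hEL hmem
    have h1 := hsmall {e0} hsub (by simp)
    have h2 := he0 (st.inp {e0}) (st.inp (edges p)) (st.inp_cube _) (st.inp_cube _) (by
      simp [Stage.inp, hmem])
    rw [h1, htrue] at h2
    exact absurd h2 (by simp)
  · have h1 := hsmall ∅ (empty_subset _) (by simp)
    have h2 := he0 (st.inp ∅) (st.inp (edges p)) (st.inp_cube _) (st.inp_cube _) (by
      simp [Stage.inp, hmem])
    rw [h1, htrue] at h2
    exact absurd h2 (by simp)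

/-- The initial stage: all pairs of distinct vertices are live. -/
def initStage (n : ℕ) : Stage n where
  L := univ.filter (fun e => ¬ e.IsDiag)
  β := fun _ => false
  nodiag := fun e he => (mem_filter.1 he).2
  diagβ := fun _ _ => rfl
  closed := by
    intro a b c h1 h2 h3
    simp only [Bool.false_eq_true, or_false] at h1 h2 h3
    exact ⟨h1, h2, h3⟩

lemma initStage_card (n : ℕ) (hn : 4 ≤ n) :
    (n : ℝ) ^ 3 / 4 ≤ (tri (initStage n).L).card := by
  classical
  set A := univ.filter (fun p : Fin n × Fin n × Fin n => p.1 = p.2.1) with hA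
  set B := univ.filter (fun p : Fin n × Fin n × Fin n => p.2.1 = p.2.2) with hB
  set C := univ.filter (fun p : Fin n × Fin n × Fin n => p.1 = p.2.2) with hC
  have hAc : A.card ≤ n ^ 2 := by
    have : A ⊆ (univ : Finset (Fin n × Fin n)).image (fun q => (q.1, q.1, q.2)) := by
      rintro ⟨a, b, c⟩ hp
      simp only [hA, mem_filter, mem_univ, true_and] at hp
      exact mem_image.2 ⟨(a, c), mem_univ _, by simp [hp]⟩
    refine (card_le_card this).trans (card_image_le.trans (le_of_eq ?_))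
    rw [card_univ, Fintype.card_prod, Fintype.card_fin]; ring
  have hBc : B.card ≤ n ^ 2 := by
    have : B ⊆ (univ : Finset (Fin n × Fin n)).image (fun q => (q.1, q.2, q.2)) := by
      rintro ⟨a, b, c⟩ hp
      simp only [hB, mem_filter, mem_univ, true_and] at hp
      exact mem_image.2 ⟨(a, b), mem_univ _, by simp [hp]⟩
    refine (card_le_card this).trans (card_image_le.trans (le_of_eq ?_))
    rw [card_univ, Fintype.card_prod, Fintype.card_fin]; ring
  have hCc : C.card ≤ n ^ 2 := by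
    have : C ⊆ (univ : Finset (Fin n × Fin n)).image (fun q => (q.1, q.2, q.1)) := by
      rintro ⟨a, b, c⟩ hp
      simp only [hC, mem_filter, mem_univ, true_and] at hp
      exact mem_image.2 ⟨(a, b), mem_univ _, by simp [hp]⟩
    refine (card_le_card this).trans (card_image_le.trans (le_of_eq ?_))
    rw [card_univ, Fintype.card_prod, Fintype.card_fin]; ring
  have hcover : (univ : Finset (Fin n × Fin n × Fin n)) ⊆ tri (initStage n).L ∪ ((A ∪ B) ∪ C) := by
    rintro ⟨a, b, c⟩ _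
    simp only [mem_union, mem_tri, hA, hB, hC, mem_filter, mem_univ, true_and, initStage,
      Sym2.mk_isDiag_iff]
    tauto
  have h1 := card_le_card hcover
  rw [card_univ, Fintype.card_prod, Fintype.card_prod, Fintype.card_fin] at h1
  have h2 := card_union_le (tri (initStage n).L) ((A ∪ B) ∪ C)
  have h3 := card_union_le (A ∪ B) C
  have h4 := card_union_le A B
  have h5 : n * (n * n) ≤ (tri (initStage n).L).card + 3 * n ^ 2 := by omega
  have h6 : (n : ℝ) ^ 3 ≤ (tri (initStage n).L).card + 3 * (n : ℝ) ^ 2 := by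
    have : ((n * (n * n) : ℕ) : ℝ) ≤ (((tri (initStage n).L).card + 3 * n ^ 2 : ℕ) : ℝ) := by
      exact_mod_cast h5
    push_cast at this
    calc (n : ℝ) ^ 3 = n * (n * n) := by ring
      _ ≤ _ := this
  have h7 : (4 : ℝ) ≤ n := by exact_mod_cast hn
  nlinarith [sq_nonneg (n : ℝ)]

/-- The parameter `M = n ^ (2 + 4 ^ (1 - R)) / 1024`. -/
noncomputable def Mpar (n R : ℕ) : ℝ := (n : ℝ) ^ (2 + 1 / (4 : ℝ) ^ (R - 1)) / 1024

lemma one_le_pow_base (R : ℕ) : 1024 ≤ 1024 ^ (4 ^ (R - 1)) := by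
  calc 1024 = 1024 ^ 1 := by norm_num
    _ ≤ 1024 ^ (4 ^ (R - 1)) := Nat.pow_le_pow_right (by norm_num) (Nat.one_le_pow _ _ (by norm_num))

lemma hpar (n R : ℕ) (hn : 1024 ^ (4 ^ (R - 1)) ≤ n) :
    ∃ h : ℝ, 1024 ≤ h ∧ h ^ (4 ^ (R - 1)) = n ∧ Mpar n R = (n : ℝ) ^ 2 * h / 1024 ∧ h ≤ n := by
  have hn1 : 1024 ≤ n := (one_le_pow_base R).trans hn
  have hnR : (0 : ℝ) < n := by
    have : (1024 : ℝ) ≤ n := by exact_mod_cast hn1
    linarith
  refine ⟨(n : ℝ) ^ (1 / (4 : ℝ) ^ (R - 1)), ?_, ?_, ?_, ?_⟩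
  · have h1 : (1024 : ℝ) ^ ((4 : ℝ) ^ (R - 1)) ≤ n := by
      have : ((1024 ^ (4 ^ (R - 1)) : ℕ) : ℝ) ≤ n := by exact_mod_cast hn
      push_cast at this
      rw [← Real.rpow_natCast] at this
      push_cast at this
      exact this
    have h2 : ((1024 : ℝ) ^ ((4 : ℝ) ^ (R - 1))) ^ (1 / (4 : ℝ) ^ (R - 1)) = 1024 := by
      rw [← Real.rpow_mul (by norm_num), mul_one_div_cancel (by positivity), Real.rpow_one]
    calc (1024 : ℝ) = ((1024 : ℝ) ^ ((4 : ℝ) ^ (R - 1))) ^ (1 / (4 : ℝ) ^ (R - 1)) := h2.symm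
      _ ≤ _ := Real.rpow_le_rpow (by positivity) h1 (by positivity)
  · rw [← Real.rpow_natCast, ← Real.rpow_mul hnR.le]
    push_cast
    rw [one_div_mul_cancel (by positivity), Real.rpow_one]
  · unfold Mpar
    rw [Real.rpow_add hnR]
    norm_num
  · have h1 : (1 : ℝ) ≤ n := by
      have : (1024 : ℝ) ≤ n := by exact_mod_cast hn1
      linarith
    calc (n : ℝ) ^ (1 / (4 : ℝ) ^ (R - 1)) ≤ (n : ℝ) ^ (1 : ℝ) := by
          apply Real.rpow_le_rpow_of_exponent_le h1
          rw [div_le_one (by positivity)]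
          exact one_le_pow₀ (by norm_num)
      _ = n := Real.rpow_one _

/-- The general iteration. -/
theorem run (n R : ℕ) (hR : 1 ≤ R) (hn : 1024 ^ (4 ^ (R - 1)) ≤ n)
    (Good : ℕ → Stage n → Prop) (h0 : Good 0 (initStage n))
    (hstep : ∀ i < R, ∀ st, Good i st → 96 * Mpar n R ≤ (tri st.L).card →
      ∃ st', Good (i + 1) st' ∧
        ((tri st.L).card : ℝ) ^ 4 / (256 * n * Mpar n R) ^ 3 ≤ (tri st'.L).card) :
    ∃ st, Good R st ∧ 0 < (tri st.L).card := by
  obtain ⟨h, hh, hpow, hM, hhn⟩ := hpar n R hn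
  have hn1 : 1024 ≤ n := (one_le_pow_base R).trans hn
  have hnR : (1024 : ℝ) ≤ n := by exact_mod_cast hn1
  have hnpos : (0 : ℝ) < n := by linarith
  have hhpos : 0 < h := by linarith
  have hMpos : 0 < Mpar n R := by rw [hM]; positivity
  set H : ℝ := 256 * n * Mpar n R with hH
  have hHpos : 0 < H := by rw [hH]; positivity
  have key : ∀ i ≤ R, ∃ st, Good i st ∧ H / h ^ (4 ^ i) ≤ (tri st.L).card := by
    intro i
    induction i with
    | zero =>
      intro _
      refine ⟨initStage n, h0, ?_⟩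
      refine le_trans (le_of_eq ?_) (initStage_card n (by omega))
      rw [hH, hM]
      field_simp
      ring
    | succ i ih =>
      intro hi
      obtain ⟨st, hg, hst⟩ := ih (by omega)
      have hle : h ^ (4 ^ i) ≤ n := by
        rw [← hpow]
        apply pow_le_pow_right₀ (by linarith)
        exact Nat.pow_le_pow_right (by norm_num) (by omega)
      have h96 : 96 * Mpar n R ≤ (tri st.L).card := by
        refine le_trans ?_ hst
        rw [le_div_iff₀ (by positivity), hH]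
        have : 0 < n * Mpar n R := by positivity
        nlinarith
      obtain ⟨st', hg', ht'⟩ := hstep i (by omega) st hg h96
      refine ⟨st', hg', le_trans ?_ ht'⟩
      have e1 : H / h ^ (4 ^ (i + 1)) = (H / h ^ (4 ^ i)) ^ 4 / H ^ 3 := by
        rw [pow_succ 4 i, pow_mul]
        field_simp
      rw [e1]
      have hpos : 0 ≤ H / h ^ (4 ^ i) := by positivity
      gcongr
  obtain ⟨st, hg, hst⟩ := key R le_rfl
  refine ⟨st, hg, ?_⟩
  have : (0 : ℝ) < (tri st.L).card := lt_of_lt_of_le (by positivity) hst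
  exact_mod_cast this

/-- Numerical facts needed in every round. -/
theorem numeric (n R N Δ : ℕ) (hn : 1024 ^ (4 ^ (R - 1)) ≤ n)
    (hΔ : 576 * (Nat.log 2 n + 1) ^ 2 ≤ Δ)
    (hN : (N : ℝ) * Δ ^ 2 * 1024 < (n : ℝ) ^ (2 + 1 / (4 : ℝ) ^ (R - 1))) :
    (N : ℝ) * Δ ^ 2 ≤ Mpar n R ∧ (n : ℝ) ^ 2 ≤ Mpar n R ∧
      (N : ℝ) * (5 / 6) ^ (12 * (Nat.log 2 n + 1)) ≤ 1 / 144 ∧ 0 < n ∧
      4 * (12 * (Nat.log 2 n + 1)) ^ 2 ≤ Δ := by
  obtain ⟨h, hh, hpow, hM, hhn⟩ := hpar n R hn
  have hn1 : 1024 ≤ n := (one_le_pow_base R).trans hn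
  have hnR : (1024 : ℝ) ≤ n := by exact_mod_cast hn1
  have hnpos : (0 : ℝ) < n := by linarith
  have hNM : (N : ℝ) * Δ ^ 2 ≤ Mpar n R := by
    unfold Mpar
    rw [le_div_iff₀ (by norm_num)]
    exact hN.le
  refine ⟨hNM, ?_, ?_, by omega, ?_⟩
  · rw [hM, le_div_iff₀ (by norm_num)]
    have : 0 < (n : ℝ) ^ 2 := by positivity
    nlinarith
  · set ℓ := Nat.log 2 n + 1 with hℓ
    have hlt : n < 2 ^ ℓ := Nat.lt_pow_succ_log_self (by norm_num) n
    have hltR : (n : ℝ) < 2 ^ ℓ := by exact_mod_cast hlt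
    have h1 : (5 / 6 : ℝ) ^ (12 * ℓ) ≤ (1 / 8 : ℝ) ^ ℓ := by
      rw [pow_mul]
      apply pow_le_pow_left₀ (by positivity)
      norm_num
    have h2 : (1 / 8 : ℝ) ^ ℓ = 1 / (2 ^ ℓ) ^ 3 := by
      rw [div_pow, one_pow, ← pow_mul, mul_comm ℓ 3, pow_mul]; norm_num
    have h3 : (5 / 6 : ℝ) ^ (12 * ℓ) ≤ 1 / (n : ℝ) ^ 3 := by
      refine h1.trans ?_
      rw [h2]
      gcongr
    have hΔ1 : (1 : ℝ) ≤ (Δ : ℝ) ^ 2 := by
      have : 1 ≤ Δ := le_trans (Nat.succ_le_of_lt (by positivity)) hΔ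
      have : (1 : ℝ) ≤ Δ := by exact_mod_cast this
      nlinarith
    have h4 : (N : ℝ) ≤ (n : ℝ) ^ 3 / 1024 := by
      have a1 : (N : ℝ) ≤ N * Δ ^ 2 := by
        have : (0 : ℝ) ≤ N := Nat.cast_nonneg _
        nlinarith
      refine a1.trans (hNM.trans ?_)
      rw [hM]
      have : (n : ℝ) ^ 2 * h ≤ (n : ℝ) ^ 2 * n := mul_le_mul_of_nonneg_left hhn (by positivity)
      have e : (n : ℝ) ^ 3 = (n : ℝ) ^ 2 * n := by ring
      rw [e]
      gcongr
    calc (N : ℝ) * (5 / 6) ^ (12 * ℓ) ≤ ((n : ℝ) ^ 3 / 1024) * (1 / (n : ℝ) ^ 3) := by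
          gcongr
      _ = 1 / 1024 := by field_simp
      _ ≤ 1 / 144 := by norm_num
  · calc 4 * (12 * (Nat.log 2 n + 1)) ^ 2 = 576 * (Nat.log 2 n + 1) ^ 2 := by ring
      _ ≤ Δ := hΔ

end Pool.Agent.Lib_helper21.TriRound
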